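import Mathlib

/-! # The modified Bessel function of the second kind: definition, derivatives, decay, ODE -/

namespace Pool.Agent.K4H93.KB

open MeasureTheory Real Set Filter Topology

/-! ### Real estimates -/

theorem one_add_le_cosh (t : ℝ) : 1 + t ^ 2 / 2 ≤ Real.cosh t := by
  have h1 : Real.cosh t = 1 + 2 * Real.sinh (t / 2) ^ 2 := by
    have := Real.cosh_two_mul (t / 2)
    rw [Real.cosh_sq] at this
    rw [show t = 2 * (t / 2) by ring, this]
    ring_nf
  have h2 : (t / 2) ^ 2 ≤ Real.sinh (t / 2) ^ 2 := by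
    rw [← sq_abs (t / 2), ← sq_abs (Real.sinh (t / 2)), Real.abs_sinh]
    apply pow_le_pow_left₀ (abs_nonneg _)
    exact Real.self_le_sinh_iff.2 (abs_nonneg _)
  rw [h1]; nlinarith

/-- the dominating function -/
theorem integrable_dom {a : ℝ} (ha : 0 < a) (σ : ℝ) :
    Integrable (fun t : ℝ => Real.exp (-(a * Real.cosh t) + σ * t)) := by
  have h1 : Integrable (fun t : ℝ => Real.exp (-(a / 2) * t ^ 2 + σ * t)) := by
    have h := integrable_cexp_quadratic (b := ((a / 2 : ℝ) : ℂ))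
      (by rw [Complex.ofReal_re]; positivity) (σ : ℂ) 0
    have h' := h.norm
    refine h'.congr (Filter.Eventually.of_forall fun t => ?_)
    show ‖Complex.exp _‖ = _
    rw [Complex.norm_exp]
    congr 1
    simp
    norm_cast
    simp
  refine h1.mono' (by fun_prop) (Filter.Eventually.of_forall fun t => ?_)
  rw [Real.norm_eq_abs, abs_of_pos (Real.exp_pos _)]
  apply Real.exp_le_exp.2
  have := one_add_le_cosh t
  nlinarith

theorem cosh_pow_le (k : ℕ) {ε : ℝ} (hε : 0 < ε) (t : ℝ) :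
    Real.cosh t ^ k ≤ (k.factorial / ε ^ k) * Real.exp (ε * Real.cosh t) := by
  have h := Real.pow_div_factorial_le_exp (ε * Real.cosh t)
    (by have := Real.cosh_pos t; positivity) k
  have h3 : (0 : ℝ) < k.factorial := by exact_mod_cast Nat.factorial_pos k
  rw [div_le_iff₀ h3, mul_pow] at h
  rw [div_mul_eq_mul_div, le_div_iff₀ (by positivity)]
  calc Real.cosh t ^ k * ε ^ k = ε ^ k * Real.cosh t ^ k := by ring
    _ ≤ _ := h
    _ = _ := by ring

theorem integrable_dom_pow (k : ℕ) {a : ℝ} (ha : 0 < a) (σ : ℝ) :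
    Integrable (fun t : ℝ => Real.cosh t ^ k * Real.exp (-(a * Real.cosh t) + σ * t)) := by
  have h1 := (integrable_dom (half_pos ha) σ).const_mul (k.factorial / (a / 2) ^ k : ℝ)
  refine h1.mono' (by fun_prop) (Filter.Eventually.of_forall fun t => ?_)
  have hc := Real.cosh_pos t
  rw [Real.norm_eq_abs, abs_of_pos (by positivity)]
  have h2 := cosh_pow_le k (half_pos ha) t
  calc Real.cosh t ^ k * Real.exp (-(a * Real.cosh t) + σ * t)
      ≤ (k.factorial / (a / 2) ^ k) * Real.exp (a / 2 * Real.cosh t) *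
        Real.exp (-(a * Real.cosh t) + σ * t) :=
        mul_le_mul_of_nonneg_right h2 (Real.exp_pos _).le
    _ = (k.factorial / (a / 2) ^ k) * Real.exp (-(a / 2 * Real.cosh t) + σ * t) := by
        rw [mul_assoc, ← Real.exp_add]
        congr 2; ring

/-! ### The integrand -/

/-- the integrand of the Bessel function -/
noncomputable def E (ν : ℂ) (y t : ℝ) : ℂ := Complex.exp (-((y * Real.cosh t : ℝ) : ℂ) + ν * t)

theorem norm_E (ν : ℂ) (y t : ℝ) : ‖E ν y t‖ = Real.exp (-(y * Real.cosh t) + ν.re * t) := by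
  unfold E
  rw [Complex.norm_exp]
  congr 1
  simp

theorem continuous_E (ν : ℂ) (y : ℝ) : Continuous (E ν y) := by
  unfold E
  fun_prop

theorem integrable_pow_E (k : ℕ) (ν : ℂ) {y : ℝ} (hy : 0 < y) :
    Integrable (fun t : ℝ => (Real.cosh t : ℂ) ^ k * E ν y t) := by
  refine (integrable_dom_pow k hy ν.re).mono' ?_ (Filter.Eventually.of_forall fun t => ?_)
  · apply Continuous.aestronglyMeasurable
    have := continuous_E ν y
    fun_prop
  · rw [norm_mul, norm_pow, norm_E, Complex.norm_real, Real.norm_eq_abs,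
      abs_of_pos (Real.cosh_pos t)]

theorem integrable_E (ν : ℂ) {y : ℝ} (hy : 0 < y) : Integrable (E ν y) := by
  simpa using integrable_pow_E 0 ν hy

/-- `K ν y = (1/2) ∫ exp (- y cosh t + ν t) dt`, the modified Bessel function of the second kind
(the usual `∫_0^∞ exp (- y cosh t) cosh (ν t) dt`). -/
noncomputable def K (ν : ℂ) (y : ℝ) : ℂ := (1 / 2) * ∫ t : ℝ, E ν y t

/-- up to sign, the derivatives of `K` in `y` -/
noncomputable def KD (k : ℕ) (ν : ℂ) (y : ℝ) : ℂ :=
  (1 / 2) * ∫ t : ℝ, (Real.cosh t : ℂ) ^ k * E ν y t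

theorem KD_zero (ν : ℂ) (y : ℝ) : KD 0 ν y = K ν y := by
  unfold KD K
  simp

theorem hasDerivAt_E (ν : ℂ) (t y : ℝ) :
    HasDerivAt (fun y => E ν y t) (-(Real.cosh t : ℂ) * E ν y t) y := by
  unfold E
  have h1 : HasDerivAt (fun y : ℝ => (y * Real.cosh t : ℝ)) (Real.cosh t) y := by
    simpa using (hasDerivAt_id y).mul_const (Real.cosh t)
  have h2 : HasDerivAt (fun y : ℝ => -((y * Real.cosh t : ℝ) : ℂ) + ν * t)
      (-(Real.cosh t : ℂ)) y := by
    simpa using (h1.ofReal_comp.neg).add_const (ν * t)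
  have h3 := h2.cexp
  convert h3 using 1
  ring

theorem hasDerivAt_KD (k : ℕ) (ν : ℂ) {y : ℝ} (hy : 0 < y) :
    HasDerivAt (KD k ν) (-KD (k + 1) ν y) y := by
  have key := hasDerivAt_integral_of_dominated_loc_of_deriv_le (μ := volume) (𝕜 := ℝ)
    (F := fun y t => (Real.cosh t : ℂ) ^ k * E ν y t)
    (F' := fun y t => (Real.cosh t : ℂ) ^ k * (-(Real.cosh t : ℂ) * E ν y t))
    (bound := fun t => Real.cosh t ^ (k + 1) * Real.exp (-(y / 2 * Real.cosh t) + ν.re * t))
    (x₀ := y) (s := Ioi (y / 2)) (Ioi_mem_nhds (by linarith))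
    (Filter.Eventually.of_forall fun x => by
      apply Continuous.aestronglyMeasurable
      have := continuous_E ν x
      fun_prop)
    (integrable_pow_E k ν hy)
    (by
      apply Continuous.aestronglyMeasurable
      have := continuous_E ν y
      fun_prop)
    (Filter.Eventually.of_forall fun t x hx => by
      have hx' : y / 2 < x := hx
      have hc := Real.cosh_pos t
      rw [norm_mul, norm_mul, norm_pow, norm_neg, norm_E, Complex.norm_real, Real.norm_eq_abs,
        abs_of_pos hc, ← mul_assoc, ← pow_succ]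
      apply mul_le_mul_of_nonneg_left _ (by positivity)
      apply Real.exp_le_exp.2
      nlinarith)
    (integrable_dom_pow (k + 1) (half_pos hy) ν.re)
    (Filter.Eventually.of_forall fun t x _ => (hasDerivAt_E ν t x).const_mul _)
  have h2 := key.2.const_mul (1 / 2 : ℂ)
  unfold KD
  refine h2.congr_deriv ?_
  rw [← mul_neg, ← integral_neg]
  congr 1
  apply integral_congr_ae
  exact Filter.Eventually.of_forall fun t => by simp only []; ring

theorem hasDerivAt_K (ν : ℂ) {y : ℝ} (hy : 0 < y) : HasDerivAt (K ν) (-KD 1 ν y) y := by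
  have h := hasDerivAt_KD 0 ν hy
  have : KD 0 ν = K ν := funext fun y => KD_zero ν y
  rwa [this] at h

theorem hasDerivAt_E_t (ν : ℂ) (y t : ℝ) :
    HasDerivAt (fun t => E ν y t) ((-((y * Real.sinh t : ℝ) : ℂ) + ν) * E ν y t) t := by
  unfold E
  have h1 : HasDerivAt (fun t : ℝ => (y * Real.cosh t : ℝ)) (y * Real.sinh t) t :=
    (Real.hasDerivAt_cosh t).const_mul y
  have h2 : HasDerivAt (fun t : ℝ => -((y * Real.cosh t : ℝ) : ℂ) + ν * t)
      (-((y * Real.sinh t : ℝ) : ℂ) + ν) t := by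
    have h3 : HasDerivAt (fun t : ℝ => ν * (t : ℂ)) ν t := by
      simpa using (Complex.ofRealCLM.hasDerivAt (x := t)).const_mul ν
    exact h1.ofReal_comp.neg.add h3
  have h3 := h2.cexp
  convert h3 using 1
  ring

theorem integrable_sinh_E (ν : ℂ) {y : ℝ} (hy : 0 < y) :
    Integrable (fun t : ℝ => (Real.sinh t : ℂ) * E ν y t) := by
  refine (integrable_pow_E 1 ν hy).norm.mono' ?_ (Filter.Eventually.of_forall fun t => ?_)
  · apply Continuous.aestronglyMeasurable
    have := continuous_E ν y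
    fun_prop
  · rw [norm_mul, norm_mul, pow_one, Complex.norm_real, Complex.norm_real]
    apply mul_le_mul_of_nonneg_right _ (norm_nonneg _)
    rw [Real.norm_eq_abs, Real.norm_eq_abs, Real.abs_sinh, abs_of_pos (Real.cosh_pos t),
      ← Real.cosh_abs]
    exact (Real.sinh_lt_cosh _).le

/-- the differential equation `y² K'' + y K' - (y² + ν²) K = 0` -/
theorem K_ode (ν : ℂ) {y : ℝ} (hy : 0 < y) :
    (y : ℂ) ^ 2 * KD 2 ν y - y * KD 1 ν y - (y ^ 2 + ν ^ 2) * K ν y = 0 := by
  -- F = (- y sinh t - ν) E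
  have hF : ∀ t : ℝ, HasDerivAt (fun t : ℝ => (-((y * Real.sinh t : ℝ) : ℂ) - ν) * E ν y t)
      ((y : ℂ) ^ 2 * ((Real.cosh t : ℂ) ^ 2 * E ν y t) - y * ((Real.cosh t : ℂ) ^ 1 * E ν y t)
        - (y ^ 2 + ν ^ 2) * E ν y t) t := by
    intro t
    have h1 : HasDerivAt (fun t : ℝ => (y * Real.sinh t : ℝ)) (y * Real.cosh t) t :=
      (Real.hasDerivAt_sinh t).const_mul y
    have h2 : HasDerivAt (fun t : ℝ => -((y * Real.sinh t : ℝ) : ℂ) - ν)
        (-((y * Real.cosh t : ℝ) : ℂ)) t := h1.ofReal_comp.neg.sub_const ν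
    have h3 := h2.mul (hasDerivAt_E_t ν y t)
    refine h3.congr_deriv ?_
    have h4 : (Real.cosh t : ℂ) ^ 2 = (Real.sinh t : ℂ) ^ 2 + 1 := by
      exact_mod_cast Real.cosh_sq t
    push_cast at h4 ⊢
    linear_combination -(y : ℂ) ^ 2 * E ν y t * h4
  have hint1 : Integrable (fun t : ℝ => (-((y * Real.sinh t : ℝ) : ℂ) - ν) * E ν y t) := by
    have h1 := ((integrable_sinh_E ν hy).const_mul (-(y : ℂ))).sub
      ((integrable_E ν hy).const_mul ν)
    refine h1.congr (Filter.Eventually.of_forall fun t => ?_)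
    simp only [Pi.sub_apply]
    push_cast
    ring
  have i2 := (integrable_pow_E 2 ν hy).const_mul ((y : ℂ) ^ 2)
  have i1 := (integrable_pow_E 1 ν hy).const_mul (y : ℂ)
  have i0 := (integrable_E ν hy).const_mul ((y : ℂ) ^ 2 + ν ^ 2)
  have hz := integral_eq_zero_of_hasDerivAt_of_integrable hF ((i2.sub i1).sub i0) hint1
  rw [integral_sub (f := fun t : ℝ => (y : ℂ) ^ 2 * ((Real.cosh t : ℂ) ^ 2 * E ν y t) -
      y * ((Real.cosh t : ℂ) ^ 1 * E ν y t)) (i2.sub i1) i0, integral_sub i2 i1,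
    integral_const_mul, integral_const_mul, integral_const_mul] at hz
  unfold KD K
  linear_combination (1 / 2 : ℂ) * hz

/-! ### Decay -/

/-- exponential decay -/
theorem norm_KD_le (k : ℕ) (ν : ℂ) {y₀ : ℝ} (h0 : 0 < y₀) :
    ∃ C : ℝ, 0 ≤ C ∧ ∀ y : ℝ, y₀ ≤ y → ‖KD k ν y‖ ≤ C * Real.exp (-y) := by
  refine ⟨(1 / 2) * (∫ t : ℝ, Real.cosh t ^ k * Real.exp (-(y₀ * Real.cosh t) + ν.re * t)) *
    Real.exp y₀, ?_, ?_⟩
  · have : 0 ≤ ∫ t : ℝ, Real.cosh t ^ k * Real.exp (-(y₀ * Real.cosh t) + ν.re * t) := by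
      apply integral_nonneg
      intro t
      have := Real.cosh_pos t
      positivity
    positivity
  · intro y hy
    unfold KD
    rw [norm_mul]
    have h1 : ‖∫ t : ℝ, (Real.cosh t : ℂ) ^ k * E ν y t‖ ≤
        ∫ t : ℝ, (Real.cosh t ^ k * Real.exp (-(y₀ * Real.cosh t) + ν.re * t)) *
          (Real.exp y₀ * Real.exp (-y)) := by
      apply norm_integral_le_of_norm_le
      · exact (integrable_dom_pow k h0 ν.re).mul_const _
      · refine Filter.Eventually.of_forall fun t => ?_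
        have hc := Real.cosh_pos t
        rw [norm_mul, norm_pow, norm_E, Complex.norm_real, Real.norm_eq_abs, abs_of_pos hc,
          mul_assoc]
        apply mul_le_mul_of_nonneg_left _ (by positivity)
        rw [← Real.exp_add, ← Real.exp_add]
        apply Real.exp_le_exp.2
        have := Real.one_le_cosh t
        nlinarith
    rw [integral_mul_const] at h1
    have h2 : ‖(1 / 2 : ℂ)‖ = 1 / 2 := by norm_num
    rw [h2]
    calc (1 / 2 : ℝ) * _ ≤ (1 / 2 : ℝ) * _ := mul_le_mul_of_nonneg_left h1 (by norm_num)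
      _ = _ := by ring

theorem norm_K_le (ν : ℂ) {y₀ : ℝ} (h0 : 0 < y₀) :
    ∃ C : ℝ, 0 ≤ C ∧ ∀ y : ℝ, y₀ ≤ y → ‖K ν y‖ ≤ C * Real.exp (-y) := by
  obtain ⟨C, h1, h2⟩ := norm_KD_le 0 ν h0
  exact ⟨C, h1, fun y hy => by rw [← KD_zero]; exact h2 y hy⟩

/-! ### Symmetries -/

theorem K_neg (ν : ℂ) (y : ℝ) : K (-ν) y = K ν y := by
  unfold K
  congr 1
  rw [← integral_neg_eq_self]
  congr 1
  ext t
  unfold E
  rw [Real.cosh_neg]
  congr 1
  push_cast
  ring

theorem K_conj (ν : ℂ) (y : ℝ) : (starRingEnd ℂ) (K ν y) = K ((starRingEnd ℂ) ν) y := by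
  unfold K
  rw [map_mul, ← integral_conj]
  congr 1
  · rw [map_div₀, map_one, map_ofNat]
  · congr 1
    ext t
    unfold E
    rw [← Complex.exp_conj]
    congr 1
    rw [map_add, map_mul, map_neg, Complex.conj_ofReal, Complex.conj_ofReal]

end Pool.Agent.K4H93.KB
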