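import Pool.Agent.K4H93.KB.Hecke

/-! # Multiplicativity and the Euler product -/

set_option autoImplicit false

namespace Pool.Agent.K4H93.KB

open Real Set Filter Topology

section

variable {a : ℕ → ℂ} {l : ℕ → ℂ}

/-- the Hecke relations for a sequence -/
def Rel (a l : ℕ → ℂ) : Prop := ∀ p : ℕ, p.Prime → ∀ n : ℕ,
  a (p * n) + (if p ∣ n then a (n / p) else 0) = l p * a n

theorem Rel.eq_zero (h : Rel a l) (h0 : a 0 = 0) (h1 : a 1 = 0) (n : ℕ) : a n = 0 := by
  induction n using Nat.strong_induction_on with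
  | _ n ih =>
    by_cases hn0 : n = 0
    · rw [hn0, h0]
    by_cases hn1 : n = 1
    · rw [hn1, h1]
    obtain ⟨p, hp, m, rfl⟩ := Nat.exists_prime_and_dvd hn1
    have hm : m ≠ 0 := fun h => hn0 (by rw [h, mul_zero])
    have hmlt : m < p * m := by
      have := hp.two_le
      have hm' : 0 < m := Nat.pos_of_ne_zero hm
      nlinarith
    have h2 := h p hp m
    rw [ih m hmlt, mul_zero] at h2
    split_ifs at h2 with hpm
    · have h3 : m / p < p * m := lt_of_le_of_lt (Nat.div_le_self _ _) hmlt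
      rwa [ih _ h3, add_zero] at h2
    · rwa [add_zero] at h2

theorem Rel.mul_coprime (h : Rel a l) (h0 : a 0 = 0) (h1 : a 1 = 1) (m : ℕ) :
    ∀ n : ℕ, Nat.Coprime m n → a (m * n) = a m * a n := by
  induction m using Nat.strong_induction_on with
  | _ m ih =>
    intro n hmn
    by_cases hm0 : m = 0
    · rw [hm0, zero_mul, h0, zero_mul]
    by_cases hm1 : m = 1
    · rw [hm1, one_mul, h1, one_mul]
    obtain ⟨p, hp, k, rfl⟩ := Nat.exists_prime_and_dvd hm1
    have hk : k ≠ 0 := fun h => hm0 (by rw [h, mul_zero])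
    have hk' : 0 < k := Nat.pos_of_ne_zero hk
    have hlt : k < p * k := by
      have := hp.two_le
      nlinarith
    have hpn : ¬ p ∣ n := by
      have : Nat.Coprime p n := Nat.Coprime.coprime_mul_right hmn
      exact (Nat.Prime.coprime_iff_not_dvd hp).1 this
    have hkn : Nat.Coprime k n := Nat.Coprime.coprime_mul_left hmn
    have e1 := h p hp (k * n)
    have e2 := h p hp k
    rw [ih k hlt n hkn] at e1
    have hdvd : p ∣ k * n ↔ p ∣ k := by
      rw [hp.dvd_mul]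
      tauto
    rw [mul_assoc]
    by_cases hpk : p ∣ k
    · rw [if_pos (hdvd.2 hpk)] at e1
      rw [if_pos hpk] at e2
      obtain ⟨j, rfl⟩ := hpk
      have hj : Nat.Coprime j n := Nat.Coprime.coprime_mul_left hkn
      have hjlt : j < p * (p * j) := by
        have := hp.two_le
        nlinarith [Nat.pos_of_ne_zero (fun h : j = 0 => hk (by rw [h, mul_zero]))]
      rw [mul_assoc p j n, Nat.mul_div_cancel_left _ hp.pos, ih j hjlt n hj] at e1
      rw [Nat.mul_div_cancel_left _ hp.pos] at e2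
      rw [mul_assoc p j n]
      linear_combination e1 - (a n) * e2
    · rw [if_neg (fun h => hpk (hdvd.1 h))] at e1
      rw [if_neg hpk] at e2
      linear_combination e1 - (a n) * e2

theorem Rel.prime_pow (h : Rel a l) {p : ℕ} (hp : p.Prime) (e : ℕ) :
    a (p ^ (e + 2)) = l p * a (p ^ (e + 1)) - a (p ^ e) := by
  have h2 := h p hp (p ^ (e + 1))
  rw [if_pos (dvd_pow_self p (Nat.succ_ne_zero e))] at h2
  have e1 : p * p ^ (e + 1) = p ^ (e + 2) := by ring
  have e2 : p ^ (e + 1) / p = p ^ e := by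
    rw [pow_succ, Nat.mul_div_cancel _ hp.pos]
  rw [e1, e2] at h2
  linear_combination h2

theorem Rel.prime_one (h : Rel a l) (h1 : a 1 = 1) {p : ℕ} (hp : p.Prime) : a p = l p := by
  have h2 := h p hp 1
  rw [mul_one, if_neg (fun h => hp.one_lt.ne' (Nat.dvd_one.1 h)), add_zero, h1, mul_one] at h2
  exact h2

end

/-- the local factor -/
theorem local_factor {u : ℕ → ℂ} {t x : ℂ} (h0 : u 0 = 1) (h1 : u 1 = t * x)
    (h2 : ∀ e, u (e + 2) = t * x * u (e + 1) - x ^ 2 * u e) (hs : Summable u) :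
    ∑' e, u e = (1 - t * x + x ^ 2)⁻¹ := by
  have hs1 : Summable (fun e => u (e + 1)) := (summable_nat_add_iff 1).2 hs
  have hs2 : Summable (fun e => u (e + 2)) := (summable_nat_add_iff 2).2 hs
  have e1 := hs.tsum_eq_zero_add
  have e2 := hs1.tsum_eq_zero_add
  have e3 : ∑' e, u (e + 2) = t * x * ∑' e, u (e + 1) - x ^ 2 * ∑' e, u e := by
    rw [← tsum_mul_left, ← tsum_mul_left, ← (hs1.mul_left _).tsum_sub (hs.mul_left _)]
    exact tsum_congr h2
  rw [h0] at e1
  simp only [zero_add] at e2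
  have e2' : ∑' e, u (e + 1) = u 1 + ∑' e, u (e + 2) := e2
  rw [h1] at e2'
  have key : (∑' e, u e) * (1 - t * x + x ^ 2) = 1 := by
    rw [e3] at e2'
    linear_combination (1 - t * x) * e1 + e2'
  exact eq_inv_of_mul_eq_one_left key

/-- the Euler product of the twisted series -/
theorem euler_product {N : ℕ} {a l : ℕ → ℂ} (h : Rel a l) (h0 : a 0 = 0) (h1 : a 1 = 1)
    {B A : ℝ} (ha : ∀ n, ‖a n‖ ≤ B * (n : ℝ) ^ A) (χ : DirichletCharacter ℂ N) {s : ℂ}
    (hs : A + 1 < s.re) :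
    HasProd (fun p : Nat.Primes => (1 - l p * (χ p * (p : ℂ) ^ (-s)) +
      (χ p * (p : ℂ) ^ (-s)) ^ 2)⁻¹) (LSeries (tw χ a) s) := by
  set f : ℕ → ℂ := LSeries.term (tw χ a) s with hf
  have hfn : ∀ n : ℕ, n ≠ 0 → f n = χ n * a n * (n : ℂ) ^ (-s) := by
    intro n hn
    rw [hf, LSeries.term_of_ne_zero hn, tw, Complex.cpow_neg, div_eq_mul_inv]
  have hf0 : f 0 = 0 := by rw [hf, LSeries.term_zero]
  have hf1 : f 1 = 1 := by
    rw [hfn 1 one_ne_zero, h1]
    simp
  have hmul : ∀ {m n : ℕ}, Nat.Coprime m n → f (m * n) = f m * f n := by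
    intro m n hmn
    by_cases hm : m = 0
    · rw [hm, zero_mul, hf0, zero_mul]
    by_cases hn : n = 0
    · rw [hn, mul_zero, hf0, mul_zero]
    rw [hfn _ (mul_ne_zero hm hn), hfn m hm, hfn n hn, h.mul_coprime h0 h1 m n hmn]
    push_cast
    rw [map_mul, Complex.natCast_mul_natCast_cpow]
    ring
  have hsum : Summable f := by
    have : LSeriesSummable (tw χ a) s :=
      LSeriesSummable_of_le_const_mul_rpow (x := A + 1) hs
        ⟨B, fun n _ => by
          have := tw_bound (χ := χ) ha n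
          rw [add_sub_cancel_right]
          exact this⟩
    exact this
  have key := EulerProduct.eulerProduct_hasProd hf1 hmul hsum.norm hf0
  have hval : (∑' n, f n) = LSeries (tw χ a) s := rfl
  rw [hval] at key
  refine (congrArg (fun g : Nat.Primes → ℂ => HasProd g (LSeries (tw χ a) s))
    (funext fun p => ?_)).mpr key
  have hp : (p : ℕ).Prime := p.2
  have hp0 : (p : ℕ) ≠ 0 := hp.ne_zero
  symm
  have hpe : ∀ e : ℕ, f ((p : ℕ) ^ e) = a ((p : ℕ) ^ e) * (χ p * ((p : ℕ) : ℂ) ^ (-s)) ^ e := by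
    intro e
    rw [hfn _ (pow_ne_zero e hp0)]
    push_cast
    rw [map_pow, mul_pow]
    have : (((p : ℕ) : ℂ) ^ e) ^ (-s) = (((p : ℕ) : ℂ) ^ (-s)) ^ e := by
      rw [← Complex.natCast_cpow_natCast_mul, mul_comm, Complex.cpow_mul_nat]
    rw [this]
    ring
  refine local_factor (u := fun e => f ((p : ℕ) ^ e)) ?_ ?_ ?_ ?_
  · simp only [pow_zero]; exact hf1
  · rw [hpe, pow_one, pow_one, h.prime_one h1 hp]
  · intro e
    rw [hpe, hpe, hpe, h.prime_pow hp]
    ring
  · exact hsum.comp_injective (Nat.pow_right_injective hp.two_le)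

/-- Everything together: an odd bounded eigenfunction of the Laplacian and of all Hecke
operators for the modular group. -/
theorem main_consumer {F : ℂ → ℂ} {ν : ℂ} {Fx Fy Fxx Fyy : ℝ → ℝ → ℂ} {M : ℝ} {l : ℕ → ℂ}
    (hR : Reg F Fx Fy Fxx Fyy) (hI : Inv F)
    (hodd : ∀ x y : ℝ, 0 < y → F (((-x : ℝ) : ℂ) + y * Complex.I) = -F (x + y * Complex.I))
    (hΔ : ∀ x y : ℝ, 0 < y → (y : ℂ) ^ 2 * (Fxx x y + Fyy x y) =
      (ν ^ 2 - 1 / 4) * F (x + y * Complex.I))
    (hM : ∀ z : ℂ, 0 < z.im → ‖F z‖ ≤ M)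
    (hne : ∃ z : ℂ, 0 < z.im ∧ F z ≠ 0)
    (hl : ∀ p : ℕ, p.Prime → HeckeEigen F p (l p)) :
    ∃ (a : ℕ → ℂ) (B : ℝ) (c₁ : ℂ), c₁ ≠ 0 ∧ 0 ≤ B ∧ a 0 = 0 ∧ a 1 = 1 ∧ Rel a l ∧
      (∀ n, ‖a n‖ ≤ B * (n : ℝ) ^ (1 / 2 : ℝ)) ∧
      Expand F (fun n => c₁ * a n) ν ∧
      ∀ (N : ℕ) [NeZero N] (χ : DirichletCharacter ℂ N), χ.IsPrimitive → χ⁻¹ = χ →
        ∃ Λ : ℂ → ℂ, Differentiable ℂ Λ ∧
          (∀ s : ℂ, 3 / 2 < s.re → HasProd (fun p : Nat.Primes =>
            (1 - l p * (χ p * (p : ℂ) ^ (-s)) + (χ p * (p : ℂ) ^ (-s)) ^ 2)⁻¹) (Λ s)) ∧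
          Λ (1 / 2) = 0 := by
  have hper : ∀ z : ℂ, 0 < z.im → F (z + 1) = F z := by
    intro z hz
    have := hI 1 1 0 1 (by norm_num) z hz
    rw [← this]
    congr 1
    push_cast
    ring
  obtain ⟨b, B, hb0, hB, hb, hfc⟩ := exists_coeff hR hper hΔ hM
  have hE : Expand F b ν := expand_of_coeff hR.c0 hper hodd hb0 hB hb hfc
  have hrel : Rel b l := fun p hp n => hecke_rel hR.c0 hper hodd hb0 hfc hp.pos (hl p hp) n
  have hb1 : b 1 ≠ 0 := by
    intro h1
    obtain ⟨z, hz, hFz⟩ := hne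
    apply hFz
    have h2 := hE z.re z.im hz
    have h3 : (z.re : ℂ) + z.im * Complex.I = z := Complex.re_add_im z
    rw [h3] at h2
    rw [h2]
    have h4 : ∀ n, b n = 0 := hrel.eq_zero hb0 h1
    simp [h4]
  have hn1 : 0 < ‖b 1‖ := norm_pos_iff.2 hb1
  set a : ℕ → ℂ := fun n => b n / b 1 with ha
  have ha0 : a 0 = 0 := by simp [ha, hb0]
  have ha1 : a 1 = 1 := by simp [ha, hb1]
  have harel : Rel a l := by
    intro p hp n
    have := hrel p hp n
    simp only [ha]
    split_ifs at this ⊢ with h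
    · field_simp
      linear_combination this
    · field_simp
      linear_combination this
  have hab : ∀ n, ‖a n‖ ≤ (B / ‖b 1‖) * (n : ℝ) ^ (1 / 2 : ℝ) := by
    intro n
    simp only [ha]
    rw [norm_div, div_mul_eq_mul_div]
    exact div_le_div_of_nonneg_right (hb n) hn1.le
  have hEa : Expand F (fun n => b 1 * a n) ν := by
    have : (fun n => b 1 * a n) = b := by
      ext n
      simp only [ha]
      field_simp
    rw [this]
    exact hE
  refine ⟨a, B / ‖b 1‖, b 1, hb1, by positivity, ha0, ha1, harel, hab, hEa, ?_⟩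
  intro N _ χ hχ hr
  obtain ⟨Λ, hd, hs, h0⟩ := twist_exists_entire (A := 1 / 2) (B := B) hI hE hb0 hB hb hχ hr
  refine ⟨fun s => Λ s / b 1, hd.div_const _, fun s hs' => ?_, by
    show Λ (1 / 2) / b 1 = 0
    rw [h0, zero_div]⟩
  have hs2 : (1 / 2 : ℝ) + 1 < s.re := by linarith
  have h5 := euler_product harel ha0 ha1 hab χ hs2
  have h6 : LSeries (tw χ a) s = Λ s / b 1 := by
    rw [hs s hs2]
    have h7 : tw χ b = b 1 • tw χ a := by
      ext n
      simp only [tw, ha, Pi.smul_apply, smul_eq_mul]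
      field_simp
    rw [h7, LSeries_smul, mul_div_cancel_left₀ _ hb1]
  rw [h6] at h5
  exact h5

end Pool.Agent.K4H93.KB
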