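import Pool.Agent.K4H93.KB.Twist

/-! # Fourier expansion of an odd bounded eigenfunction -/

set_option autoImplicit false

namespace Pool.Agent.K4H93.KB

open MeasureTheory Real Set Filter Topology Asymptotics

/-- `F` has continuous partial derivatives of second order on the upper half plane -/
structure Reg (F : ℂ → ℂ) (Fx Fy Fxx Fyy : ℝ → ℝ → ℂ) : Prop where
  dx : ∀ x y : ℝ, 0 < y → HasDerivAt (fun t : ℝ => F (t + y * Complex.I)) (Fx x y) x
  dy : ∀ x y : ℝ, 0 < y → HasDerivAt (fun t : ℝ => F (x + t * Complex.I)) (Fy x y) y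
  dxx : ∀ x y : ℝ, 0 < y → HasDerivAt (fun t : ℝ => Fx t y) (Fxx x y) x
  dyy : ∀ x y : ℝ, 0 < y → HasDerivAt (fun t : ℝ => Fy x t) (Fyy x y) y
  c0 : ContinuousOn (fun p : ℝ × ℝ => F (p.1 + p.2 * Complex.I)) {p | 0 < p.2}
  cy : ContinuousOn (fun p : ℝ × ℝ => Fy p.1 p.2) {p | 0 < p.2}
  cxx : ContinuousOn (fun p : ℝ × ℝ => Fxx p.1 p.2) {p | 0 < p.2}
  cyy : ContinuousOn (fun p : ℝ × ℝ => Fyy p.1 p.2) {p | 0 < p.2}

theorem slice_continuous {g : ℝ → ℝ → ℂ}
    (hc : ContinuousOn (fun p : ℝ × ℝ => g p.1 p.2) {p | 0 < p.2}) {y : ℝ} (hy : 0 < y) :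
    Continuous (fun x : ℝ => g x y) := by
  have h1 : Continuous (fun x : ℝ => ((x, y) : ℝ × ℝ)) := by fun_prop
  rw [← continuousOn_univ] at h1 ⊢
  exact hc.comp h1 (fun x _ => hy)

theorem deriv_int {g gy : ℝ → ℝ → ℂ}
    (hg : ∀ x y : ℝ, 0 < y → HasDerivAt (fun t : ℝ => g x t) (gy x y) y)
    (hc : ContinuousOn (fun p : ℝ × ℝ => g p.1 p.2) {p | 0 < p.2})
    (hcy : ContinuousOn (fun p : ℝ × ℝ => gy p.1 p.2) {p | 0 < p.2})
    {s : ℝ → ℂ} (hs : Continuous s) {y : ℝ} (hy : 0 < y) :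
    HasDerivAt (fun t : ℝ => ∫ x in (0 : ℝ)..1, g x t * s x)
      (∫ x in (0 : ℝ)..1, gy x y * s x) y := by
  have hK : IsCompact (Icc (0 : ℝ) 1 ×ˢ Icc (y / 2) (2 * y)) := isCompact_Icc.prod isCompact_Icc
  have hsub : Icc (0 : ℝ) 1 ×ˢ Icc (y / 2) (2 * y) ⊆ {p : ℝ × ℝ | 0 < p.2} := by
    rintro ⟨a, b⟩ ⟨_, hb⟩
    have : y / 2 ≤ b := hb.1
    show 0 < b
    linarith
  have hcont : ContinuousOn (fun p : ℝ × ℝ => gy p.1 p.2 * s p.1)
      (Icc (0 : ℝ) 1 ×ˢ Icc (y / 2) (2 * y)) :=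
    (hcy.mono hsub).mul (hs.comp continuous_fst).continuousOn
  obtain ⟨M, hM⟩ := hK.exists_bound_of_continuousOn hcont
  have hmem : Ioo (y / 2) (2 * y) ∈ 𝓝 y := Ioo_mem_nhds (by linarith) (by linarith)
  refine (intervalIntegral.hasDerivAt_integral_of_dominated_loc_of_deriv_le
    (F := fun t x => g x t * s x) (F' := fun t x => gy x t * s x) (bound := fun _ => M)
    hmem ?_ ?_ ?_ ?_ ?_ ?_).2
  · filter_upwards [hmem] with t ht
    have ht0 : 0 < t := by linarith [ht.1]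
    exact ((slice_continuous hc ht0).mul hs).aestronglyMeasurable
  · exact ((slice_continuous hc hy).mul hs).intervalIntegrable _ _
  · exact ((slice_continuous hcy hy).mul hs).aestronglyMeasurable
  · refine Filter.Eventually.of_forall (fun x hx t ht => ?_)
    rw [uIoc_of_le zero_le_one] at hx
    exact hM (x, t) ⟨⟨hx.1.le, hx.2⟩, ⟨ht.1.le, ht.2.le⟩⟩
  · exact intervalIntegrable_const
  · refine Filter.Eventually.of_forall (fun x hx t ht => ?_)
    have ht0 : 0 < t := by linarith [ht.1]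
    exact (hg x t ht0).mul_const (s x)

/-- the Fourier coefficient -/
noncomputable def fc (F : ℂ → ℂ) (n : ℕ) (y : ℝ) : ℂ :=
  2 * ∫ x in (0 : ℝ)..1, F (x + y * Complex.I) * (Real.sin (2 * π * n * x) : ℂ)

theorem int_xx {F : ℂ → ℂ} {Fx Fy Fxx Fyy : ℝ → ℝ → ℂ} (hR : Reg F Fx Fy Fxx Fyy)
    (hper : ∀ z : ℂ, 0 < z.im → F (z + 1) = F z) (n : ℕ) {y : ℝ} (hy : 0 < y) :
    ∫ x in (0 : ℝ)..1, Fxx x y * (Real.sin (2 * π * n * x) : ℂ) =
      -(2 * π * n : ℂ) ^ 2 * ∫ x in (0 : ℝ)..1, F (x + y * Complex.I) *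
        (Real.sin (2 * π * n * x) : ℂ) := by
  have hsin : ∀ x : ℝ, HasDerivAt (fun x : ℝ => (Real.sin (2 * π * n * x) : ℂ))
      ((2 * π * n : ℂ) * (Real.cos (2 * π * n * x) : ℂ)) x := by
    intro x
    have h1 : HasDerivAt (fun x : ℝ => 2 * π * n * x) (2 * π * n) x := by
      simpa using (hasDerivAt_id x).const_mul (2 * π * n)
    have h2 := (h1.sin).ofReal_comp
    refine h2.congr_deriv ?_
    push_cast
    ring
  have hcos : ∀ x : ℝ, HasDerivAt (fun x : ℝ => (Real.cos (2 * π * n * x) : ℂ))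
      (-(2 * π * n : ℂ) * (Real.sin (2 * π * n * x) : ℂ)) x := by
    intro x
    have h1 : HasDerivAt (fun x : ℝ => 2 * π * n * x) (2 * π * n) x := by
      simpa using (hasDerivAt_id x).const_mul (2 * π * n)
    have h2 := (h1.cos).ofReal_comp
    refine h2.congr_deriv ?_
    push_cast
    ring
  have csin : Continuous (fun x : ℝ => (Real.sin (2 * π * n * x) : ℂ)) :=
    continuous_iff_continuousAt.2 fun x => (hsin x).continuousAt
  have ccos : Continuous (fun x : ℝ => (Real.cos (2 * π * n * x) : ℂ)) :=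
    continuous_iff_continuousAt.2 fun x => (hcos x).continuousAt
  have cF : Continuous (fun x : ℝ => F (x + y * Complex.I)) :=
    slice_continuous (g := fun x y => F (x + y * Complex.I)) hR.c0 hy
  have cFx : Continuous (fun x : ℝ => Fx x y) :=
    continuous_iff_continuousAt.2 fun x => (hR.dxx x y hy).continuousAt
  have cFxx : Continuous (fun x : ℝ => Fxx x y) := slice_continuous hR.cxx hy
  have e1 := intervalIntegral.integral_mul_deriv_eq_deriv_mul (a := 0) (b := 1)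
    (u := fun x : ℝ => (Real.sin (2 * π * n * x) : ℂ)) (v := fun x : ℝ => Fx x y)
    (u' := fun x : ℝ => (2 * π * n : ℂ) * (Real.cos (2 * π * n * x) : ℂ))
    (v' := fun x : ℝ => Fxx x y) (fun x _ => hsin x) (fun x _ => hR.dxx x y hy)
    ((ccos.const_mul _).intervalIntegrable _ _) (cFxx.intervalIntegrable _ _)
  have e2 := intervalIntegral.integral_mul_deriv_eq_deriv_mul (a := 0) (b := 1)
    (u := fun x : ℝ => (Real.cos (2 * π * n * x) : ℂ)) (v := fun x : ℝ => F (x + y * Complex.I))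
    (u' := fun x : ℝ => -(2 * π * n : ℂ) * (Real.sin (2 * π * n * x) : ℂ))
    (v' := fun x : ℝ => Fx x y) (fun x _ => hcos x) (fun x _ => hR.dx x y hy)
    ((csin.const_mul _).intervalIntegrable _ _) (cFx.intervalIntegrable _ _)
  have s1 : Real.sin (2 * π * n * 1) = 0 := by
    have : 2 * π * n * 1 = ((2 * n : ℕ) : ℝ) * π := by push_cast; ring
    rw [this, Real.sin_nat_mul_pi]
  have c1 : Real.cos (2 * π * n * 1) = 1 := by
    have : 2 * π * n * 1 = (n : ℝ) * (2 * π) := by ring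
    rw [this, Real.cos_nat_mul_two_pi]
  have p1 : F (((1 : ℝ) : ℂ) + y * Complex.I) = F (((0 : ℝ) : ℂ) + y * Complex.I) := by
    have := hper (((0 : ℝ) : ℂ) + y * Complex.I) (by simpa using hy)
    rw [← this]
    congr 1
    push_cast
    ring
  simp only [s1, c1, mul_zero, Real.sin_zero, Real.cos_zero, p1, Complex.ofReal_zero,
    zero_mul, sub_self, zero_sub] at e1 e2
  have e3 : (∫ x in (0 : ℝ)..1, Fxx x y * (Real.sin (2 * π * n * x) : ℂ)) =
      ∫ x in (0 : ℝ)..1, (Real.sin (2 * π * n * x) : ℂ) * Fxx x y := by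
    congr 1
    ext x
    ring
  have e4 : (∫ x in (0 : ℝ)..1, (2 * π * n : ℂ) * (Real.cos (2 * π * n * x) : ℂ) * Fx x y) =
      (2 * π * n : ℂ) * ∫ x in (0 : ℝ)..1, (Real.cos (2 * π * n * x) : ℂ) * Fx x y := by
    rw [← intervalIntegral.integral_const_mul]
    congr 1
    ext x
    ring
  have e5 : (∫ x in (0 : ℝ)..1, -(2 * π * n : ℂ) * (Real.sin (2 * π * n * x) : ℂ) *
      F (x + y * Complex.I)) = -(2 * π * n : ℂ) * ∫ x in (0 : ℝ)..1, F (x + y * Complex.I) *
        (Real.sin (2 * π * n * x) : ℂ) := by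
    rw [← intervalIntegral.integral_const_mul]
    congr 1
    ext x
    ring
  rw [e3, e1, e4, e2, e5]
  ring

theorem fc_sol {F : ℂ → ℂ} {ν : ℂ} {Fx Fy Fxx Fyy : ℝ → ℝ → ℂ} (hR : Reg F Fx Fy Fxx Fyy)
    (hper : ∀ z : ℂ, 0 < z.im → F (z + 1) = F z)
    (hΔ : ∀ x y : ℝ, 0 < y → (y : ℂ) ^ 2 * (Fxx x y + Fyy x y) =
      (ν ^ 2 - 1 / 4) * F (x + y * Complex.I)) (n : ℕ) :
    ∃ g' : ℝ → ℂ, Sol (pot ν (2 * π * n)) (fc F n) g' := by
  have csin : Continuous (fun x : ℝ => (Real.sin (2 * π * n * x) : ℂ)) :=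
    Complex.continuous_ofReal.comp (by fun_prop)
  refine ⟨fun y => 2 * ∫ x in (0 : ℝ)..1, Fy x y * (Real.sin (2 * π * n * x) : ℂ), ?_, ?_⟩
  · intro y hy
    exact (deriv_int (g := fun x y => F (x + y * Complex.I)) hR.dy hR.c0 hR.cy csin hy).const_mul 2
  · intro y hy
    have h1 := (deriv_int hR.dyy hR.cy hR.cyy csin hy).const_mul 2
    refine h1.congr_deriv ?_
    have hyc : (y : ℂ) ≠ 0 := by exact_mod_cast hy.ne'
    have h2 : ∀ x : ℝ, Fyy x y * (Real.sin (2 * π * n * x) : ℂ) =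
        ((ν ^ 2 - 1 / 4) / (y : ℂ) ^ 2) * (F (x + y * Complex.I) *
          (Real.sin (2 * π * n * x) : ℂ)) - Fxx x y * (Real.sin (2 * π * n * x) : ℂ) := by
      intro x
      have h3 := hΔ x y hy
      have h4 : Fyy x y = ((ν ^ 2 - 1 / 4) / (y : ℂ) ^ 2) * F (x + y * Complex.I) - Fxx x y := by
        rw [eq_sub_iff_add_eq, div_mul_eq_mul_div, eq_div_iff (pow_ne_zero 2 hyc)]
        linear_combination h3
      rw [h4]
      ring
    simp_rw [h2]
    have cF : Continuous (fun x : ℝ => F (x + y * Complex.I)) :=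
      slice_continuous (g := fun x y => F (x + y * Complex.I)) hR.c0 hy
    have i1 : IntervalIntegrable (fun x : ℝ => ((ν ^ 2 - 1 / 4) / (y : ℂ) ^ 2) *
        (F (x + y * Complex.I) * (Real.sin (2 * π * n * x) : ℂ))) volume 0 1 :=
      ((cF.mul csin).const_mul _).intervalIntegrable _ _
    have i2 : IntervalIntegrable (fun x : ℝ => Fxx x y * (Real.sin (2 * π * n * x) : ℂ))
        volume 0 1 := ((slice_continuous hR.cxx hy).mul csin).intervalIntegrable _ _
    rw [intervalIntegral.integral_sub i1 i2, intervalIntegral.integral_const_mul,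
      int_xx hR hper n hy, pot, fc]
    push_cast
    ring

theorem fc_bound {F : ℂ → ℂ} {M : ℝ} (hM : ∀ z : ℂ, 0 < z.im → ‖F z‖ ≤ M) (n : ℕ) {y : ℝ}
    (hy : 0 < y) : ‖fc F n y‖ ≤ 2 * M := by
  unfold fc
  rw [norm_mul]
  have h1 : ‖∫ x in (0 : ℝ)..1, F (x + y * Complex.I) * (Real.sin (2 * π * n * x) : ℂ)‖ ≤
      M * |1 - 0| := by
    refine intervalIntegral.norm_integral_le_of_norm_le_const (fun x _ => ?_)
    rw [norm_mul]
    have h2 := hM (x + y * Complex.I) (by simpa using hy)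
    calc ‖F (x + y * Complex.I)‖ * ‖((Real.sin (2 * π * n * x) : ℝ) : ℂ)‖
        ≤ ‖F (x + y * Complex.I)‖ * 1 :=
          mul_le_mul_of_nonneg_left (norm_sin_le _) (norm_nonneg _)
      _ ≤ M := by rw [mul_one]; exact h2
  have h3 : ‖(2 : ℂ)‖ = 2 := by norm_num
  rw [h3]
  have h4 : |(1 : ℝ) - 0| = 1 := by norm_num
  rw [h4, mul_one] at h1
  linarith

/-- the coefficients: `fc F n y = a n * W ν (2πn) y`, and they are `O(√n)` -/
theorem exists_coeff {F : ℂ → ℂ} {ν : ℂ} {Fx Fy Fxx Fyy : ℝ → ℝ → ℂ} {M : ℝ}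
    (hR : Reg F Fx Fy Fxx Fyy)
    (hper : ∀ z : ℂ, 0 < z.im → F (z + 1) = F z)
    (hΔ : ∀ x y : ℝ, 0 < y → (y : ℂ) ^ 2 * (Fxx x y + Fyy x y) =
      (ν ^ 2 - 1 / 4) * F (x + y * Complex.I))
    (hM : ∀ z : ℂ, 0 < z.im → ‖F z‖ ≤ M) :
    ∃ (a : ℕ → ℂ) (B : ℝ), a 0 = 0 ∧ 0 ≤ B ∧ (∀ n, ‖a n‖ ≤ B * (n : ℝ) ^ (1 / 2 : ℝ)) ∧
      ∀ n y, 0 < y → fc F n y = a n * W ν (2 * π * n) y := by
  have hM0 : 0 ≤ M := (norm_nonneg _).trans (hM Complex.I (by simp))
  have h1 : ∀ n : ℕ, ∃ c : ℂ, (n = 0 → c = 0) ∧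
      ∀ y, 0 < y → fc F n y = c * W ν (2 * π * n) y := by
    intro n
    rcases Nat.eq_zero_or_pos n with hn | hn
    · subst hn
      refine ⟨0, fun _ => rfl, fun y _ => ?_⟩
      unfold fc
      simp
    · have hn1 : (0 : ℝ) < n := by exact_mod_cast hn
      have hκ : 0 < 2 * π * n := by positivity
      obtain ⟨g', hg⟩ := fc_sol hR hper hΔ n
      obtain ⟨c, hc⟩ := W_unique_poly ν hκ hg (C := 2 * M) 0 (fun y hy => by
        rw [pow_zero, mul_one]
        exact fc_bound hM n (by linarith))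
      exact ⟨c, fun h => absurd h hn.ne', hc⟩
  choose a ha0 ha using h1
  obtain ⟨κ, hκ, hK⟩ := exists_K_ne_zero ν
  have hK0 : 0 < ‖K ν κ‖ := norm_pos_iff.2 hK
  refine ⟨a, 2 * M / (Real.sqrt (κ / (2 * π)) * ‖K ν κ‖), ha0 0 rfl, by positivity, ?_, ha⟩
  intro n
  rcases Nat.eq_zero_or_pos n with hn | hn
  · rw [hn, ha0 0 rfl, norm_zero]
    have : (0 : ℝ) ≤ ((0 : ℕ) : ℝ) ^ (1 / 2 : ℝ) := Real.rpow_nonneg (by simp) _
    positivity
  · have hn1 : (0 : ℝ) < n := by exact_mod_cast hn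
    have hy : 0 < κ / (2 * π * n) := by positivity
    have h2 := fc_bound hM n hy
    rw [ha n _ hy, norm_mul] at h2
    have h3 : 2 * π * n * (κ / (2 * π * n)) = κ := by
      field_simp
    unfold W at h2
    rw [h3, norm_mul, Complex.norm_real, Real.norm_eq_abs, abs_of_nonneg (Real.sqrt_nonneg _)] at h2
    have h4 : Real.sqrt (κ / (2 * π * n)) = Real.sqrt (κ / (2 * π)) / Real.sqrt n := by
      rw [← Real.sqrt_div' _ hn1.le]
      congr 1
      field_simp
    rw [h4] at h2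
    have hs : 0 < Real.sqrt n := Real.sqrt_pos.2 hn1
    have hs2 : 0 < Real.sqrt (κ / (2 * π)) := Real.sqrt_pos.2 (by positivity)
    rw [← Real.sqrt_eq_rpow, div_mul_eq_mul_div, le_div_iff₀ (by positivity)]
    have h5 : ‖a n‖ * (Real.sqrt (κ / (2 * π)) / Real.sqrt n * ‖K ν κ‖) * Real.sqrt n ≤
        2 * M * Real.sqrt n := mul_le_mul_of_nonneg_right h2 hs.le
    calc ‖a n‖ * (Real.sqrt (κ / (2 * π)) * ‖K ν κ‖) =
        ‖a n‖ * (Real.sqrt (κ / (2 * π)) / Real.sqrt n * ‖K ν κ‖) * Real.sqrt n := by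
          field_simp
      _ ≤ _ := h5

theorem fourierCoeff_odd {F : ℂ → ℂ} (f : C(AddCircle (1 : ℝ), ℂ)) {y : ℝ} (hy : 0 < y)
    (hc : Continuous (fun x : ℝ => F (x + y * Complex.I)))
    (hf : ∀ x : ℝ, f x = F (x + y * Complex.I))
    (hper : ∀ z : ℂ, 0 < z.im → F (z + 1) = F z)
    (hodd : ∀ x : ℝ, F (((-x : ℝ) : ℂ) + y * Complex.I) = -F (x + y * Complex.I)) (n : ℤ) :
    fourierCoeff f n = -Complex.I * ∫ x in (0 : ℝ)..1, F (x + y * Complex.I) *
      (Real.sin (2 * π * n * x) : ℂ) := by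
  rw [fourierCoeff_eq_intervalIntegral f n 0, zero_add, one_div, inv_one, one_smul]
  have h1 : ∀ x : ℝ, (@fourier 1 (-n) (x : AddCircle (1 : ℝ)) : ℂ) • f x =
      F (x + y * Complex.I) * (Real.cos (2 * π * n * x) : ℂ) -
        Complex.I * (F (x + y * Complex.I) * (Real.sin (2 * π * n * x) : ℂ)) := by
    intro x
    rw [fourier_coe_apply, hf, smul_eq_mul]
    have h2 : 2 * (π : ℂ) * Complex.I * ((-n : ℤ) : ℂ) * (x : ℂ) / ((1 : ℝ) : ℂ) =
        ((-(2 * π * n * x) : ℝ) : ℂ) * Complex.I := by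
      push_cast
      ring
    rw [h2, Complex.exp_mul_I, ← Complex.ofReal_cos, ← Complex.ofReal_sin, Real.cos_neg,
      Real.sin_neg]
    push_cast
    ring
  simp_rw [h1]
  have ccos : Continuous (fun x : ℝ => (Real.cos (2 * π * n * x) : ℂ)) :=
    Complex.continuous_ofReal.comp (by fun_prop)
  have csin : Continuous (fun x : ℝ => (Real.sin (2 * π * n * x) : ℂ)) :=
    Complex.continuous_ofReal.comp (by fun_prop)
  have i1 : IntervalIntegrable (fun x : ℝ => F (x + y * Complex.I) *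
      (Real.cos (2 * π * n * x) : ℂ)) volume 0 1 := (hc.mul ccos).intervalIntegrable _ _
  have i2 : IntervalIntegrable (fun x : ℝ => Complex.I * (F (x + y * Complex.I) *
      (Real.sin (2 * π * n * x) : ℂ))) volume 0 1 :=
    ((hc.mul csin).const_mul _).intervalIntegrable _ _
  rw [intervalIntegral.integral_sub i1 i2, intervalIntegral.integral_const_mul]
  have h3 : (∫ x in (0 : ℝ)..1, F (x + y * Complex.I) * (Real.cos (2 * π * n * x) : ℂ)) = 0 := by
    have h4 : (∫ x in (0 : ℝ)..1, F (((1 - x : ℝ) : ℂ) + y * Complex.I) *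
        (Real.cos (2 * π * n * (1 - x)) : ℂ)) =
        ∫ x in (0 : ℝ)..1, F (x + y * Complex.I) * (Real.cos (2 * π * n * x) : ℂ) := by
      have := intervalIntegral.integral_comp_sub_left (a := 0) (b := 1)
        (fun x : ℝ => F (x + y * Complex.I) * (Real.cos (2 * π * n * x) : ℂ)) 1
      rw [this, sub_self, sub_zero]
    have h5 : ∀ x : ℝ, F (((1 - x : ℝ) : ℂ) + y * Complex.I) *
        (Real.cos (2 * π * n * (1 - x)) : ℂ) =
        -(F (x + y * Complex.I) * (Real.cos (2 * π * n * x) : ℂ)) := by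
      intro x
      have h6 : Real.cos (2 * π * n * (1 - x)) = Real.cos (2 * π * n * x) := by
        have : 2 * π * n * (1 - x) = n * (2 * π) - 2 * π * n * x := by ring
        rw [this, Real.cos_int_mul_two_pi_sub]
      have h7 : F (((1 - x : ℝ) : ℂ) + y * Complex.I) = F (((-x : ℝ) : ℂ) + y * Complex.I) := by
        have := hper (((-x : ℝ) : ℂ) + y * Complex.I) (by simpa using hy)
        rw [← this]
        congr 1
        push_cast
        ring
      rw [h6, h7, hodd]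
      ring
    simp_rw [h5] at h4
    rw [intervalIntegral.integral_neg] at h4
    have h8 : (2 : ℂ) * (∫ x in (0 : ℝ)..1, F (x + y * Complex.I) *
        (Real.cos (2 * π * n * x) : ℂ)) = 0 := by linear_combination -h4
    rcases mul_eq_zero.1 h8 with h | h
    · norm_num at h
    · exact h
  rw [h3]
  ring

/-- the Fourier expansion -/
theorem expand_of_coeff {F : ℂ → ℂ} {ν : ℂ} {a : ℕ → ℂ} {B A : ℝ}
    (hc : ContinuousOn (fun p : ℝ × ℝ => F (p.1 + p.2 * Complex.I)) {p | 0 < p.2})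
    (hper : ∀ z : ℂ, 0 < z.im → F (z + 1) = F z)
    (hodd : ∀ x y : ℝ, 0 < y → F (((-x : ℝ) : ℂ) + y * Complex.I) = -F (x + y * Complex.I))
    (ha0 : a 0 = 0) (hB : 0 ≤ B) (ha : ∀ n, ‖a n‖ ≤ B * (n : ℝ) ^ A)
    (hfc : ∀ n y, 0 < y → fc F n y = a n * W ν (2 * π * n) y) : Expand F a ν := by
  intro x y hy
  have hcx : Continuous (fun x : ℝ => F (x + y * Complex.I)) :=
    slice_continuous (g := fun x y => F (x + y * Complex.I)) hc hy
  have hp : Function.Periodic (fun x : ℝ => F (x + y * Complex.I)) 1 := by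
    intro x
    have := hper (x + y * Complex.I) (by simpa using hy)
    show F (((x + 1 : ℝ) : ℂ) + y * Complex.I) = F (x + y * Complex.I)
    rw [← this]
    congr 1
    push_cast
    ring
  let f : C(AddCircle (1 : ℝ), ℂ) := ⟨hp.lift, continuous_coinduced_dom.mpr hcx⟩
  have hf : ∀ x : ℝ, f x = F (x + y * Complex.I) := fun x => rfl
  have hco := fourierCoeff_odd f hy hcx hf hper (fun x => hodd x y hy)
  have hnat : ∀ n : ℕ, fourierCoeff f (n : ℤ) = -Complex.I / 2 * (a n * W ν (2 * π * n) y) := by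
    intro n
    rw [hco, ← hfc n y hy, fc]
    push_cast
    ring
  have hneg : ∀ n : ℕ, fourierCoeff f (-(n : ℤ)) = Complex.I / 2 * (a n * W ν (2 * π * n) y) := by
    intro n
    rw [hco, ← hfc n y hy, fc]
    have h1 : ∀ x : ℝ, F (x + y * Complex.I) * (Real.sin (2 * π * ((-(n : ℤ) : ℤ) : ℝ) * x) : ℂ) =
        -(F (x + y * Complex.I) * (Real.sin (2 * π * n * x) : ℂ)) := by
      intro x
      have : 2 * π * ((-(n : ℤ) : ℤ) : ℝ) * x = -(2 * π * n * x) := by push_cast; ring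
      rw [this, Real.sin_neg]
      push_cast
      ring
    simp_rw [h1]
    rw [intervalIntegral.integral_neg]
    ring
  have hs0 : Summable (fun n : ℕ => a n * W ν (2 * π * n) y) := by
    have := FF_summable (ν := ν) (δ := 0) ha0 hB ha hy
    simpa using this
  have hsum : Summable (fourierCoeff f) := by
    apply Summable.of_nat_of_neg
    · simp_rw [hnat]
      exact hs0.mul_left _
    · simp_rw [hneg]
      exact hs0.mul_left _
  have key := (has_pointwise_sum_fourier_series_of_summable hsum (x : AddCircle (1 : ℝ))).nat_add_neg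
  rw [hf] at key
  have h0 : fourierCoeff f 0 = 0 := by
    have := hnat 0
    rw [ha0] at this
    simpa using this
  rw [h0, zero_smul, add_zero] at key
  rw [← key.tsum_eq]
  congr 1
  ext n
  have hn : fourierCoeff f (n : ℤ) • (fourier (n : ℤ) (x : AddCircle (1 : ℝ)) : ℂ) +
      fourierCoeff f (-(n : ℤ)) • (fourier (-(n : ℤ)) (x : AddCircle (1 : ℝ)) : ℂ) =
      a n * W ν (2 * π * n) y * (Real.sin (2 * π * n * x) : ℂ) := by
    rw [hnat, hneg, fourier_coe_apply, fourier_coe_apply, smul_eq_mul, smul_eq_mul]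
    have e1 : 2 * (π : ℂ) * Complex.I * ((n : ℤ) : ℂ) * (x : ℂ) / ((1 : ℝ) : ℂ) =
        ((2 * π * n * x : ℝ) : ℂ) * Complex.I := by
      push_cast
      ring
    have e2 : 2 * (π : ℂ) * Complex.I * ((-(n : ℤ) : ℤ) : ℂ) * (x : ℂ) / ((1 : ℝ) : ℂ) =
        ((-(2 * π * n * x) : ℝ) : ℂ) * Complex.I := by
      push_cast
      ring
    rw [e1, e2, Complex.exp_mul_I, Complex.exp_mul_I, ← Complex.ofReal_cos, ← Complex.ofReal_sin,
      ← Complex.ofReal_cos, ← Complex.ofReal_sin, Real.cos_neg, Real.sin_neg]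
    have hI := Complex.I_sq
    push_cast
    linear_combination (-(a n * W ν (2 * π * n) y * Complex.sin (2 * π * n * x))) * hI
  exact hn

end Pool.Agent.K4H93.KB
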