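import Pool.Agent.K4H93.KB.Fourier

/-! # Hecke relations for the Fourier coefficients -/

set_option autoImplicit false

namespace Pool.Agent.K4H93.KB

open MeasureTheory Real Set Filter Topology Asymptotics

theorem fc_down {F : ℂ → ℂ}
    (hc : ContinuousOn (fun p : ℝ × ℝ => F (p.1 + p.2 * Complex.I)) {p | 0 < p.2})
    {p : ℕ} (hp : 0 < p) (n : ℕ) {y : ℝ} (hy : 0 < y) :
    fc (fun z => ∑ j ∈ Finset.range p, F ((z + j) / p)) n y = p * fc F (p * n) (y / p) := by
  have hpr : (0 : ℝ) < p := by exact_mod_cast hp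
  have hpc : (p : ℂ) ≠ 0 := by exact_mod_cast hpr.ne'
  have hyp : 0 < y / p := by positivity
  unfold fc
  set φ : ℝ → ℂ := fun t => F (((t / p : ℝ) : ℂ) + ((y / p : ℝ) : ℂ) * Complex.I) *
    (Real.sin (2 * π * n * t) : ℂ) with hφ
  have hφc : Continuous φ := by
    have h1 : Continuous (fun x : ℝ => F (x + ((y / p : ℝ) : ℂ) * Complex.I)) :=
      slice_continuous (g := fun x y => F (x + y * Complex.I)) hc hyp
    have h2 : Continuous (fun t : ℝ => t / (p : ℝ)) := by fun_prop
    have h3 : Continuous (fun x : ℝ => (Real.sin (2 * π * n * x) : ℂ)) :=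
      Complex.continuous_ofReal.comp (by fun_prop)
    exact (h1.comp h2).mul h3
  have h1 : ∀ x : ℝ, (∑ j ∈ Finset.range p, F (((x : ℂ) + y * Complex.I + j) / p)) *
      (Real.sin (2 * π * n * x) : ℂ) = ∑ j ∈ Finset.range p, φ (x + j) := by
    intro x
    rw [Finset.sum_mul]
    refine Finset.sum_congr rfl (fun j _ => ?_)
    simp only [hφ]
    have h2 : Real.sin (2 * π * n * (x + j)) = Real.sin (2 * π * n * x) := by
      have : 2 * π * n * (x + j) = 2 * π * n * x + ((n * j : ℕ) : ℝ) * (2 * π) := by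
        push_cast; ring
      rw [this, Real.sin_add_nat_mul_two_pi]
    rw [h2]
    congr 2
    push_cast
    ring
  simp_rw [h1]
  have h2 : (∫ x in (0 : ℝ)..1, ∑ j ∈ Finset.range p, φ (x + j)) = ∫ x in (0 : ℝ)..p, φ x := by
    have hi : ∀ j ∈ Finset.range p, IntervalIntegrable (fun x : ℝ => φ (x + j)) volume 0 1 := by
      intro j _
      have : Continuous (fun x : ℝ => x + (j : ℝ)) := by fun_prop
      exact (hφc.comp this).intervalIntegrable _ _
    rw [intervalIntegral.integral_finsetSum hi]
    have h3 : ∀ j ∈ Finset.range p, (∫ x in (0 : ℝ)..1, φ (x + j)) =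
        ∫ x in ((j : ℕ) : ℝ)..((j + 1 : ℕ) : ℝ), φ x := by
      intro j _
      rw [intervalIntegral.integral_comp_add_right φ (j : ℝ)]
      congr 1
      · ring
      · push_cast; ring
    rw [Finset.sum_congr rfl h3, intervalIntegral.sum_integral_adjacent_intervals
      (a := fun j : ℕ => (j : ℝ)) (fun k _ => hφc.intervalIntegrable _ _)]
    simp
  rw [h2]
  have h4 := intervalIntegral.integral_comp_mul_left (a := 0) (b := 1) φ hpr.ne'
  rw [mul_zero, mul_one] at h4
  have h5 : ∀ x : ℝ, φ ((p : ℝ) * x) = F ((x : ℂ) + ((y / p : ℝ) : ℂ) * Complex.I) *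
      (Real.sin (2 * π * ((p * n : ℕ) : ℝ) * x) : ℂ) := by
    intro x
    simp only [hφ]
    congr 2
    · congr 3
      field_simp
    · congr 1
      push_cast
      ring
  simp_rw [h5] at h4
  rw [h4, Complex.real_smul]
  push_cast
  field_simp

theorem fc_up {F : ℂ → ℂ}
    (hc : ContinuousOn (fun p : ℝ × ℝ => F (p.1 + p.2 * Complex.I)) {p | 0 < p.2})
    (hper : ∀ z : ℂ, 0 < z.im → F (z + 1) = F z)
    (hodd : ∀ x y : ℝ, 0 < y → F (((-x : ℝ) : ℂ) + y * Complex.I) = -F (x + y * Complex.I))
    {p : ℕ} (hp : 0 < p) (n : ℕ) {y : ℝ} (hy : 0 < y) :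
    fc (fun z => F (p * z)) n y = if p ∣ n then fc F (n / p) (p * y) else 0 := by
  have hpr : (0 : ℝ) < p := by exact_mod_cast hp
  have hpc : (p : ℂ) ≠ 0 := by exact_mod_cast hpr.ne'
  have hyp : 0 < p * y := by positivity
  have hcx : Continuous (fun x : ℝ => F (x + ((p * y : ℝ) : ℂ) * Complex.I)) :=
    slice_continuous (g := fun x y => F (x + y * Complex.I)) hc hyp
  have hperx : ∀ x : ℝ, F (((x + 1 : ℝ) : ℂ) + ((p * y : ℝ) : ℂ) * Complex.I) =
      F (x + ((p * y : ℝ) : ℂ) * Complex.I) := by
    intro x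
    have := hper (x + ((p * y : ℝ) : ℂ) * Complex.I) (by simpa using hyp)
    rw [← this]
    congr 1
    push_cast
    ring
  have harg : ∀ x : ℝ, (p : ℂ) * (x + y * Complex.I) =
      ((p * x : ℝ) : ℂ) + ((p * y : ℝ) : ℂ) * Complex.I := by
    intro x
    push_cast
    ring
  unfold fc
  simp_rw [harg]
  split_ifs with hpn
  · obtain ⟨m, rfl⟩ := hpn
    rw [Nat.mul_div_cancel_left m hp]
    congr 1
    set ψ : ℝ → ℂ := fun t => F (t + ((p * y : ℝ) : ℂ) * Complex.I) *
      (Real.sin (2 * π * m * t) : ℂ) with hψ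
    have h3 : Continuous (fun x : ℝ => (Real.sin (2 * π * m * x) : ℂ)) :=
      Complex.continuous_ofReal.comp (by fun_prop)
    have hψc : Continuous ψ := hcx.mul h3
    have hψp : Function.Periodic ψ 1 := by
      intro t
      simp only [hψ]
      rw [hperx]
      congr 2
      have : 2 * π * m * (t + 1) = 2 * π * m * t + (m : ℕ) * (2 * π) := by ring
      rw [this, Real.sin_add_nat_mul_two_pi]
    have h4 := intervalIntegral.integral_comp_mul_left (a := 0) (b := 1) ψ hpr.ne'
    rw [mul_zero, mul_one] at h4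
    have h5 := hψp.intervalIntegral_add_zsmul_eq (p : ℤ) 0 (fun _ _ => hψc.intervalIntegrable _ _)
    have h6 : (0 : ℝ) + (p : ℤ) • (1 : ℝ) = p := by simp
    rw [h6, zero_add] at h5
    have h7 : ∀ x : ℝ, F (((p * x : ℝ) : ℂ) + ((p * y : ℝ) : ℂ) * Complex.I) *
        (Real.sin (2 * π * ((p * m : ℕ) : ℝ) * x) : ℂ) = ψ (p * x) := by
      intro x
      simp only [hψ]
      congr 3
      push_cast
      ring
    simp_rw [h7]
    rw [h4, h5]
    rw [Complex.real_smul]
    simp only [zsmul_eq_mul, Int.cast_natCast, Complex.ofReal_inv, Complex.ofReal_natCast]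
    rw [← mul_assoc, inv_mul_cancel₀ hpc, one_mul]
  · -- the function `x ↦ F(px + ipy)` has period `1/p`
    set G : ℝ → ℂ := fun x => F (((p * x : ℝ) : ℂ) + ((p * y : ℝ) : ℂ) * Complex.I) with hG
    have hGc : Continuous G := by
      have h2 : Continuous (fun t : ℝ => (p : ℝ) * t) := by fun_prop
      exact hcx.comp h2
    have hGp : ∀ x, G (x + 1 / p) = G x := by
      intro x
      simp only [hG]
      have : (p : ℝ) * (x + 1 / p) = p * x + 1 := by field_simp
      rw [this]
      exact hperx (p * x)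
    have hG1 : ∀ x, G (x + 1) = G x := by
      intro x
      have h1 : ∀ k : ℕ, G (x + k / p) = G x := by
        intro k
        induction k with
        | zero => simp
        | succ k ih =>
          have : x + ((k + 1 : ℕ) : ℝ) / p = (x + k / p) + 1 / p := by push_cast; ring
          rw [this, hGp, ih]
      have := h1 p
      rwa [div_self hpr.ne'] at this
    have hGodd : ∀ x, G (-x) = -G x := by
      intro x
      simp only [hG]
      have := hodd (p * x) (p * y) hyp
      rw [← this]
      congr 2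
      push_cast
      ring
    set Is : ℂ := ∫ x in (0 : ℝ)..1, G x * (Real.sin (2 * π * n * x) : ℂ) with hIs
    set Ic : ℂ := ∫ x in (0 : ℝ)..1, G x * (Real.cos (2 * π * n * x) : ℂ) with hIc
    have ccos : Continuous (fun x : ℝ => (Real.cos (2 * π * n * x) : ℂ)) :=
      Complex.continuous_ofReal.comp (by fun_prop)
    have csin : Continuous (fun x : ℝ => (Real.sin (2 * π * n * x) : ℂ)) :=
      Complex.continuous_ofReal.comp (by fun_prop)
    have hIc0 : Ic = 0 := by
      have h4 : (∫ x in (0 : ℝ)..1, G (1 - x) * (Real.cos (2 * π * n * (1 - x)) : ℂ)) = Ic := by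
        have := intervalIntegral.integral_comp_sub_left (a := 0) (b := 1)
          (fun x : ℝ => G x * (Real.cos (2 * π * n * x) : ℂ)) 1
        rw [this, sub_self, sub_zero]
      have h5 : ∀ x : ℝ, G (1 - x) * (Real.cos (2 * π * n * (1 - x)) : ℂ) =
          -(G x * (Real.cos (2 * π * n * x) : ℂ)) := by
        intro x
        have h6 : Real.cos (2 * π * n * (1 - x)) = Real.cos (2 * π * n * x) := by
          have : 2 * π * n * (1 - x) = n * (2 * π) - 2 * π * n * x := by ring
          rw [this, Real.cos_nat_mul_two_pi_sub]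
        have h7 : G (1 - x) = -G x := by
          have : (1 : ℝ) - x = -x + 1 := by ring
          rw [this, hG1, hGodd]
        rw [h6, h7]
        ring
      simp_rw [h5] at h4
      rw [intervalIntegral.integral_neg] at h4
      have h8 : (2 : ℂ) * Ic = 0 := by linear_combination -h4
      rcases mul_eq_zero.1 h8 with h | h
      · norm_num at h
      · exact h
    have hshift : Is = Is * (Real.cos (2 * π * n * (1 / p)) : ℂ) +
        Ic * (Real.sin (2 * π * n * (1 / p)) : ℂ) := by
      set ψ : ℝ → ℂ := fun x => G x * (Real.sin (2 * π * n * x) : ℂ) with hψ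
      have hψp : Function.Periodic ψ 1 := by
        intro t
        simp only [hψ]
        rw [hG1]
        congr 2
        have : 2 * π * n * (t + 1) = 2 * π * n * t + (n : ℕ) * (2 * π) := by ring
        rw [this, Real.sin_add_nat_mul_two_pi]
      have h9 : (∫ x in (0 : ℝ)..1, ψ (x + 1 / p)) = Is := by
        rw [intervalIntegral.integral_comp_add_right ψ (1 / (p : ℝ)), zero_add,
          add_comm (1 : ℝ) (1 / (p : ℝ)), hψp.intervalIntegral_add_eq (1 / (p : ℝ)) 0, zero_add]
      have h10 : ∀ x : ℝ, ψ (x + 1 / p) =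
          (G x * (Real.sin (2 * π * n * x) : ℂ)) * (Real.cos (2 * π * n * (1 / p)) : ℂ) +
          (G x * (Real.cos (2 * π * n * x) : ℂ)) * (Real.sin (2 * π * n * (1 / p)) : ℂ) := by
        intro x
        simp only [hψ]
        rw [hGp]
        have : 2 * π * n * (x + 1 / p) = 2 * π * n * x + 2 * π * n * (1 / p) := by ring
        rw [this, Real.sin_add]
        push_cast
        ring
      simp_rw [h10] at h9
      have i1 : IntervalIntegrable (fun x : ℝ => (G x * (Real.sin (2 * π * n * x) : ℂ)) *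
          (Real.cos (2 * π * n * (1 / p)) : ℂ)) volume 0 1 :=
        ((hGc.mul csin).mul continuous_const).intervalIntegrable _ _
      have i2 : IntervalIntegrable (fun x : ℝ => (G x * (Real.cos (2 * π * n * x) : ℂ)) *
          (Real.sin (2 * π * n * (1 / p)) : ℂ)) volume 0 1 :=
        ((hGc.mul ccos).mul continuous_const).intervalIntegrable _ _
      rw [intervalIntegral.integral_add i1 i2,
        intervalIntegral.integral_mul_const, intervalIntegral.integral_mul_const] at h9
      exact h9.symm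
    have hcos : Real.cos (2 * π * n * (1 / p)) ≠ 1 := by
      intro h
      rw [Real.cos_eq_one_iff] at h
      obtain ⟨k, hk⟩ := h
      apply hpn
      have hpi := Real.pi_pos
      have h11 : (k : ℝ) * p = n := by
        have : (k : ℝ) * (2 * π) * p = 2 * π * n := by
          rw [hk]
          field_simp
        have h2pi : (2 * π) ≠ 0 := by positivity
        apply mul_left_cancel₀ h2pi
        linarith
      have h12 : k * (p : ℤ) = (n : ℤ) := by exact_mod_cast h11
      exact_mod_cast (Dvd.intro_left k h12 : (p : ℤ) ∣ (n : ℤ))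
    rw [hIc0, zero_mul, add_zero] at hshift
    have h13 : Is * (1 - (Real.cos (2 * π * n * (1 / p)) : ℂ)) = 0 := by
      linear_combination hshift
    have h14 : Is = 0 := by
      rcases mul_eq_zero.1 h13 with h | h
      · exact h
      · exfalso
        apply hcos
        have := sub_eq_zero.1 h
        exact_mod_cast this.symm
    rw [h14, mul_zero]

/-- `F` is an eigenfunction of the Hecke operator `T_p` with eigenvalue `l` (normalised by
`p^(-1/2)`) -/
def HeckeEigen (F : ℂ → ℂ) (p : ℕ) (l : ℂ) : Prop := ∀ z : ℂ, 0 < z.im →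
  F (p * z) + ∑ j ∈ Finset.range p, F ((z + j) / p) = (Real.sqrt p : ℂ) * l * F z

theorem W_scale (ν : ℂ) {c κ y : ℝ} (hc : 0 < c) :
    W ν (c * κ) (y / c) = W ν κ y / (Real.sqrt c : ℂ) := by
  unfold W
  rw [Real.sqrt_div' _ hc.le]
  have : c * κ * (y / c) = κ * y := by field_simp
  rw [this]
  push_cast
  ring

theorem W_scale' (ν : ℂ) {c κ y : ℝ} (hc : 0 < c) :
    W ν (κ / c) (c * y) = (Real.sqrt c : ℂ) * W ν κ y := by
  unfold W
  rw [Real.sqrt_mul hc.le]
  have : κ / c * (c * y) = κ * y := by field_simp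
  rw [this]
  push_cast
  ring

theorem exists_W_ne_zero (ν : ℂ) {κ : ℝ} (hκ : 0 < κ) : ∃ y, 0 < y ∧ W ν κ y ≠ 0 := by
  obtain ⟨t, ht, hK⟩ := exists_K_ne_zero ν
  refine ⟨t / κ, by positivity, ?_⟩
  unfold W
  have : κ * (t / κ) = t := by field_simp
  rw [this]
  refine mul_ne_zero ?_ hK
  exact_mod_cast (Real.sqrt_pos.2 (by positivity : 0 < t / κ)).ne'

/-- the Hecke relations -/
theorem hecke_rel {F : ℂ → ℂ} {ν : ℂ} {a : ℕ → ℂ}
    (hc : ContinuousOn (fun p : ℝ × ℝ => F (p.1 + p.2 * Complex.I)) {p | 0 < p.2})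
    (hper : ∀ z : ℂ, 0 < z.im → F (z + 1) = F z)
    (hodd : ∀ x y : ℝ, 0 < y → F (((-x : ℝ) : ℂ) + y * Complex.I) = -F (x + y * Complex.I))
    (ha0 : a 0 = 0)
    (hfc : ∀ n y, 0 < y → fc F n y = a n * W ν (2 * π * n) y)
    {p : ℕ} (hp : 0 < p) {l : ℂ} (hl : HeckeEigen F p l) (n : ℕ) :
    a (p * n) + (if p ∣ n then a (n / p) else 0) = l * a n := by
  rcases Nat.eq_zero_or_pos n with hn | hn
  · subst hn
    simp [ha0]
  have hn1 : (0 : ℝ) < n := by exact_mod_cast hn
  have hpr : (0 : ℝ) < p := by exact_mod_cast hp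
  have hpc : (p : ℂ) ≠ 0 := by exact_mod_cast hpr.ne'
  have hsp : 0 < Real.sqrt p := Real.sqrt_pos.2 hpr
  have hspc : (Real.sqrt p : ℂ) ≠ 0 := by exact_mod_cast hsp.ne'
  have hsq : (Real.sqrt p : ℂ) * (Real.sqrt p : ℂ) = p := by
    rw [← Complex.ofReal_mul, Real.mul_self_sqrt hpr.le]
    simp
  obtain ⟨y, hy, hW⟩ := exists_W_ne_zero ν (κ := 2 * π * n) (by positivity)
  have hyp : 0 < p * y := by positivity
  have hyp' : 0 < y / p := by positivity
  -- the coefficient of the sum
  have hcx1 : Continuous (fun x : ℝ => F (p * (x + y * Complex.I))) := by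
    have h1 : Continuous (fun x : ℝ => F (x + ((p * y : ℝ) : ℂ) * Complex.I)) :=
      slice_continuous (g := fun x y => F (x + y * Complex.I)) hc hyp
    have h2 : Continuous (fun t : ℝ => (p : ℝ) * t) := by fun_prop
    refine (h1.comp h2).congr (fun x => ?_)
    simp only [Function.comp]
    congr 1
    push_cast
    ring
  have hcx2 : Continuous (fun x : ℝ => ∑ j ∈ Finset.range p, F ((x + y * Complex.I + j) / p)) := by
    refine continuous_finsetSum _ (fun j _ => ?_)
    have h1 : Continuous (fun x : ℝ => F (x + ((y / p : ℝ) : ℂ) * Complex.I)) :=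
      slice_continuous (g := fun x y => F (x + y * Complex.I)) hc hyp'
    have h2 : Continuous (fun t : ℝ => (t + j) / (p : ℝ)) := by fun_prop
    refine (h1.comp h2).congr (fun x => ?_)
    simp only [Function.comp]
    congr 1
    push_cast
    ring
  have csin : Continuous (fun x : ℝ => (Real.sin (2 * π * n * x) : ℂ)) :=
    Complex.continuous_ofReal.comp (by fun_prop)
  have h1 : fc (fun z => F (p * z)) n y + fc (fun z => ∑ j ∈ Finset.range p, F ((z + j) / p)) n y =
      (Real.sqrt p : ℂ) * l * fc F n y := by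
    unfold fc
    have i1 : IntervalIntegrable (fun x : ℝ => F (p * (x + y * Complex.I)) *
        (Real.sin (2 * π * n * x) : ℂ)) volume 0 1 := (hcx1.mul csin).intervalIntegrable _ _
    have i2 : IntervalIntegrable (fun x : ℝ => (∑ j ∈ Finset.range p,
        F ((x + y * Complex.I + j) / p)) * (Real.sin (2 * π * n * x) : ℂ)) volume 0 1 :=
      (hcx2.mul csin).intervalIntegrable _ _
    rw [← mul_add, ← intervalIntegral.integral_add i1 i2]
    have h2 : ∀ x : ℝ, F (p * (x + y * Complex.I)) * (Real.sin (2 * π * n * x) : ℂ) +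
        (∑ j ∈ Finset.range p, F ((x + y * Complex.I + j) / p)) *
          (Real.sin (2 * π * n * x) : ℂ) = ((Real.sqrt p : ℂ) * l) *
          (F (x + y * Complex.I) * (Real.sin (2 * π * n * x) : ℂ)) := by
      intro x
      rw [← add_mul, hl (x + y * Complex.I) (by simpa using hy)]
      ring
    simp_rw [h2]
    rw [intervalIntegral.integral_const_mul]
    ring
  rw [fc_up hc hper hodd hp n hy, fc_down hc hp n hy, hfc n y hy, hfc _ _ hyp'] at h1
  have h3 : (2 * π * ((p * n : ℕ) : ℝ)) = p * (2 * π * n) := by push_cast; ring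
  rw [h3, W_scale ν hpr] at h1
  have h4 : (if p ∣ n then fc F (n / p) (p * y) else 0) =
      (Real.sqrt p : ℂ) * W ν (2 * π * n) y * (if p ∣ n then a (n / p) else 0) := by
    split_ifs with hpn
    · rw [hfc _ _ hyp]
      have h5 : (2 * π * ((n / p : ℕ) : ℝ)) = (2 * π * n) / p := by
        rw [Nat.cast_div hpn hpr.ne']
        ring
      rw [h5, W_scale' ν hpr]
      ring
    · ring
  rw [h4] at h1
  have h6 : (p : ℂ) * (a (p * n) * (W ν (2 * π * n) y / (Real.sqrt p : ℂ))) =
      (Real.sqrt p : ℂ) * W ν (2 * π * n) y * a (p * n) := by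
    rw [← hsq]
    field_simp
  rw [h6] at h1
  apply mul_left_cancel₀ (mul_ne_zero hspc hW)
  linear_combination h1

end Pool.Agent.K4H93.KB
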