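import Pool.Agent.K4H93.KB.Unique

/-! # Dirichlet series attached to Bessel expansions: continuation and central vanishing -/

namespace Pool.Agent.K4H93.KB

open MeasureTheory Real Set Filter Topology Asymptotics

/-- `F(y) = ∑ n^δ b(n) √y K ν (2 π n y)` -/
noncomputable def FF (b : ℕ → ℂ) (ν : ℂ) (δ : ℕ) (y : ℝ) : ℂ :=
  ∑' n : ℕ, ((n : ℂ) ^ δ * b n) * W ν (2 * π * n) y

theorem W_bound_unif (ν : ℂ) {y₀ : ℝ} (h0 : 0 < y₀) : ∃ C : ℝ, 0 ≤ C ∧ ∀ n : ℕ, 1 ≤ n →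
    ∀ y, y₀ ≤ y → ‖W ν (2 * π * n) y‖ ≤
      C * (Real.sqrt y * Real.exp (-(π * y))) * Real.exp (-(π * y₀) * n) := by
  obtain ⟨C, hC, h⟩ := norm_K_le ν (y₀ := 2 * π * y₀) (by positivity)
  refine ⟨C, hC, fun n hn y hy => ?_⟩
  have hn' : (1 : ℝ) ≤ n := by exact_mod_cast hn
  have hy0 : 0 < y := lt_of_lt_of_le h0 hy
  have hpi := Real.pi_pos
  have h1 : 2 * π * y₀ ≤ 2 * π * n * y := by
    have : y₀ ≤ n * y := by nlinarith
    nlinarith
  have h2 := h _ h1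
  unfold W
  rw [norm_mul, Complex.norm_real, Real.norm_eq_abs, abs_of_nonneg (Real.sqrt_nonneg y)]
  have h3 : Real.exp (-(2 * π * n * y)) ≤ Real.exp (-(π * y)) * Real.exp (-(π * y₀) * n) := by
    rw [← Real.exp_add]
    apply Real.exp_le_exp.2
    have e1 : π * y ≤ π * (n * y) := by
      apply mul_le_mul_of_nonneg_left _ hpi.le
      nlinarith
    have e2 : π * y₀ * n ≤ π * (n * y) := by
      have : y₀ * n ≤ n * y := by nlinarith
      nlinarith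
    nlinarith
  calc Real.sqrt y * ‖K ν (2 * π * n * y)‖ ≤ Real.sqrt y * (C * Real.exp (-(2 * π * n * y))) :=
        mul_le_mul_of_nonneg_left h2 (Real.sqrt_nonneg y)
    _ ≤ Real.sqrt y * (C * (Real.exp (-(π * y)) * Real.exp (-(π * y₀) * n))) := by
        apply mul_le_mul_of_nonneg_left _ (Real.sqrt_nonneg y)
        exact mul_le_mul_of_nonneg_left h3 hC
    _ = _ := by ring

theorem sqrt_mul_exp_le {y : ℝ} (hy : 0 < y) :
    Real.sqrt y * Real.exp (-(π * y)) ≤ Real.exp (-y) := by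
  have h1 : Real.sqrt y ≤ Real.exp y := by
    have e1 : Real.sqrt y ≤ y + 1 := by
      have := Real.sq_sqrt hy.le
      nlinarith [Real.sqrt_nonneg y, sq_nonneg (Real.sqrt y - 1)]
    exact e1.trans (Real.add_one_le_exp y)
  have hpi : 3 < π := Real.pi_gt_three
  calc Real.sqrt y * Real.exp (-(π * y)) ≤ Real.exp y * Real.exp (-(π * y)) :=
        mul_le_mul_of_nonneg_right h1 (Real.exp_pos _).le
    _ = Real.exp (y + -(π * y)) := by rw [Real.exp_add]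
    _ ≤ Real.exp (-y) := Real.exp_le_exp.2 (by nlinarith)

section

variable {b : ℕ → ℂ} {ν : ℂ} {δ : ℕ} {B A : ℝ}

theorem term_bound (hb0 : b 0 = 0) (hB : 0 ≤ B) (hb : ∀ n, ‖b n‖ ≤ B * (n : ℝ) ^ A)
    {y₀ : ℝ} (h0 : 0 < y₀) : ∃ C : ℝ, 0 ≤ C ∧ ∀ n : ℕ, ∀ y, y₀ ≤ y →
      ‖((n : ℂ) ^ δ * b n) * W ν (2 * π * n) y‖ ≤
        (C * Real.exp (-y)) * ((n : ℝ) ^ (δ + ⌈A⌉₊) * Real.exp (-(π * y₀) * n)) := by
  obtain ⟨C, hC, h⟩ := W_bound_unif ν h0
  refine ⟨B * C, by positivity, fun n y hy => ?_⟩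
  have hy0 : 0 < y := lt_of_lt_of_le h0 hy
  rcases Nat.eq_zero_or_pos n with hn | hn
  · rw [hn, hb0, mul_zero, zero_mul, norm_zero]
    positivity
  · have hn1 : (1 : ℝ) ≤ n := by exact_mod_cast hn
    have h1 := h n hn y hy
    have h2 : ‖(n : ℂ) ^ δ * b n‖ ≤ B * (n : ℝ) ^ (δ + ⌈A⌉₊) := by
      rw [norm_mul, norm_pow, Complex.norm_natCast, pow_add]
      have h3 : (n : ℝ) ^ A ≤ (n : ℝ) ^ ⌈A⌉₊ := by
        rw [← Real.rpow_natCast]
        exact Real.rpow_le_rpow_of_exponent_le hn1 (Nat.le_ceil A)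
      calc (n : ℝ) ^ δ * ‖b n‖ ≤ (n : ℝ) ^ δ * (B * (n : ℝ) ^ A) :=
            mul_le_mul_of_nonneg_left (hb n) (by positivity)
        _ ≤ (n : ℝ) ^ δ * (B * (n : ℝ) ^ ⌈A⌉₊) := by gcongr
        _ = _ := by ring
    have h4 := sqrt_mul_exp_le hy0
    rw [norm_mul]
    calc ‖(n : ℂ) ^ δ * b n‖ * ‖W ν (2 * π * n) y‖
        ≤ (B * (n : ℝ) ^ (δ + ⌈A⌉₊)) * (C * (Real.sqrt y * Real.exp (-(π * y))) *
          Real.exp (-(π * y₀) * n)) := mul_le_mul h2 h1 (norm_nonneg _) (by positivity)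
      _ ≤ (B * (n : ℝ) ^ (δ + ⌈A⌉₊)) * (C * Real.exp (-y) * Real.exp (-(π * y₀) * n)) := by
          gcongr
      _ = _ := by ring

theorem summable_aux (k : ℕ) {y₀ : ℝ} (h0 : 0 < y₀) :
    Summable (fun n : ℕ => (n : ℝ) ^ k * Real.exp (-(π * y₀) * n)) :=
  Real.summable_pow_mul_exp_neg_nat_mul k (by positivity)

theorem FF_summable (hb0 : b 0 = 0) (hB : 0 ≤ B) (hb : ∀ n, ‖b n‖ ≤ B * (n : ℝ) ^ A)
    {y : ℝ} (hy : 0 < y) : Summable (fun n : ℕ => ((n : ℂ) ^ δ * b n) * W ν (2 * π * n) y) := by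
  obtain ⟨C, hC, h⟩ := term_bound (ν := ν) (δ := δ) hb0 hB hb hy
  exact Summable.of_norm_bounded ((summable_aux (δ + ⌈A⌉₊) hy).mul_left (C * Real.exp (-y)))
    (fun n => h n y le_rfl)

theorem FF_norm_le (hb0 : b 0 = 0) (hB : 0 ≤ B) (hb : ∀ n, ‖b n‖ ≤ B * (n : ℝ) ^ A)
    {y₀ : ℝ} (h0 : 0 < y₀) : ∃ C : ℝ, 0 ≤ C ∧ ∀ y, y₀ ≤ y →
      ‖FF b ν δ y‖ ≤ C * Real.exp (-y) := by
  obtain ⟨C, hC, h⟩ := term_bound (ν := ν) (δ := δ) hb0 hB hb h0
  have hs := summable_aux (δ + ⌈A⌉₊) h0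
  refine ⟨C * ∑' n : ℕ, ((n : ℝ) ^ (δ + ⌈A⌉₊) * Real.exp (-(π * y₀) * n)),
    mul_nonneg hC (tsum_nonneg fun n => by positivity), fun y hy => ?_⟩
  unfold FF
  refine (tsum_of_norm_bounded (hs.mul_left (C * Real.exp (-y))).hasSum
    (fun n => h n y hy)).trans ?_
  rw [tsum_mul_left]
  exact le_of_eq (by ring)

theorem FF_continuousOn (hb0 : b 0 = 0) (hB : 0 ≤ B) (hb : ∀ n, ‖b n‖ ≤ B * (n : ℝ) ^ A) :
    ContinuousOn (FF b ν δ) (Ioi 0) := by
  intro y hy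
  have hy' : (0 : ℝ) < y := hy
  have h0 : 0 < y / 2 := by linarith
  obtain ⟨C, hC, h⟩ := term_bound (ν := ν) (δ := δ) hb0 hB hb h0
  have hc : ContinuousOn (FF b ν δ) (Ioi (y / 2)) := by
    unfold FF
    refine continuousOn_tsum (u := fun n : ℕ => C * ((n : ℝ) ^ (δ + ⌈A⌉₊) *
      Real.exp (-(π * (y / 2)) * n))) ?_ ((summable_aux _ h0).mul_left C) ?_
    · intro n
      rcases Nat.eq_zero_or_pos n with hn | hn
      · subst hn
        rw [hb0]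
        simp only [mul_zero, zero_mul]
        exact continuousOn_const
      · have hn1 : (0 : ℝ) < n := by exact_mod_cast hn
        have hκ : 0 < 2 * π * n := by positivity
        intro z hz
        have hz' : 0 < z := lt_trans h0 hz
        exact (((W_sol ν hκ).d1 z hz').continuousAt.const_mul _).continuousWithinAt
    · intro n z hz
      refine (h n z (le_of_lt hz)).trans ?_
      apply mul_le_mul_of_nonneg_right _ (by positivity)
      have : Real.exp (-z) ≤ 1 := Real.exp_le_one_iff.2 (by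
        have : 0 < z := lt_trans h0 hz
        linarith)
      nlinarith
  exact (hc.continuousAt (Ioi_mem_nhds (by linarith))).continuousWithinAt

theorem FF_locInt (hb0 : b 0 = 0) (hB : 0 ≤ B) (hb : ∀ n, ‖b n‖ ≤ B * (n : ℝ) ^ A) :
    LocallyIntegrableOn (FF b ν δ) (Ioi 0) :=
  (FF_continuousOn hb0 hB hb).locallyIntegrableOn measurableSet_Ioi

theorem FF_top (hb0 : b 0 = 0) (hB : 0 ≤ B) (hb : ∀ n, ‖b n‖ ≤ B * (n : ℝ) ^ A) (r : ℝ) :
    FF b ν δ =O[atTop] (fun y : ℝ => y ^ r) := by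
  obtain ⟨C, hC, h⟩ := FF_norm_le (ν := ν) (δ := δ) hb0 hB hb one_pos
  have h1 : FF b ν δ =O[atTop] (fun y : ℝ => Real.exp (-1 * y)) := by
    refine IsBigO.of_bound C ?_
    filter_upwards [eventually_ge_atTop 1] with y hy
    rw [Real.norm_eq_abs, abs_of_pos (Real.exp_pos _), neg_one_mul]
    exact h y hy
  exact h1.trans (isLittleO_exp_neg_mul_rpow_atTop one_pos r).isBigO

/-- the symmetry of the series -/
def Sym (b : ℕ → ℂ) (ν : ℂ) (δ : ℕ) (N : ℝ) : Prop :=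
  ∀ y : ℝ, 0 < y → FF b ν δ (1 / (N ^ 2 * y)) = -(((N ^ 2 * y ^ 2) ^ δ : ℝ) : ℂ) * FF b ν δ y

theorem Sym.inv {N : ℝ} (hN : 0 < N) (h : Sym b ν δ N) {y : ℝ} (hy : 0 < y) :
    FF b ν δ y = -(((N ^ 2 * y ^ 2)⁻¹ ^ δ : ℝ) : ℂ) * FF b ν δ (1 / (N ^ 2 * y)) := by
  rw [h y hy]
  have h1 : ((((N ^ 2 * y ^ 2) ^ δ : ℝ)) : ℂ) ≠ 0 := by
    exact_mod_cast (by positivity : ((N ^ 2 * y ^ 2) ^ δ : ℝ) ≠ 0)
  have h2 : (((N ^ 2 * y ^ 2)⁻¹ ^ δ : ℝ) : ℂ) = ((((N ^ 2 * y ^ 2) ^ δ : ℝ)) : ℂ)⁻¹ := by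
    rw [inv_pow]; push_cast; rfl
  rw [h2]
  field_simp

theorem FF_zero (hb0 : b 0 = 0) (hB : 0 ≤ B) (hb : ∀ n, ‖b n‖ ≤ B * (n : ℝ) ^ A) {N : ℝ}
    (hN : 0 < N) (hS : Sym b ν δ N) (r : ℝ) :
    FF b ν δ =O[𝓝[>] 0] (fun y : ℝ => y ^ r) := by
  have ht : Tendsto (fun y : ℝ => 1 / (N ^ 2 * y)) (𝓝[>] 0) atTop := by
    have h1 : Tendsto (fun y : ℝ => N ^ 2 * y) (𝓝[>] 0) (𝓝[>] 0) := by
      refine tendsto_nhdsWithin_of_tendsto_nhds_of_eventually_within _ ?_ ?_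
      · have : Tendsto (fun y : ℝ => N ^ 2 * y) (𝓝 0) (𝓝 (N ^ 2 * 0)) :=
          (continuous_const.mul continuous_id).tendsto 0
        rw [mul_zero] at this
        exact this.mono_left nhdsWithin_le_nhds
      · filter_upwards [self_mem_nhdsWithin] with y hy
        have hy' : (0 : ℝ) < y := hy
        show (0 : ℝ) < N ^ 2 * y
        positivity
    have h2 := tendsto_inv_nhdsGT_zero.comp h1
    refine h2.congr (fun y => ?_)
    simp [one_div]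
  have h1 := (FF_top (ν := ν) (δ := δ) hb0 hB hb (-(r + 2 * δ))).comp_tendsto ht
  have h2 : (fun y : ℝ => ((((N ^ 2 * y ^ 2)⁻¹ ^ δ : ℝ)) : ℂ)) =O[𝓝[>] 0]
      (fun y : ℝ => y ^ (-(2 * δ : ℝ))) := by
    refine IsBigO.of_bound ((N ^ 2)⁻¹ ^ δ) ?_
    filter_upwards [self_mem_nhdsWithin] with y hy
    have hy' : (0 : ℝ) < y := hy
    rw [Complex.norm_real, Real.norm_eq_abs, abs_of_pos (by positivity), Real.norm_eq_abs,
      abs_of_pos (Real.rpow_pos_of_pos hy' _), mul_inv, mul_pow, Real.rpow_neg hy'.le]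
    have : y ^ (2 * δ : ℝ) = (y ^ 2) ^ δ := by
      rw [← pow_mul, ← Real.rpow_natCast]
      push_cast
      rfl
    rw [this, inv_pow (y ^ 2)]
  have h3 := h2.mul h1
  have h4 : (fun y : ℝ => y ^ (-(2 * δ : ℝ)) *
      ((fun y : ℝ => y ^ (-(r + 2 * δ))) ∘ fun y : ℝ => 1 / (N ^ 2 * y)) y) =O[𝓝[>] 0]
      (fun y : ℝ => y ^ r) := by
    refine IsBigO.of_bound ((N ^ 2) ^ (r + 2 * δ)) ?_
    filter_upwards [self_mem_nhdsWithin] with y hy
    have hy' : (0 : ℝ) < y := hy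
    simp only [Function.comp]
    have e1 : (1 / (N ^ 2 * y)) ^ (-(r + 2 * δ)) = (N ^ 2) ^ (r + 2 * δ) * y ^ (r + 2 * δ) := by
      rw [one_div, Real.inv_rpow (by positivity), ← Real.rpow_neg (by positivity), neg_neg,
        Real.mul_rpow (by positivity) hy'.le]
    rw [e1, norm_mul, norm_mul, Real.norm_eq_abs, Real.norm_eq_abs, Real.norm_eq_abs,
      Real.norm_eq_abs, abs_of_pos (Real.rpow_pos_of_pos hy' _),
      abs_of_pos (Real.rpow_pos_of_pos (by positivity) _),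
      abs_of_pos (Real.rpow_pos_of_pos hy' _), abs_of_pos (Real.rpow_pos_of_pos hy' _)]
    have e2 : y ^ (-(2 * δ : ℝ)) * y ^ (r + 2 * δ) = y ^ r := by
      rw [← Real.rpow_add hy']
      congr 1
      ring
    calc y ^ (-(2 * δ : ℝ)) * ((N ^ 2) ^ (r + 2 * δ) * y ^ (r + 2 * δ))
        = (N ^ 2) ^ (r + 2 * δ) * (y ^ (-(2 * δ : ℝ)) * y ^ (r + 2 * δ)) := by ring
      _ = (N ^ 2) ^ (r + 2 * δ) * y ^ r := by rw [e2]
      _ ≤ _ := le_rfl
  refine IsBigO.trans ?_ (h3.trans h4)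
  refine IsBigO.of_bound 1 ?_
  filter_upwards [self_mem_nhdsWithin] with y hy
  rw [one_mul, hS.inv hN hy]
  simp only [Function.comp, neg_mul, norm_neg]
  exact le_rfl

theorem FF_mellin_differentiable (hb0 : b 0 = 0) (hB : 0 ≤ B)
    (hb : ∀ n, ‖b n‖ ≤ B * (n : ℝ) ^ A) {N : ℝ} (hN : 0 < N) (hS : Sym b ν δ N) :
    Differentiable ℂ (mellin (FF b ν δ)) := by
  intro s
  refine mellin_differentiableAt_of_isBigO_rpow (a := s.re + 1) (b := s.re - 1)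
    (FF_locInt hb0 hB hb) (FF_top hb0 hB hb _) (by linarith) (FF_zero hb0 hB hb hN hS _)
    (by linarith)

theorem FF_mellin_center {N : ℝ} (hN : 0 < N) (hS : Sym b ν δ N) :
    mellin (FF b ν δ) (δ : ℂ) = 0 := by
  have hNc : ((N : ℂ) ^ 2) ≠ 0 := by
    have : (N : ℂ) ≠ 0 := by exact_mod_cast hN.ne'
    exact pow_ne_zero 2 this
  -- the inversion
  have h1 : mellin (fun t : ℝ => FF b ν δ (1 / (N ^ 2 * t))) (-(δ : ℂ)) =
      (((N ^ 2)⁻¹ : ℝ) : ℂ) ^ (-(δ : ℂ)) • mellin (FF b ν δ) (δ : ℂ) := by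
    have e1 : (fun t : ℝ => FF b ν δ (1 / (N ^ 2 * t))) =
        (fun t : ℝ => (fun u : ℝ => FF b ν δ ((N ^ 2)⁻¹ * u)) t⁻¹) := by
      ext t
      simp only []
      congr 1
      rw [one_div, mul_inv]
    have e2 := mellin_comp_inv (fun u : ℝ => FF b ν δ ((N ^ 2)⁻¹ * u)) (-(δ : ℂ))
    have e3 := mellin_comp_mul_left (FF b ν δ) (δ : ℂ) (a := (N ^ 2)⁻¹) (by positivity)
    rw [neg_neg] at e2
    rw [e1]
    exact e2.trans e3
  have h2 : mellin (FF b ν δ) (δ : ℂ) =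
      mellin (fun t : ℝ => (-((((N ^ 2)⁻¹ ^ δ : ℝ)) : ℂ)) •
        ((t : ℂ) ^ (-(2 * δ : ℂ)) • FF b ν δ (1 / (N ^ 2 * t)))) (δ : ℂ) := by
    unfold mellin
    refine setIntegral_congr_fun measurableSet_Ioi (fun t ht => ?_)
    have ht' : (0 : ℝ) < t := ht
    simp only [smul_eq_mul]
    congr 1
    rw [hS.inv hN ht']
    have e2 : (t : ℂ) ^ (-(2 * δ : ℂ)) = (((t ^ 2)⁻¹ ^ δ : ℝ) : ℂ) := by
      rw [Complex.cpow_neg]
      have : (t : ℂ) ^ (2 * δ : ℂ) = (t : ℂ) ^ (2 * δ : ℕ) := by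
        rw [← Complex.cpow_natCast]
        push_cast
        rfl
      rw [this, pow_mul]
      push_cast
      rw [inv_pow]
    rw [e2, mul_inv, mul_pow]
    push_cast
    ring
  rw [mellin_const_smul, mellin_cpow_smul] at h2
  have h3 : (δ : ℂ) + -(2 * δ : ℂ) = -(δ : ℂ) := by ring
  rw [h3, h1] at h2
  have h4 : (((N ^ 2)⁻¹ : ℝ) : ℂ) ^ (-(δ : ℂ)) = (((N ^ 2) ^ δ : ℝ) : ℂ) := by
    rw [Complex.cpow_neg, Complex.cpow_natCast]
    push_cast
    rw [inv_pow, inv_inv]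
  rw [h4, smul_eq_mul, smul_eq_mul] at h2
  have h5 : -((((N ^ 2)⁻¹ ^ δ : ℝ)) : ℂ) * ((((N ^ 2) ^ δ : ℝ) : ℂ) * mellin (FF b ν δ) (δ : ℂ)) =
      -mellin (FF b ν δ) (δ : ℂ) := by
    have h6 : ((((N ^ 2)⁻¹ ^ δ : ℝ)) : ℂ) * (((N ^ 2) ^ δ : ℝ) : ℂ) = 1 := by
      rw [← Complex.ofReal_mul, ← mul_pow, inv_mul_cancel₀ (by positivity), one_pow]
      norm_num
    linear_combination (-mellin (FF b ν δ) (δ : ℂ)) * h6
  rw [h5] at h2
  have h7 : (2 : ℂ) * mellin (FF b ν δ) (δ : ℂ) = 0 := by linear_combination h2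
  rcases mul_eq_zero.1 h7 with h | h
  · norm_num at h
  · exact h

/-! ### The Dirichlet series -/

theorem norm_W_int (ν s : ℂ) {κ : ℝ} (hκ : 0 < κ) :
    ∫ t : ℝ in Ioi 0, ‖(t : ℂ) ^ (s - 1) * W ν κ t‖ =
      κ ^ (-(s.re + 1 / 2)) * ∫ t : ℝ in Ioi 0, ‖(t : ℂ) ^ (s - 1) * W ν 1 t‖ := by
  have key : ∀ (κ : ℝ), 0 < κ → ∀ t ∈ Ioi (0 : ℝ), ‖(t : ℂ) ^ (s - 1) * W ν κ t‖ =
      t ^ (s.re - 1 / 2) * ‖K ν (κ * t)‖ := by
    intro κ _ t ht
    have ht' : (0 : ℝ) < t := ht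
    unfold W
    rw [norm_mul, norm_mul, Complex.norm_cpow_eq_rpow_re_of_pos ht', Complex.norm_real,
      Real.norm_eq_abs, abs_of_nonneg (Real.sqrt_nonneg t), Real.sqrt_eq_rpow, ← mul_assoc,
      ← Real.rpow_add ht']
    congr 2
    simp
    ring
  rw [setIntegral_congr_fun measurableSet_Ioi (key κ hκ),
    setIntegral_congr_fun measurableSet_Ioi (key 1 one_pos)]
  have h1 := integral_comp_mul_left_Ioi (fun u : ℝ => u ^ (s.re - 1 / 2) * ‖K ν (1 * u)‖) 0 hκ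
  rw [mul_zero] at h1
  have h2 : ∀ t ∈ Ioi (0 : ℝ), t ^ (s.re - 1 / 2) * ‖K ν (κ * t)‖ =
      κ ^ (-(s.re - 1 / 2)) * ((κ * t) ^ (s.re - 1 / 2) * ‖K ν (1 * (κ * t))‖) := by
    intro t ht
    have ht' : (0 : ℝ) < t := ht
    rw [Real.mul_rpow hκ.le ht'.le, Real.rpow_neg hκ.le, one_mul]
    have := (Real.rpow_pos_of_pos hκ (s.re - 1 / 2)).ne'
    field_simp
  rw [setIntegral_congr_fun measurableSet_Ioi h2, integral_const_mul, h1, smul_eq_mul,
    ← mul_assoc]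
  congr 1
  rw [← Real.rpow_neg_one κ, ← Real.rpow_add hκ]
  congr 1
  ring

/-- the Gamma factor of `mellin (W ν (2 π n)) s` -/
noncomputable def gam (ν s : ℂ) : ℂ :=
  ((2 * π : ℝ) : ℂ) ^ (-(s + 1 / 2)) * (2 ^ (s + 1 / 2 - 2) * Complex.Gamma ((s + 1 / 2 + ν) / 2) *
    Complex.Gamma ((s + 1 / 2 - ν) / 2))

theorem FF_mellin_hasSum (hb0 : b 0 = 0) (hB : 0 ≤ B)
    (hb : ∀ n, ‖b n‖ ≤ B * (n : ℝ) ^ A) {s : ℂ} (h1 : 0 < (s + 1 / 2 + ν).re)
    (h2 : 0 < (s + 1 / 2 - ν).re) (h3 : A + 1 + δ < s.re + 1 / 2) :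
    HasSum (fun n : ℕ => gam ν s * LSeries.term b (s + 1 / 2 - δ) n) (mellin (FF b ν δ) s) := by
  have hint : ∀ n : ℕ, Integrable (fun t : ℝ => (t : ℂ) ^ (s - 1) *
      (((n : ℂ) ^ δ * b n) * W ν (2 * π * n) t)) (volume.restrict (Ioi 0)) := by
    intro n
    rcases Nat.eq_zero_or_pos n with hn | hn
    · subst hn
      rw [hb0]
      simp
    · have hn1 : (0 : ℝ) < n := by exact_mod_cast hn
      have hκ : 0 < 2 * π * n := by positivity
      have := (mellinConvergent_W ν s hκ h1 h2)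
      unfold MellinConvergent at this
      have h4 := this.const_mul ((n : ℂ) ^ δ * b n)
      refine Integrable.congr h4 (Filter.Eventually.of_forall fun t => ?_)
      simp only [smul_eq_mul]
      ring
  set I0 : ℝ := ∫ t : ℝ in Ioi 0, ‖(t : ℂ) ^ (s - 1) * W ν 1 t‖ with hI0
  have hI0n : 0 ≤ I0 := integral_nonneg fun t => norm_nonneg _
  have hnorm : ∀ n : ℕ, (∫ t : ℝ in Ioi 0, ‖(t : ℂ) ^ (s - 1) *
      (((n : ℂ) ^ δ * b n) * W ν (2 * π * n) t)‖) ≤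
      (B * ((2 * π) ^ (-(s.re + 1 / 2)) * I0)) * (n : ℝ) ^ (-(s.re + 1 / 2 - δ - A)) := by
    intro n
    rcases Nat.eq_zero_or_pos n with hn | hn
    · subst hn
      rw [hb0]
      simp only [mul_zero, zero_mul, norm_zero, integral_zero]
      have : (0 : ℝ) ≤ ((0 : ℕ) : ℝ) ^ (-(s.re + 1 / 2 - δ - A)) :=
        Real.rpow_nonneg (by simp) _
      positivity
    · have hn1 : (0 : ℝ) < n := by exact_mod_cast hn
      have hκ : 0 < 2 * π * n := by positivity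
      have e1 : ∀ t : ℝ, ‖(t : ℂ) ^ (s - 1) * (((n : ℂ) ^ δ * b n) * W ν (2 * π * n) t)‖ =
          ‖(n : ℂ) ^ δ * b n‖ * ‖(t : ℂ) ^ (s - 1) * W ν (2 * π * n) t‖ := by
        intro t
        rw [← norm_mul]
        congr 1
        ring
      simp_rw [e1]
      rw [integral_const_mul, norm_W_int ν s hκ, ← hI0, norm_mul, norm_pow,
        Complex.norm_natCast]
      have e2 : (2 * π * (n : ℝ)) ^ (-(s.re + 1 / 2)) =
          (2 * π) ^ (-(s.re + 1 / 2)) * (n : ℝ) ^ (-(s.re + 1 / 2)) :=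
        Real.mul_rpow (by positivity) hn1.le
      rw [e2]
      have e3 : (n : ℝ) ^ δ * (n : ℝ) ^ A * (n : ℝ) ^ (-(s.re + 1 / 2)) =
          (n : ℝ) ^ (-(s.re + 1 / 2 - δ - A)) := by
        rw [← Real.rpow_natCast, ← Real.rpow_add hn1, ← Real.rpow_add hn1]
        congr 1
        ring
      have hp1 : 0 < (2 * π) ^ (-(s.re + 1 / 2)) := Real.rpow_pos_of_pos (by positivity) _
      have hp2 : 0 < (n : ℝ) ^ (-(s.re + 1 / 2)) := Real.rpow_pos_of_pos hn1 _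
      calc (n : ℝ) ^ δ * ‖b n‖ * ((2 * π) ^ (-(s.re + 1 / 2)) * (n : ℝ) ^ (-(s.re + 1 / 2)) * I0)
          ≤ (n : ℝ) ^ δ * (B * (n : ℝ) ^ A) *
            ((2 * π) ^ (-(s.re + 1 / 2)) * (n : ℝ) ^ (-(s.re + 1 / 2)) * I0) := by
            apply mul_le_mul_of_nonneg_right _ (by positivity)
            exact mul_le_mul_of_nonneg_left (hb n) (by positivity)
        _ = (B * ((2 * π) ^ (-(s.re + 1 / 2)) * I0)) *
            ((n : ℝ) ^ δ * (n : ℝ) ^ A * (n : ℝ) ^ (-(s.re + 1 / 2))) := by ring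
        _ = _ := by rw [e3]
  have hsum : Summable (fun n : ℕ => ∫ t : ℝ in Ioi 0, ‖(t : ℂ) ^ (s - 1) *
      (((n : ℂ) ^ δ * b n) * W ν (2 * π * n) t)‖) := by
    refine Summable.of_nonneg_of_le (fun n => integral_nonneg fun t => norm_nonneg _) hnorm ?_
    apply Summable.mul_left
    apply Real.summable_nat_rpow.2
    linarith
  have key := hasSum_integral_of_summable_integral_norm hint hsum
  have e4 : (∫ t : ℝ in Ioi 0, ∑' n : ℕ, (t : ℂ) ^ (s - 1) *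
      (((n : ℂ) ^ δ * b n) * W ν (2 * π * n) t)) = mellin (FF b ν δ) s := by
    unfold mellin FF
    refine setIntegral_congr_fun measurableSet_Ioi (fun t _ => ?_)
    simp only [smul_eq_mul]
    rw [tsum_mul_left]
  rw [e4] at key
  refine (congrArg (fun f : ℕ → ℂ => HasSum f (mellin (FF b ν δ) s)) (funext fun n => ?_)).mpr key
  rcases Nat.eq_zero_or_pos n with hn | hn
  · subst hn
    rw [hb0]
    simp
  · have hn1 : (0 : ℝ) < n := by exact_mod_cast hn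
    have hn0 : (n : ℂ) ≠ 0 := by exact_mod_cast hn1.ne'
    have hκ : 0 < 2 * π * n := by positivity
    have e5 : (∫ t : ℝ in Ioi 0, (t : ℂ) ^ (s - 1) *
        (((n : ℂ) ^ δ * b n) * W ν (2 * π * n) t)) =
        ((n : ℂ) ^ δ * b n) * mellin (W ν (2 * π * n)) s := by
      unfold mellin
      rw [← integral_const_mul]
      refine setIntegral_congr_fun measurableSet_Ioi (fun t _ => ?_)
      simp only [smul_eq_mul]
      ring
    rw [e5, mellin_W ν s hκ h1 h2, LSeries.term_of_ne_zero hn.ne']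
    have e6 : (((2 * π * n : ℝ)) : ℂ) ^ (-(s + 1 / 2)) =
        ((2 * π : ℝ) : ℂ) ^ (-(s + 1 / 2)) * (n : ℂ) ^ (-(s + 1 / 2)) := by
      rw [Complex.ofReal_mul, Complex.mul_cpow_ofReal_nonneg (by positivity) hn1.le]
      rfl
    rw [e6]
    have e7 : (n : ℂ) ^ (s + 1 / 2 - δ) = (n : ℂ) ^ (s + 1 / 2) / (n : ℂ) ^ δ := by
      rw [Complex.cpow_sub _ _ hn0, Complex.cpow_natCast]
    have e9 : (n : ℂ) ^ (-(s + 1 / 2)) = ((n : ℂ) ^ (s + 1 / 2))⁻¹ := Complex.cpow_neg _ _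
    rw [e7, e9]
    unfold gam
    have e8 : (n : ℂ) ^ (s + 1 / 2) ≠ 0 := by
      rw [Ne, Complex.cpow_eq_zero_iff]
      tauto
    generalize Complex.Gamma ((s + 1 / 2 + ν) / 2) = G1
    generalize Complex.Gamma ((s + 1 / 2 - ν) / 2) = G2
    generalize (2 : ℂ) ^ (s + 1 / 2 - 2) = P1
    generalize ((2 * π : ℝ) : ℂ) ^ (-(s + 1 / 2)) = P2
    generalize (n : ℂ) ^ (s + 1 / 2) = P3 at *
    field_simp

/-- the inverse of the Gamma factor -/
noncomputable def igam (ν s : ℂ) : ℂ :=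
  ((2 * π : ℝ) : ℂ) ^ (s + 1 / 2) * (2 ^ (-(s + 1 / 2 - 2)) *
    (Complex.Gamma ((s + 1 / 2 + ν) / 2))⁻¹ * (Complex.Gamma ((s + 1 / 2 - ν) / 2))⁻¹)

theorem igam_differentiable (ν : ℂ) : Differentiable ℂ (igam ν) := by
  unfold igam
  have h2pi : ((2 * π : ℝ) : ℂ) ≠ 0 := by exact_mod_cast (by positivity : (2 * π : ℝ) ≠ 0)
  have d1 : Differentiable ℂ (fun s : ℂ => ((2 * π : ℝ) : ℂ) ^ (s + 1 / 2)) := by
    intro s
    exact DifferentiableAt.const_cpow (by fun_prop) (Or.inl h2pi)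
  have d2 : Differentiable ℂ (fun s : ℂ => (2 : ℂ) ^ (-(s + 1 / 2 - 2))) := by
    intro s
    exact DifferentiableAt.const_cpow (by fun_prop) (Or.inl two_ne_zero)
  have d3 : Differentiable ℂ (fun s : ℂ => (Complex.Gamma ((s + 1 / 2 + ν) / 2))⁻¹) := by
    have := Complex.differentiable_one_div_Gamma
    exact this.comp (by fun_prop : Differentiable ℂ fun s : ℂ => (s + 1 / 2 + ν) / 2)
  have d4 : Differentiable ℂ (fun s : ℂ => (Complex.Gamma ((s + 1 / 2 - ν) / 2))⁻¹) := by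
    have := Complex.differentiable_one_div_Gamma
    exact this.comp (by fun_prop : Differentiable ℂ fun s : ℂ => (s + 1 / 2 - ν) / 2)
  exact d1.mul ((d2.mul d3).mul d4)

theorem igam_mul_gam (ν s : ℂ) (h1 : 0 < (s + 1 / 2 + ν).re)
    (h2 : 0 < (s + 1 / 2 - ν).re) : igam ν s * gam ν s = 1 := by
  unfold igam gam
  have g1 : Complex.Gamma ((s + 1 / 2 + ν) / 2) ≠ 0 :=
    Complex.Gamma_ne_zero_of_re_pos (by rw [Complex.div_ofNat_re]; positivity)
  have g2 : Complex.Gamma ((s + 1 / 2 - ν) / 2) ≠ 0 :=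
    Complex.Gamma_ne_zero_of_re_pos (by rw [Complex.div_ofNat_re]; positivity)
  have h2pi : ((2 * π : ℝ) : ℂ) ≠ 0 := by exact_mod_cast (by positivity : (2 * π : ℝ) ≠ 0)
  rw [Complex.cpow_neg, Complex.cpow_neg]
  have e1 : ((2 * π : ℝ) : ℂ) ^ (s + 1 / 2) ≠ 0 := by
    rw [Ne, Complex.cpow_eq_zero_iff]; tauto
  have e2 : (2 : ℂ) ^ (s + 1 / 2 - 2) ≠ 0 := by
    rw [Ne, Complex.cpow_eq_zero_iff]; simp
  generalize Complex.Gamma ((s + 1 / 2 + ν) / 2) = G1 at *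
  generalize Complex.Gamma ((s + 1 / 2 - ν) / 2) = G2 at *
  generalize (2 : ℂ) ^ (s + 1 / 2 - 2) = P1 at *
  generalize ((2 * π : ℝ) : ℂ) ^ (s + 1 / 2) = P2 at *
  field_simp

/-- Main theorem of this file: a Dirichlet series whose Bessel series has the symmetry with sign
`-1` extends to an entire function that vanishes at `1 / 2`. -/
theorem exists_entire (hb0 : b 0 = 0) (hB : 0 ≤ B)
    (hb : ∀ n, ‖b n‖ ≤ B * (n : ℝ) ^ A) {N : ℝ} (hN : 0 < N) (hS : Sym b ν δ N) :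
    ∃ Λ : ℂ → ℂ, Differentiable ℂ Λ ∧ (∀ s : ℂ, A + 1 < s.re → Λ s = LSeries b s) ∧
      Λ (1 / 2) = 0 := by
  let Λ : ℂ → ℂ := fun s => igam ν (s - 1 / 2 + δ) * mellin (FF b ν δ) (s - 1 / 2 + δ)
  have hd : Differentiable ℂ Λ := by
    have hf : Differentiable ℂ (fun s : ℂ => s - 1 / 2 + δ) := by fun_prop
    exact ((igam_differentiable ν).comp hf).mul
      ((FF_mellin_differentiable hb0 hB hb hN hS).comp hf)
  have hfar : ∀ s : ℂ, A + 1 < s.re → |ν.re| < s.re → Λ s = LSeries b s := by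
    intro s hs1 hs2
    have hδ : (0 : ℝ) ≤ δ := Nat.cast_nonneg δ
    have r1 : 0 < (s - 1 / 2 + δ + 1 / 2 + ν).re := by
      have : s - 1 / 2 + δ + 1 / 2 + ν = s + δ + ν := by ring
      rw [this, Complex.add_re, Complex.add_re, Complex.natCast_re]
      linarith [neg_abs_le ν.re]
    have r2 : 0 < (s - 1 / 2 + δ + 1 / 2 - ν).re := by
      have : s - 1 / 2 + δ + 1 / 2 - ν = s + δ - ν := by ring
      rw [this, Complex.sub_re, Complex.add_re, Complex.natCast_re]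
      linarith [le_abs_self ν.re]
    have r3 : A + 1 + δ < (s - 1 / 2 + δ).re + 1 / 2 := by
      have : (s - 1 / 2 + δ : ℂ).re = s.re - 1 / 2 + δ := by
        simp
      rw [this]
      linarith
    have h := FF_mellin_hasSum (ν := ν) (δ := δ) hb0 hB hb r1 r2 r3
    have e1 : s - 1 / 2 + δ + 1 / 2 - δ = s := by ring
    rw [e1] at h
    have h' := h.mul_left (igam ν (s - 1 / 2 + δ))
    have h'' := h'.tsum_eq
    show igam ν (s - 1 / 2 + δ) * mellin (FF b ν δ) (s - 1 / 2 + δ) = _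
    rw [← h'']
    unfold LSeries
    congr 1
    ext n
    rw [← mul_assoc, igam_mul_gam ν _ r1 r2, one_mul]
  refine ⟨Λ, hd, ?_, ?_⟩
  · -- analytic continuation
    have habs : LSeries.abscissaOfAbsConv b ≤ (A + 1 : ℝ) := by
      have := LSeries.abscissaOfAbsConv_le_of_le_const_mul_rpow (f := b) (x := A)
        ⟨B, fun n _ => hb n⟩
      refine this.trans ?_
      push_cast
      exact le_rfl
    have hLan : AnalyticOnNhd ℂ (LSeries b) {s : ℂ | A + 1 < s.re} := by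
      refine (LSeries_analyticOnNhd b).mono (fun s hs => ?_)
      show LSeries.abscissaOfAbsConv b < s.re
      exact lt_of_le_of_lt habs (by exact_mod_cast hs)
    have hΛan : AnalyticOnNhd ℂ Λ {s : ℂ | A + 1 < s.re} :=
      (hd.differentiableOn.analyticOnNhd isOpen_univ).mono (subset_univ _)
    have hpre : IsPreconnected {s : ℂ | A + 1 < s.re} :=
      (convex_halfSpace_re_gt (A + 1)).isPreconnected
    set s₀ : ℂ := ((max (A + 1) |ν.re| + 1 : ℝ) : ℂ) with hs₀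
    have hs₀mem : s₀ ∈ {s : ℂ | A + 1 < s.re} := by
      show A + 1 < s₀.re
      rw [hs₀, Complex.ofReal_re]
      linarith [le_max_left (A + 1) |ν.re|]
    have hev : Λ =ᶠ[𝓝 s₀] LSeries b := by
      have hopen : IsOpen {s : ℂ | max (A + 1) |ν.re| < s.re} :=
        isOpen_lt continuous_const Complex.continuous_re
      have hmem : s₀ ∈ {s : ℂ | max (A + 1) |ν.re| < s.re} := by
        show max (A + 1) |ν.re| < s₀.re
        rw [hs₀, Complex.ofReal_re]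
        linarith
      filter_upwards [hopen.mem_nhds hmem] with s hs
      have hs' : max (A + 1) |ν.re| < s.re := hs
      exact hfar s (lt_of_le_of_lt (le_max_left _ _) hs') (lt_of_le_of_lt (le_max_right _ _) hs')
    intro s hs
    exact hΛan.eqOn_of_preconnected_of_eventuallyEq hLan hpre hs₀mem hev hs
  · show igam ν (1 / 2 - 1 / 2 + δ) * mellin (FF b ν δ) (1 / 2 - 1 / 2 + δ) = 0
    rw [sub_self, zero_add, FF_mellin_center hN hS, mul_zero]

end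

end Pool.Agent.K4H93.KB
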