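import Pool.Agent.K4H93.KB.Basic

/-! # The Mellin transform of the modified Bessel function of the second kind -/

namespace Pool.Agent.K4H93.KB

open MeasureTheory Real Set Filter Topology

/-- `log (2 cosh t)` -/
noncomputable def L (t : ℝ) : ℝ := Real.log (2 * Real.cosh t)

theorem two_cosh_pos (t : ℝ) : 0 < 2 * Real.cosh t := by
  have := Real.cosh_pos t
  positivity

theorem exp_L (t : ℝ) : Real.exp (L t) = 2 * Real.cosh t := Real.exp_log (two_cosh_pos t)

theorem sigmoid_eq (t : ℝ) : Real.sigmoid (2 * t) = Real.exp (t - L t) := by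
  rw [Real.exp_sub, exp_L, Real.sigmoid_def, Real.cosh_eq]
  have h1 : Real.exp (-(2 * t)) = Real.exp (-t) * Real.exp (-t) := by
    rw [← Real.exp_add]; congr 1; ring
  have h2 : Real.exp t * Real.exp (-t) = 1 := by
    rw [← Real.exp_add]; simp
  have h3 := Real.exp_pos t
  have h4 := Real.exp_pos (-t)
  rw [h1]
  field_simp
  nlinarith

theorem one_sub_sigmoid_eq (t : ℝ) : 1 - Real.sigmoid (2 * t) = Real.exp (-t - L t) := by
  have h : Real.exp (t - L t) + Real.exp (-t - L t) = 1 := by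
    rw [Real.exp_sub, Real.exp_sub, exp_L, Real.cosh_eq]
    have h3 := Real.exp_pos t
    have h4 := Real.exp_pos (-t)
    field_simp
  rw [sigmoid_eq]
  linarith

theorem cpow_exp (a : ℝ) (w : ℂ) : ((Real.exp a : ℝ) : ℂ) ^ w = Complex.exp (a * w) := by
  rw [Complex.cpow_def_of_ne_zero (by exact_mod_cast (Real.exp_pos a).ne'), ← Complex.ofReal_log
    (Real.exp_pos a).le, Real.log_exp]

/-- the integrand after substitution -/
noncomputable def J (u v : ℂ) (t : ℝ) : ℂ := Complex.exp ((u - v) * t - (u + v) * L t)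

theorem subst_aux (u v : ℂ) (t : ℝ) :
    |2 * (Real.sigmoid (2 * t) * (1 - Real.sigmoid (2 * t)))| •
      (((Real.sigmoid (2 * t) : ℝ) : ℂ) ^ (u - 1) *
        (1 - ((Real.sigmoid (2 * t) : ℝ) : ℂ)) ^ (v - 1)) = 2 * J u v t := by
  have h1 : (1 - ((Real.sigmoid (2 * t) : ℝ) : ℂ)) = ((Real.exp (-t - L t) : ℝ) : ℂ) := by
    rw [← one_sub_sigmoid_eq]; push_cast; ring
  rw [h1, one_sub_sigmoid_eq, sigmoid_eq, abs_of_pos (by positivity), cpow_exp, cpow_exp,
    Complex.real_smul]
  unfold J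
  rw [← Complex.exp_add]
  have h2 : ((2 * (Real.exp (t - L t) * Real.exp (-t - L t)) : ℝ) : ℂ) =
      2 * Complex.exp (((t - L t) + (-t - L t) : ℝ) : ℂ) := by
    rw [← Real.exp_add]
    push_cast
    rfl
  rw [h2, mul_assoc, ← Complex.exp_add]
  congr 2
  push_cast
  ring

theorem hasDerivAt_sub (t : ℝ) : HasDerivAt (fun t => Real.sigmoid (2 * t))
    (2 * (Real.sigmoid (2 * t) * (1 - Real.sigmoid (2 * t)))) t := by
  have h := (Real.hasDerivAt_sigmoid (2 * t)).comp t ((hasDerivAt_id t).const_mul 2)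
  refine h.congr_deriv ?_
  simp
  ring

theorem image_sub : (fun t : ℝ => Real.sigmoid (2 * t)) '' univ = Ioo 0 1 := by
  rw [image_univ, ← Real.range_sigmoid]
  apply Subset.antisymm
  · rintro _ ⟨t, rfl⟩
    exact ⟨2 * t, rfl⟩
  · rintro _ ⟨t, rfl⟩
    exact ⟨t / 2, by simp only []; congr 1; ring⟩

theorem injOn_sub : InjOn (fun t : ℝ => Real.sigmoid (2 * t)) univ := by
  intro a _ b _ h
  have := Real.sigmoid_injective h
  linarith

theorem integrable_J {u v : ℂ} (hu : 0 < u.re) (hv : 0 < v.re) : Integrable (J u v) := by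
  have h := Complex.betaIntegral_convergent hu hv
  rw [intervalIntegrable_iff_integrableOn_Ioo_of_le zero_le_one, ← image_sub,
    integrableOn_image_iff_integrableOn_abs_deriv_smul MeasurableSet.univ
      (fun x _ => (hasDerivAt_sub x).hasDerivWithinAt) injOn_sub, integrableOn_univ] at h
  have h2 : Integrable (fun t => 2 * J u v t) := by
    refine h.congr (Filter.Eventually.of_forall fun t => ?_)
    exact subst_aux u v t
  have h3 := h2.const_mul (1 / 2 : ℂ)
  refine h3.congr (Filter.Eventually.of_forall fun t => ?_)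
  simp only []
  ring

theorem integral_J {u v : ℂ} :
    2 * ∫ t, J u v t = Complex.betaIntegral u v := by
  unfold Complex.betaIntegral
  rw [intervalIntegral.integral_of_le zero_le_one, integral_Ioc_eq_integral_Ioo, ← image_sub,
    integral_image_eq_integral_abs_deriv_smul MeasurableSet.univ
      (fun x _ => (hasDerivAt_sub x).hasDerivWithinAt) injOn_sub, setIntegral_univ,
    ← integral_const_mul]
  congr 1
  ext t
  rw [subst_aux]

theorem one_div_cosh (t : ℝ) : 1 / Real.cosh t = Real.exp (Real.log 2 - L t) := by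
  rw [Real.exp_sub, exp_L, Real.exp_log two_pos]
  have := Real.cosh_pos t
  field_simp

/-- the inner integral -/
theorem inner_int (ν w : ℂ) (hw : 0 < w.re) (t : ℝ) :
    ∫ y : ℝ in Ioi 0, (y : ℂ) ^ (w - 1) * E ν y t =
      2 ^ w * Complex.Gamma w * J ((w + ν) / 2) ((w - ν) / 2) t := by
  have h1 : ∀ y : ℝ, (y : ℂ) ^ (w - 1) * E ν y t =
      ((y : ℂ) ^ (w - 1) * Complex.exp (-((Real.cosh t : ℝ) * (y : ℂ)))) *
        Complex.exp (ν * t) := by
    intro y
    unfold E
    rw [Complex.exp_add, mul_assoc]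
    congr 3
    push_cast
    ring
  simp_rw [h1]
  rw [integral_mul_const, Complex.integral_cpow_mul_exp_neg_mul_Ioi hw (Real.cosh_pos t)]
  have h2 : (1 / ((Real.cosh t : ℝ) : ℂ)) = ((Real.exp (Real.log 2 - L t) : ℝ) : ℂ) := by
    rw [← one_div_cosh]; push_cast; rfl
  rw [h2, cpow_exp]
  have h3 : (2 : ℂ) ^ w = Complex.exp (Real.log 2 * w) := by
    rw [← cpow_exp, Real.exp_log two_pos]; norm_num
  rw [h3]
  unfold J
  have h4 : Complex.exp (((Real.log 2 - L t : ℝ) : ℂ) * w) * Complex.exp (ν * t) =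
      Complex.exp (Real.log 2 * w) *
        Complex.exp (((w + ν) / 2 - (w - ν) / 2) * t - ((w + ν) / 2 + (w - ν) / 2) * L t) := by
    rw [← Complex.exp_add, ← Complex.exp_add]
    congr 1
    push_cast
    ring
  linear_combination Complex.Gamma w * h4

theorem norm_cpow_E (ν w : ℂ) {y : ℝ} (hy : 0 < y) (t : ℝ) :
    ‖(y : ℂ) ^ (w - 1) * E ν y t‖ =
      y ^ (w.re - 1) * Real.exp (-(Real.cosh t * y)) * Real.exp (ν.re * t) := by
  rw [norm_mul, norm_E, Complex.norm_cpow_eq_rpow_re_of_pos hy, Real.exp_add]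
  simp only [Complex.sub_re, Complex.one_re]
  rw [mul_comm y (Real.cosh t), mul_assoc]

theorem integrableOn_inner (ν w : ℂ) (hw : 0 < w.re) (t : ℝ) :
    IntegrableOn (fun y : ℝ => (y : ℂ) ^ (w - 1) * E ν y t) (Ioi 0) := by
  have h := (integrableOn_rpow_mul_exp_neg_mul_rpow (p := 1) (s := w.re - 1) (b := Real.cosh t)
    (by linarith) zero_lt_one (Real.cosh_pos t)).mul_const (Real.exp (ν.re * t))
  refine Integrable.mono' h ?_ ?_
  · apply Measurable.aestronglyMeasurable
    apply Measurable.mul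
    · exact Complex.measurable_ofReal.pow_const _
    · unfold E
      fun_prop
  · filter_upwards [ae_restrict_mem measurableSet_Ioi] with y hy
    rw [norm_cpow_E ν w hy, Real.rpow_one, neg_mul]

theorem integral_norm_inner (ν w : ℂ) (hw : 0 < w.re) (t : ℝ) :
    ∫ y : ℝ in Ioi 0, ‖(y : ℂ) ^ (w - 1) * E ν y t‖ =
      (2 : ℝ) ^ w.re * Real.Gamma w.re * ‖J ((w + ν) / 2) ((w - ν) / 2) t‖ := by
  rw [setIntegral_congr_fun measurableSet_Ioi (fun y hy => norm_cpow_E ν w hy t),
    integral_mul_const, Real.integral_rpow_mul_exp_neg_mul_Ioi hw (Real.cosh_pos t)]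
  unfold J
  rw [one_div_cosh, Complex.norm_exp, ← Real.exp_mul]
  have h3 : (2 : ℝ) ^ w.re = Real.exp (Real.log 2 * w.re) := by
    rw [Real.rpow_def_of_pos two_pos]
  rw [h3]
  have h5 : (((w + ν) / 2 - (w - ν) / 2) * (t : ℂ) - ((w + ν) / 2 + (w - ν) / 2) * (L t : ℂ)).re =
      ν.re * t - w.re * L t := by
    have : ((w + ν) / 2 - (w - ν) / 2) * (t : ℂ) - ((w + ν) / 2 + (w - ν) / 2) * (L t : ℂ) =
        ν * t - w * L t := by ring
    rw [this, Complex.sub_re, Complex.re_mul_ofReal, Complex.re_mul_ofReal]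
  rw [h5]
  have h4 : Real.exp ((Real.log 2 - L t) * w.re) * Real.exp (ν.re * t) =
      Real.exp (Real.log 2 * w.re) * Real.exp (ν.re * t - w.re * L t) := by
    rw [← Real.exp_add, ← Real.exp_add]
    congr 1
    ring
  linear_combination Real.Gamma w.re * h4

theorem integrable_prod (ν w : ℂ) (h1 : 0 < (w + ν).re) (h2 : 0 < (w - ν).re) :
    Integrable (Function.uncurry fun (t : ℝ) (y : ℝ) => (y : ℂ) ^ (w - 1) * E ν y t)
      (volume.prod (volume.restrict (Ioi 0))) := by
  have hw : 0 < w.re := by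
    simp only [Complex.add_re, Complex.sub_re] at h1 h2
    linarith
  rw [integrable_prod_iff]
  · refine ⟨Filter.Eventually.of_forall fun t => integrableOn_inner ν w hw t, ?_⟩
    have h3 : Integrable (fun t => (2 : ℝ) ^ w.re * Real.Gamma w.re *
        ‖J ((w + ν) / 2) ((w - ν) / 2) t‖) := by
      apply Integrable.const_mul
      apply Integrable.norm
      apply integrable_J
      · rw [Complex.div_ofNat_re]; positivity
      · rw [Complex.div_ofNat_re]; positivity
    refine h3.congr (Filter.Eventually.of_forall fun t => ?_)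
    exact (integral_norm_inner ν w hw t).symm
  · apply Measurable.aestronglyMeasurable
    apply Measurable.mul
    · exact (Complex.measurable_ofReal.comp measurable_snd).pow_const _
    · unfold E
      fun_prop

theorem K_integrableOn (ν w : ℂ) (h1 : 0 < (w + ν).re) (h2 : 0 < (w - ν).re) :
    IntegrableOn (fun y : ℝ => (y : ℂ) ^ (w - 1) * K ν y) (Ioi 0) := by
  have h := (integrable_prod ν w h1 h2).integral_prod_right
  have h' := h.const_mul (1 / 2 : ℂ)
  refine Integrable.congr h' (Filter.Eventually.of_forall fun y => ?_)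
  simp only [Function.uncurry]
  unfold K
  rw [integral_const_mul]
  ring

/-- the Mellin transform of `K` -/
theorem K_mellin (ν w : ℂ) (h1 : 0 < (w + ν).re) (h2 : 0 < (w - ν).re) :
    ∫ y : ℝ in Ioi 0, (y : ℂ) ^ (w - 1) * K ν y =
      2 ^ (w - 2) * Complex.Gamma ((w + ν) / 2) * Complex.Gamma ((w - ν) / 2) := by
  have hw : 0 < w.re := by
    simp only [Complex.add_re, Complex.sub_re] at h1 h2
    linarith
  have e1 : ∀ y : ℝ, (y : ℂ) ^ (w - 1) * K ν y =
      (1 / 2) * ∫ t : ℝ, (y : ℂ) ^ (w - 1) * E ν y t := by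
    intro y
    unfold K
    rw [integral_const_mul]
    ring
  simp_rw [e1]
  rw [integral_const_mul, ← integral_integral_swap (integrable_prod ν w h1 h2)]
  simp_rw [inner_int ν w hw]
  rw [integral_const_mul]
  have h3 := integral_J (u := (w + ν) / 2) (v := (w - ν) / 2)
  rw [Complex.betaIntegral_eq_Gamma_mul_div _ _ (by rw [Complex.div_ofNat_re]; positivity)
    (by rw [Complex.div_ofNat_re]; positivity)] at h3
  have h4 : (w + ν) / 2 + (w - ν) / 2 = w := by ring
  rw [h4] at h3
  have h5 : Complex.Gamma w ≠ 0 := Complex.Gamma_ne_zero_of_re_pos hw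
  have h6 : (2 : ℂ) ^ w = 2 ^ (w - 2) * 4 := by
    rw [Complex.cpow_sub _ _ two_ne_zero]
    norm_num
  have h7 : ∫ t, J ((w + ν) / 2) ((w - ν) / 2) t =
      Complex.Gamma ((w + ν) / 2) * Complex.Gamma ((w - ν) / 2) / Complex.Gamma w / 2 := by
    rw [← h3]; ring
  rw [h7, h6]
  field_simp
  ring

theorem K_mellinConvergent (ν w : ℂ) (h1 : 0 < (w + ν).re) (h2 : 0 < (w - ν).re) :
    MellinConvergent (K ν) w := by
  unfold MellinConvergent
  simpa only [smul_eq_mul] using K_integrableOn ν w h1 h2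

theorem mellin_K (ν w : ℂ) (h1 : 0 < (w + ν).re) (h2 : 0 < (w - ν).re) :
    mellin (K ν) w = 2 ^ (w - 2) * Complex.Gamma ((w + ν) / 2) * Complex.Gamma ((w - ν) / 2) := by
  unfold mellin
  simpa only [smul_eq_mul] using K_mellin ν w h1 h2

end Pool.Agent.K4H93.KB
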