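import Pool.Agent.K4H93.KB.LFun
import Pool.Agent.K4H4.Kron

/-! # Quadratic twists of an odd function invariant under the modular group -/

set_option autoImplicit false

namespace Pool.Agent.K4H93.KB

open MeasureTheory Real Set Filter Topology Asymptotics
open Pool.Agent.K4H4.Kron

/-- invariance of a function on the upper half plane under the modular group -/
def Inv (F : ℂ → ℂ) : Prop := ∀ a b c d : ℤ, a * d - b * c = 1 → ∀ z : ℂ, 0 < z.im →
  F ((a * z + b) / (c * z + d)) = F z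

section

variable {N : ℕ} [NeZero N]

/-- the additive twist -/
noncomputable def twist (χ : DirichletCharacter ℂ N) (F : ℂ → ℂ) (z : ℂ) : ℂ :=
  ∑ u : ZMod N, χ u * F (z + (u.val : ℂ) / N)

open Classical in
/-- the involution `u ↦ - u⁻¹` on units -/
noncomputable def ninv (u : ZMod N) : ZMod N := if IsUnit u then -u⁻¹ else u

theorem ninv_invol : Function.Involutive (ninv (N := N)) := by
  classical
  intro u
  unfold ninv
  by_cases hu : IsUnit u
  · have h1 : IsUnit (-u⁻¹) := by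
      rw [IsUnit.neg_iff]
      obtain ⟨w, rfl⟩ := hu
      rw [ZMod.inv_coe_unit]
      exact w⁻¹.isUnit
    rw [if_pos hu, if_pos h1]
    obtain ⟨w, rfl⟩ := hu
    rw [ZMod.inv_coe_unit]
    have h2 : (-((w⁻¹ : (ZMod N)ˣ) : ZMod N)) = ((-w⁻¹ : (ZMod N)ˣ) : ZMod N) := by
      rw [Units.val_neg]
    rw [h2, ZMod.inv_coe_unit]
    rw [← Units.val_neg]
    congr 1
    rw [inv_neg, inv_inv, neg_neg]
  · rw [if_neg hu, if_neg hu]

theorem twist_inv {F : ℂ → ℂ} (hF : Inv F) {χ : DirichletCharacter ℂ N} (hr : χ⁻¹ = χ) {z : ℂ}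
    (hz : 0 < z.im) : twist χ F (-1 / (N ^ 2 * z)) = χ (-1) * twist χ F z := by
  classical
  unfold twist
  rw [Finset.mul_sum]
  refine Fintype.sum_equiv (Function.Involutive.toPerm _ ninv_invol) _ _ (fun u => ?_)
  rw [Function.Involutive.coe_toPerm]
  by_cases hu : IsUnit u
  · have hn : ninv u = -u⁻¹ := by unfold ninv; rw [if_pos hu]
    rw [hn]
    have h1 : χ (-u⁻¹) = χ (-1) * χ u := by
      rw [← neg_one_mul, map_mul]
      congr 1
      have e1 : χ u⁻¹ * χ u = 1 := by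
        rw [← map_mul, ZMod.inv_mul_of_unit u hu, map_one]
      have e2 : χ⁻¹ u = (χ u)⁻¹ := MulChar.inv_apply_eq_inv' χ u
      rw [eq_inv_of_mul_eq_one_left e1, ← e2, hr]
    rw [h1]
    have h2 : χ (-1) * χ (-1) = 1 := by
      rw [← map_mul]
      simp
    have h3 : F (-1 / (N ^ 2 * z) + (u.val : ℂ) / N) = F (z + ((-u⁻¹).val : ℂ) / N) := by
      set v : ZMod N := -u⁻¹ with hv
      have h4 : ((u.val * v.val + 1 : ℕ) : ZMod N) = 0 := by
        push_cast
        rw [ZMod.natCast_zmod_val, ZMod.natCast_zmod_val, hv, mul_neg,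
          ZMod.mul_inv_of_unit u hu]
        ring
      rw [ZMod.natCast_eq_zero_iff] at h4
      obtain ⟨m, hm⟩ := h4
      have hmC : (u.val : ℂ) * v.val + 1 = N * m := by exact_mod_cast hm
      have hdet : (u.val : ℤ) * (-(v.val : ℤ)) - (-(m : ℤ)) * (N : ℤ) = 1 := by
        have : (u.val : ℤ) * v.val + 1 = N * m := by exact_mod_cast hm
        linarith
      have hN : (N : ℂ) ≠ 0 := Nat.cast_ne_zero.mpr (NeZero.ne N)
      have hz0 : z ≠ 0 := by
        intro h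
        rw [h] at hz
        simp at hz
      have him : 0 < (z + (v.val : ℂ) / N).im := by
        have : ((v.val : ℂ) / N).im = 0 := by
          have : ((v.val : ℂ) / N) = (((v.val : ℝ) / N : ℝ) : ℂ) := by push_cast; rfl
          rw [this, Complex.ofReal_im]
        rw [Complex.add_im, this, add_zero]
        exact hz
      have key := hF (u.val : ℤ) (-(m : ℤ)) (N : ℤ) (-(v.val : ℤ)) hdet (z + (v.val : ℂ) / N) him
      rw [← key]
      congr 1
      push_cast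
      have e1 : (N : ℂ) * (z + (v.val : ℂ) / N) + -(v.val : ℂ) = N * z := by
        field_simp
        ring
      rw [e1, eq_div_iff (mul_ne_zero hN hz0)]
      field_simp
      linear_combination (-1 : ℂ) * hmC
    rw [h3]
    linear_combination (-(χ u) * F (z + ((-u⁻¹).val : ℂ) / N)) * h2
  · have hn : ninv u = u := by unfold ninv; rw [if_neg hu]
    rw [hn, MulChar.map_nonunit χ hu]
    simp

/-! ### The expansion of the twist -/

theorem stdAddChar_mul_natCast (u : ZMod N) (n : ℕ) :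
    (ZMod.stdAddChar (u * (n : ZMod N)) : ℂ) =
      Complex.exp (((2 * π * n * ((u.val : ℝ) / N) : ℝ) : ℂ) * Complex.I) := by
  have h1 : u * (n : ZMod N) = (((u.val * n : ℕ) : ℤ) : ZMod N) := by
    push_cast
    rw [ZMod.natCast_zmod_val]
  rw [h1, ZMod.stdAddChar_coe]
  congr 1
  push_cast
  ring

theorem sum_cs {χ : DirichletCharacter ℂ N} (hχ : χ.IsPrimitive) (hr : χ⁻¹ = χ) (n : ℕ) :
    (∑ u : ZMod N, χ u * (Real.cos (2 * π * n * ((u.val : ℝ) / N)) : ℂ)) =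
        (1 + χ (-1)) / 2 * (χ n * tau χ) ∧
    (∑ u : ZMod N, χ u * (Real.sin (2 * π * n * ((u.val : ℝ) / N)) : ℂ)) =
        (1 - χ (-1)) / (2 * Complex.I) * (χ n * tau χ) := by
  have h1 := sum_mul_stdAddChar hχ hr (n : ZMod N)
  have h2 := sum_mul_stdAddChar hχ hr (-(n : ZMod N))
  have e1 : ∀ u : ZMod N, (ZMod.stdAddChar (u * (n : ZMod N)) : ℂ) =
      (Real.cos (2 * π * n * ((u.val : ℝ) / N)) : ℂ) +
        (Real.sin (2 * π * n * ((u.val : ℝ) / N)) : ℂ) * Complex.I := by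
    intro u
    rw [stdAddChar_mul_natCast, Complex.exp_mul_I, Complex.ofReal_cos, Complex.ofReal_sin]
  have e2 : ∀ u : ZMod N, (ZMod.stdAddChar (u * -(n : ZMod N)) : ℂ) =
      (Real.cos (2 * π * n * ((u.val : ℝ) / N)) : ℂ) -
        (Real.sin (2 * π * n * ((u.val : ℝ) / N)) : ℂ) * Complex.I := by
    intro u
    rw [mul_neg, AddChar.map_neg_eq_inv, stdAddChar_mul_natCast, ← Complex.exp_neg,
      ← neg_mul, ← Complex.ofReal_neg, Complex.exp_mul_I, ← Complex.ofReal_cos,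
      ← Complex.ofReal_sin, Real.cos_neg, Real.sin_neg]
    push_cast
    ring
  simp_rw [e1, mul_add, Finset.sum_add_distrib] at h1
  simp_rw [e2, mul_sub, Finset.sum_sub_distrib] at h2
  have h3 : χ (-(n : ZMod N)) = χ (-1) * χ n := by
    rw [← neg_one_mul, map_mul]
  rw [h3] at h2
  have h4 : ∀ u : ZMod N, χ u * ((Real.sin (2 * π * n * ((u.val : ℝ) / N)) : ℂ) * Complex.I) =
      (χ u * (Real.sin (2 * π * n * ((u.val : ℝ) / N)) : ℂ)) * Complex.I := fun u => by ring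
  simp_rw [h4, ← Finset.sum_mul] at h1 h2
  refine ⟨by linear_combination (h1 + h2) / 2, ?_⟩
  have hI := Complex.I_sq
  rw [div_mul_eq_mul_div, eq_div_iff (mul_ne_zero two_ne_zero Complex.I_ne_zero)]
  linear_combination (h1 - h2)

/-- `F` has the expansion `F(x+iy) = ∑ a(n) √y K_ν(2πny) sin(2πnx)` -/
def Expand (F : ℂ → ℂ) (a : ℕ → ℂ) (ν : ℂ) : Prop := ∀ x y : ℝ, 0 < y →
  F (x + y * Complex.I) = ∑' n : ℕ, a n * W ν (2 * π * n) y * (Real.sin (2 * π * n * x) : ℂ)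

variable {F : ℂ → ℂ} {a : ℕ → ℂ} {ν : ℂ} {B A : ℝ}

theorem term_summable (ha0 : a 0 = 0) (hB : 0 ≤ B) (ha : ∀ n, ‖a n‖ ≤ B * (n : ℝ) ^ A)
    {y : ℝ} (hy : 0 < y) (c : ℕ → ℂ) (hc : ∀ n, ‖c n‖ ≤ 1) :
    Summable (fun n : ℕ => a n * W ν (2 * π * n) y * c n) := by
  have h := (FF_summable (ν := ν) (δ := 0) ha0 hB ha hy).norm
  refine Summable.of_norm_bounded h (fun n => ?_)
  rw [pow_zero, one_mul, norm_mul]
  exact mul_le_of_le_one_right (norm_nonneg _) (hc n)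

theorem norm_sin_le (t : ℝ) : ‖((Real.sin t : ℝ) : ℂ)‖ ≤ 1 := by
  rw [Complex.norm_real, Real.norm_eq_abs]
  exact Real.abs_sin_le_one t

theorem twist_expand (hF : Expand F a ν) (ha0 : a 0 = 0) (hB : 0 ≤ B)
    (ha : ∀ n, ‖a n‖ ≤ B * (n : ℝ) ^ A) {χ : DirichletCharacter ℂ N} (hχ : χ.IsPrimitive)
    (hr : χ⁻¹ = χ) (x : ℝ) {y : ℝ} (hy : 0 < y) :
    twist χ F (x + y * Complex.I) = ∑' n : ℕ, (χ n * a n) * W ν (2 * π * n) y *
      (tau χ * ((1 + χ (-1)) / 2 * (Real.sin (2 * π * n * x) : ℂ) +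
        (1 - χ (-1)) / (2 * Complex.I) * (Real.cos (2 * π * n * x) : ℂ))) := by
  unfold twist
  have h1 : ∀ u : ZMod N, χ u * F (x + y * Complex.I + (u.val : ℂ) / N) =
      ∑' n : ℕ, χ u * (a n * W ν (2 * π * n) y *
        (Real.sin (2 * π * n * (x + (u.val : ℝ) / N)) : ℂ)) := by
    intro u
    have e1 : (x : ℂ) + y * Complex.I + (u.val : ℂ) / N =
        ((x + (u.val : ℝ) / N : ℝ) : ℂ) + y * Complex.I := by
      push_cast
      ring
    rw [e1, hF _ _ hy, tsum_mul_left]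
  simp_rw [h1]
  rw [← Summable.tsum_finsetSum]
  · congr 1
    ext n
    obtain ⟨hc, hs⟩ := sum_cs hχ hr n
    have h2 : ∀ u : ZMod N, χ u * (a n * W ν (2 * π * n) y *
        (Real.sin (2 * π * n * (x + (u.val : ℝ) / N)) : ℂ)) =
        (a n * W ν (2 * π * n) y * (Real.sin (2 * π * n * x) : ℂ)) *
          (χ u * (Real.cos (2 * π * n * ((u.val : ℝ) / N)) : ℂ)) +
        (a n * W ν (2 * π * n) y * (Real.cos (2 * π * n * x) : ℂ)) *
          (χ u * (Real.sin (2 * π * n * ((u.val : ℝ) / N)) : ℂ)) := by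
      intro u
      have : 2 * π * n * (x + (u.val : ℝ) / N) = 2 * π * n * x + 2 * π * n * ((u.val : ℝ) / N) := by
        ring
      rw [this, Real.sin_add]
      push_cast
      ring
    simp_rw [h2]
    rw [Finset.sum_add_distrib, ← Finset.mul_sum, ← Finset.mul_sum, hc, hs]
    ring
  · intro u _
    apply Summable.mul_left
    exact term_summable ha0 hB ha hy _ (fun n => norm_sin_le _)

/-- the twisted coefficients -/
noncomputable def tw (χ : DirichletCharacter ℂ N) (a : ℕ → ℂ) (n : ℕ) : ℂ := χ n * a n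

omit [NeZero N] in
theorem tw_zero {χ : DirichletCharacter ℂ N} (ha0 : a 0 = 0) : tw χ a 0 = 0 := by
  unfold tw
  rw [ha0, mul_zero]

omit [NeZero N] in
theorem tw_bound {χ : DirichletCharacter ℂ N} (ha : ∀ n, ‖a n‖ ≤ B * (n : ℝ) ^ A) (n : ℕ) :
    ‖tw χ a n‖ ≤ B * (n : ℝ) ^ A := by
  unfold tw
  rw [norm_mul]
  have h1 : ‖χ (n : ZMod N)‖ ≤ 1 := DirichletCharacter.norm_le_one χ _
  calc ‖χ (n : ZMod N)‖ * ‖a n‖ ≤ 1 * ‖a n‖ := mul_le_mul_of_nonneg_right h1 (norm_nonneg _)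
    _ ≤ _ := by rw [one_mul]; exact ha n

/-- odd characters -/
theorem sym_odd (hI : Inv F) (hF : Expand F a ν) (ha0 : a 0 = 0) (hB : 0 ≤ B)
    (ha : ∀ n, ‖a n‖ ≤ B * (n : ℝ) ^ A) {χ : DirichletCharacter ℂ N} (hχ : χ.IsPrimitive)
    (hr : χ⁻¹ = χ) (hodd : χ (-1) = -1) : Sym (tw χ a) ν 0 N := by
  have hN : (0 : ℝ) < N := Nat.cast_pos.mpr (NeZero.pos N)
  have key : ∀ y : ℝ, 0 < y → twist χ F (y * Complex.I) =
      (tau χ / Complex.I) * FF (tw χ a) ν 0 y := by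
    intro y hy
    have h1 := twist_expand hF ha0 hB ha hχ hr 0 hy
    rw [Complex.ofReal_zero, zero_add] at h1
    rw [h1, FF, ← tsum_mul_left]
    congr 1
    ext n
    rw [hodd, mul_zero, Real.sin_zero, Real.cos_zero, tw]
    push_cast
    ring
  intro y hy
  have hy' : 0 < 1 / ((N : ℝ) ^ 2 * y) := by positivity
  have h2 := twist_inv hI hr (z := y * Complex.I) (by simpa using hy)
  have h3 : (-1 : ℂ) / (N ^ 2 * (y * Complex.I)) =
      ((1 / ((N : ℝ) ^ 2 * y) : ℝ) : ℂ) * Complex.I := by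
    have hy0 : (y : ℂ) ≠ 0 := by exact_mod_cast hy.ne'
    have hN0 : (N : ℂ) ≠ 0 := Nat.cast_ne_zero.mpr (NeZero.ne N)
    push_cast
    have hI' := Complex.I_ne_zero
    field_simp
    rw [Complex.I_sq]
  rw [h3, key _ hy', key _ hy, hodd] at h2
  have h4 : tau χ / Complex.I ≠ 0 := div_ne_zero (tau_ne_zero hχ hr) Complex.I_ne_zero
  have h5 : (tau χ / Complex.I) * FF (tw χ a) ν 0 (1 / ((N : ℝ) ^ 2 * y)) =
      (tau χ / Complex.I) * (-FF (tw χ a) ν 0 y) := by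
    rw [h2]
    ring
  have h6 := mul_left_cancel₀ h4 h5
  rw [h6]
  simp

/-- the function `G` with `2πx G(x,y) = ∑ b(n) W_n(y) sin(2πnx)` -/
noncomputable def GG (b : ℕ → ℂ) (ν : ℂ) (p : ℝ × ℝ) : ℂ :=
  ∑' n : ℕ, ((n : ℂ) ^ 1 * b n) * W ν (2 * π * n) p.2 * (Real.sinc (2 * π * n * p.1) : ℂ)

theorem GG_zero (b : ℕ → ℂ) (ν : ℂ) (y : ℝ) : GG b ν (0, y) = FF b ν 1 y := by
  unfold GG FF
  congr 1
  ext n
  simp

theorem GG_mul {b : ℕ → ℂ} {ν : ℂ} (x y : ℝ) : (2 * π * x : ℂ) * GG b ν (x, y) =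
    ∑' n : ℕ, b n * W ν (2 * π * n) y * (Real.sin (2 * π * n * x) : ℂ) := by
  unfold GG
  rw [← tsum_mul_left]
  congr 1
  ext n
  simp only [pow_one]
  by_cases h : 2 * π * n * x = 0
  · have h' : (2 * π * n * x : ℂ) = 0 := by exact_mod_cast h
    rw [h]
    simp only [Real.sinc_zero, Real.sin_zero]
    push_cast
    linear_combination (b n * W ν (2 * π * n) y) * h'
  · rw [Real.sinc_of_ne_zero h]
    have h' : (2 * π * n * x : ℂ) ≠ 0 := by exact_mod_cast h
    push_cast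
    have h1 : (n : ℂ) ≠ 0 := fun h0 => h' (by rw [h0]; ring)
    have h2 : (x : ℂ) ≠ 0 := fun h0 => h' (by rw [h0]; ring)
    have h3 : (π : ℂ) ≠ 0 := fun h0 => h' (by rw [h0]; ring)
    field_simp

theorem GG_continuousAt {b : ℕ → ℂ} {ν : ℂ} {B A : ℝ} (hb0 : b 0 = 0) (hB : 0 ≤ B)
    (hb : ∀ n, ‖b n‖ ≤ B * (n : ℝ) ^ A) {y : ℝ} (hy : 0 < y) :
    ContinuousAt (GG b ν) (0, y) := by
  have h0 : 0 < y / 2 := by linarith
  obtain ⟨C, hC, h⟩ := term_bound (ν := ν) (δ := 1) hb0 hB hb h0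
  have hc : ContinuousOn (GG b ν) {p : ℝ × ℝ | y / 2 < p.2} := by
    unfold GG
    refine continuousOn_tsum (u := fun n : ℕ => C * ((n : ℝ) ^ (1 + ⌈A⌉₊) *
      Real.exp (-(π * (y / 2)) * n))) ?_ ((summable_aux _ h0).mul_left C) ?_
    · intro n
      refine ContinuousOn.mul ?_ ?_
      · rcases Nat.eq_zero_or_pos n with hn | hn
        · subst hn
          rw [hb0]
          simp only [mul_zero, zero_mul]
          exact continuousOn_const
        · have hn1 : (0 : ℝ) < n := by exact_mod_cast hn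
          have hκ : 0 < 2 * π * n := by positivity
          intro p hp
          have hz' : 0 < p.2 := lt_trans h0 hp
          have h1 : ContinuousAt (W ν (2 * π * n)) p.2 := ((W_sol ν hκ).d1 p.2 hz').continuousAt
          have h2 : ContinuousAt (fun p : ℝ × ℝ => W ν (2 * π * n) p.2) p :=
            ContinuousAt.comp (f := fun p : ℝ × ℝ => p.2) h1 continuous_snd.continuousAt
          exact (h2.const_mul _).continuousWithinAt
      · apply Continuous.continuousOn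
        apply Complex.continuous_ofReal.comp
        apply Real.continuous_sinc.comp
        fun_prop
    · intro n p hp
      rw [norm_mul]
      have h1 := h n p.2 (le_of_lt hp)
      have h2 : ‖((Real.sinc (2 * π * n * p.1) : ℝ) : ℂ)‖ ≤ 1 := by
        rw [Complex.norm_real, Real.norm_eq_abs]
        exact Real.abs_sinc_le_one _
      refine (mul_le_of_le_one_right (norm_nonneg _) h2).trans (h1.trans ?_)
      apply mul_le_mul_of_nonneg_right _ (by positivity)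
      have h3 : Real.exp (-p.2) ≤ 1 := Real.exp_le_one_iff.2 (by
        have : 0 < p.2 := lt_trans h0 hp
        linarith)
      nlinarith
  have hopen : IsOpen {p : ℝ × ℝ | y / 2 < p.2} := isOpen_lt continuous_const continuous_snd
  exact hc.continuousAt (hopen.mem_nhds (by show y / 2 < y; linarith))

/-- even characters -/
theorem sym_even (hI : Inv F) (hF : Expand F a ν) (ha0 : a 0 = 0) (hB : 0 ≤ B)
    (ha : ∀ n, ‖a n‖ ≤ B * (n : ℝ) ^ A) {χ : DirichletCharacter ℂ N} (hχ : χ.IsPrimitive)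
    (hr : χ⁻¹ = χ) (heven : χ (-1) = 1) : Sym (tw χ a) ν 1 N := by
  have hN : (0 : ℝ) < N := Nat.cast_pos.mpr (NeZero.pos N)
  have htau := tau_ne_zero hχ hr
  have key : ∀ x y : ℝ, 0 < y → twist χ F (x + y * Complex.I) =
      tau χ * ((2 * π * x : ℂ) * GG (tw χ a) ν (x, y)) := by
    intro x y hy
    rw [twist_expand hF ha0 hB ha hχ hr x hy, GG_mul, ← tsum_mul_left]
    congr 1
    ext n
    rw [heven, tw]
    ring
  intro y hy
  have hy' : 0 < 1 / ((N : ℝ) ^ 2 * y) := by positivity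
  -- the relation away from x = 0
  have h1 : ∀ x : ℝ, x ≠ 0 → GG (tw χ a) ν (-x / (N ^ 2 * (x ^ 2 + y ^ 2)),
      y / (N ^ 2 * (x ^ 2 + y ^ 2))) = (((-(N ^ 2 * (x ^ 2 + y ^ 2)) : ℝ)) : ℂ) *
        GG (tw χ a) ν (x, y) := by
    intro x hx
    have hq : 0 < (N : ℝ) ^ 2 * (x ^ 2 + y ^ 2) := by positivity
    have h2 := twist_inv hI hr (z := x + y * Complex.I) (by simpa using hy)
    have h3 : (-1 : ℂ) / (N ^ 2 * (x + y * Complex.I)) =
        ((-x / (N ^ 2 * (x ^ 2 + y ^ 2)) : ℝ) : ℂ) +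
          ((y / (N ^ 2 * (x ^ 2 + y ^ 2)) : ℝ) : ℂ) * Complex.I := by
      have hz0 : (x : ℂ) + y * Complex.I ≠ 0 := by
        intro h0
        have := congrArg Complex.im h0
        simp at this
        exact hy.ne' this
      have hN0 : (N : ℂ) ≠ 0 := Nat.cast_ne_zero.mpr (NeZero.ne N)
      have hq0 : (x : ℂ) ^ 2 + (y : ℂ) ^ 2 ≠ 0 := by
        have : 0 < x ^ 2 + y ^ 2 := by positivity
        exact_mod_cast this.ne'
      push_cast
      rw [div_eq_iff (mul_ne_zero (pow_ne_zero 2 hN0) hz0)]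
      field_simp
      have hI2 := Complex.I_sq
      linear_combination (-(y : ℂ) ^ 2) * hI2
    rw [h3, key _ _ (div_pos hy hq), key _ _ hy, heven, one_mul] at h2
    have h4 := mul_left_cancel₀ htau h2
    have hx' : (x : ℂ) ≠ 0 := by exact_mod_cast hx
    have hpi : (π : ℂ) ≠ 0 := by exact_mod_cast Real.pi_ne_zero
    have hqC : ((N ^ 2 * (x ^ 2 + y ^ 2) : ℝ) : ℂ) ≠ 0 := by exact_mod_cast hq.ne'
    have h5 : ((-x / (N ^ 2 * (x ^ 2 + y ^ 2)) : ℝ) : ℂ) =
        -(x : ℂ) / ((N ^ 2 * (x ^ 2 + y ^ 2) : ℝ) : ℂ) := by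
      push_cast
      rfl
    rw [h5] at h4
    rw [Complex.ofReal_neg]
    generalize GG (tw χ a) ν (-x / (N ^ 2 * (x ^ 2 + y ^ 2)), y / (N ^ 2 * (x ^ 2 + y ^ 2))) = g1
      at *
    generalize GG (tw χ a) ν (x, y) = g2 at *
    generalize ((N ^ 2 * (x ^ 2 + y ^ 2) : ℝ) : ℂ) = q at *
    have h6 : (2 * π * x : ℂ) * (-g1) = (2 * π * x : ℂ) * (q * g2) := by
      have : 2 * (π : ℂ) * (-(x : ℂ) / q) * g1 * q = 2 * π * x * g2 * q := by rw [h4]
      field_simp at this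
      linear_combination this * (2 * (π : ℂ) * x) / (1 : ℂ)
    have h7 := mul_left_cancel₀ (mul_ne_zero (mul_ne_zero two_ne_zero hpi) hx') h6
    linear_combination -h7
  -- the limit x → 0
  have hl1 : Tendsto (fun x : ℝ => GG (tw χ a) ν (-x / (N ^ 2 * (x ^ 2 + y ^ 2)),
      y / (N ^ 2 * (x ^ 2 + y ^ 2)))) (𝓝[≠] 0) (𝓝 (GG (tw χ a) ν (0, 1 / (N ^ 2 * y)))) := by
    have hc := GG_continuousAt (ν := ν) (tw_zero (χ := χ) ha0) hB (tw_bound (χ := χ) ha) hy'
    have hp : Tendsto (fun x : ℝ => ((-x / (N ^ 2 * (x ^ 2 + y ^ 2)),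
        y / (N ^ 2 * (x ^ 2 + y ^ 2))) : ℝ × ℝ)) (𝓝 0) (𝓝 (0, 1 / (N ^ 2 * y))) := by
      have hcont : ContinuousAt (fun x : ℝ => ((-x / (N ^ 2 * (x ^ 2 + y ^ 2)),
        y / (N ^ 2 * (x ^ 2 + y ^ 2))) : ℝ × ℝ)) 0 := by
        have hne : (N : ℝ) ^ 2 * ((0 : ℝ) ^ 2 + y ^ 2) ≠ 0 := by positivity
        refine ContinuousAt.prodMk ?_ ?_
        · exact ContinuousAt.div (by fun_prop) (by fun_prop) hne
        · exact ContinuousAt.div (by fun_prop) (by fun_prop) hne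
      have h2 := hcont.tendsto
      have h3 : (((-(0 : ℝ) / (N ^ 2 * ((0 : ℝ) ^ 2 + y ^ 2)),
        y / (N ^ 2 * ((0 : ℝ) ^ 2 + y ^ 2))) : ℝ × ℝ)) = (0, 1 / (N ^ 2 * y)) := by
        rw [neg_zero, zero_div]
        congr 1
        field_simp
        ring
      rw [h3] at h2
      exact h2
    exact (hc.tendsto.comp hp).mono_left nhdsWithin_le_nhds
  have hl2 : Tendsto (fun x : ℝ => (((-(N ^ 2 * (x ^ 2 + y ^ 2)) : ℝ)) : ℂ) *
      GG (tw χ a) ν (x, y)) (𝓝[≠] 0) (𝓝 ((((-(N ^ 2 * y ^ 2) : ℝ)) : ℂ) *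
        GG (tw χ a) ν (0, y))) := by
    have hc := GG_continuousAt (ν := ν) (tw_zero (χ := χ) ha0) hB (tw_bound (χ := χ) ha) hy
    have hp : Tendsto (fun x : ℝ => ((x, y) : ℝ × ℝ)) (𝓝 0) (𝓝 (0, y)) := by
      have : Continuous (fun x : ℝ => ((x, y) : ℝ × ℝ)) := by fun_prop
      exact this.tendsto 0
    have hq : Tendsto (fun x : ℝ => (((-(N ^ 2 * (x ^ 2 + y ^ 2)) : ℝ)) : ℂ)) (𝓝 0)
        (𝓝 ((((-(N ^ 2 * y ^ 2) : ℝ)) : ℂ))) := by
      have : Continuous (fun x : ℝ => (((-(N ^ 2 * (x ^ 2 + y ^ 2)) : ℝ)) : ℂ)) :=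
        Complex.continuous_ofReal.comp (by fun_prop)
      have h2 := this.tendsto 0
      have h3 : ((((-(N ^ 2 * ((0 : ℝ) ^ 2 + y ^ 2)) : ℝ)) : ℂ)) =
          (((-(N ^ 2 * y ^ 2) : ℝ)) : ℂ) := by
        congr 1
        ring
      rw [h3] at h2
      exact h2
    exact (hq.mul (hc.tendsto.comp hp)).mono_left nhdsWithin_le_nhds
  have hl3 := hl1.congr' (f₂ := fun x : ℝ => (((-(N ^ 2 * (x ^ 2 + y ^ 2)) : ℝ)) : ℂ) *
      GG (tw χ a) ν (x, y)) (by
    filter_upwards [self_mem_nhdsWithin] with x hx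
    exact h1 x hx)
  have h8 := tendsto_nhds_unique hl3 hl2
  rw [GG_zero, GG_zero] at h8
  rw [h8, pow_one, Complex.ofReal_neg]

/-- Main theorem: the twisted Dirichlet series has an entire continuation which vanishes at the
centre, for every real primitive character. -/
theorem twist_exists_entire (hI : Inv F) (hF : Expand F a ν) (ha0 : a 0 = 0) (hB : 0 ≤ B)
    (ha : ∀ n, ‖a n‖ ≤ B * (n : ℝ) ^ A) {χ : DirichletCharacter ℂ N} (hχ : χ.IsPrimitive)
    (hr : χ⁻¹ = χ) :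
    ∃ Λ : ℂ → ℂ, Differentiable ℂ Λ ∧ (∀ s : ℂ, A + 1 < s.re → Λ s = LSeries (tw χ a) s) ∧
      Λ (1 / 2) = 0 := by
  have hN : (0 : ℝ) < N := Nat.cast_pos.mpr (NeZero.pos N)
  have h1 : χ (-1) * χ (-1) = 1 := by
    rw [← map_mul]
    simp
  rcases mul_self_eq_one_iff.1 h1 with h | h
  · exact exists_entire (tw_zero ha0) hB (tw_bound ha) hN (sym_even hI hF ha0 hB ha hχ hr h)
  · exact exists_entire (tw_zero ha0) hB (tw_bound ha) hN (sym_odd hI hF ha0 hB ha hχ hr h)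

end

end Pool.Agent.K4H93.KB
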