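import Pool.Agent.K4H93.KB.Mellin

/-! # Uniqueness of the solution of moderate growth -/

namespace Pool.Agent.K4H93.KB

open MeasureTheory Real Set Filter Topology

/-- `g` (with derivative `g'`) solves `g'' = q g` on `(0, ∞)` -/
structure Sol (q : ℝ → ℂ) (g g' : ℝ → ℂ) : Prop where
  d1 : ∀ y, 0 < y → HasDerivAt g (g' y) y
  d2 : ∀ y, 0 < y → HasDerivAt g' (q y * g y) y

theorem Sol.unique {q g g' h h' : ℝ → ℂ} (hq : ContinuousOn q (Ioi 0)) (hg : Sol q g g')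
    (hh : Sol q h h') {y₀ : ℝ} (h0 : 0 < y₀) (e1 : g y₀ = h y₀) (e2 : g' y₀ = h' y₀) :
    ∀ y, 0 < y → g y = h y ∧ g' y = h' y := by
  intro y hy
  set a := min y y₀ / 2 with ha
  set b := max y y₀ + 1 with hb
  have hmin : 0 < min y y₀ := lt_min hy h0
  have ha0 : 0 < a := by rw [ha]; positivity
  have hay : a < y := by rw [ha]; linarith [min_le_left y y₀]
  have hay0 : a < y₀ := by rw [ha]; linarith [min_le_right y y₀]
  have hyb : y < b := by rw [hb]; linarith [le_max_left y y₀]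
  have hy0b : y₀ < b := by rw [hb]; linarith [le_max_right y y₀]
  have hsub : Icc a b ⊆ Ioi 0 := fun x hx => lt_of_lt_of_le ha0 hx.1
  obtain ⟨M, hM⟩ := isCompact_Icc.exists_bound_of_continuousOn (hq.mono hsub)
  have hlip : ∀ t ∈ Ioo a b, LipschitzOnWith (Real.toNNReal (max 1 M))
      (fun p : ℂ × ℂ => (p.2, q t * p.1)) univ := by
    intro t ht
    rw [lipschitzOnWith_univ]
    apply LipschitzWith.of_dist_le_mul
    intro p p'
    have hm : (1 : ℝ) ≤ max 1 M := le_max_left _ _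
    rw [Real.coe_toNNReal _ (by linarith), Prod.dist_eq, Prod.dist_eq]
    apply max_le
    · calc dist p.2 p'.2 ≤ max (dist p.1 p'.1) (dist p.2 p'.2) := le_max_right _ _
        _ ≤ max 1 M * max (dist p.1 p'.1) (dist p.2 p'.2) :=
          le_mul_of_one_le_left (le_max_of_le_left dist_nonneg) hm
    · have h1 : dist (q t * p.1) (q t * p'.1) = ‖q t‖ * dist p.1 p'.1 := by
        rw [dist_eq_norm, dist_eq_norm, ← mul_sub, norm_mul]
      rw [h1]
      have h2 : ‖q t‖ ≤ max 1 M := (hM t (Ioo_subset_Icc_self ht)).trans (le_max_right _ _)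
      exact mul_le_mul h2 (le_max_left _ _) dist_nonneg (by linarith)
  have key := ODE_solution_unique_of_mem_Ioo (v := fun t (p : ℂ × ℂ) => (p.2, q t * p.1))
    (s := fun _ => univ) (K := Real.toNNReal (max 1 M)) (f := fun t => (g t, g' t))
    (g := fun t => (h t, h' t)) (a := a) (b := b) (t₀ := y₀) hlip ⟨hay0, hy0b⟩
    (fun t ht => ⟨(hg.d1 t (ha0.trans ht.1)).prodMk (hg.d2 t (ha0.trans ht.1)), mem_univ _⟩)
    (fun t ht => ⟨(hh.d1 t (ha0.trans ht.1)).prodMk (hh.d2 t (ha0.trans ht.1)), mem_univ _⟩)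
    (by simp only [e1, e2])
  have := key ⟨hay, hyb⟩
  simp only [Prod.mk.injEq] at this
  exact this

/-- the Wronskian is constant -/
theorem Sol.wronskian {q g g' h h' : ℝ → ℂ} (hg : Sol q g g') (hh : Sol q h h') {x y : ℝ}
    (hx : 0 < x) (hy : 0 < y) : g x * h' x - g' x * h x = g y * h' y - g' y * h y := by
  have hd : ∀ t ∈ Ioi (0 : ℝ), HasDerivWithinAt (fun t => g t * h' t - g' t * h t) 0 (Ioi 0) t := by
    intro t ht
    have h1 := ((hg.d1 t ht).mul (hh.d2 t ht)).sub ((hg.d2 t ht).mul (hh.d1 t ht))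
    have h2 : g' t * h' t + g t * (q t * h t) - (q t * g t * h t + g' t * h' t) = 0 := by ring
    rw [h2] at h1
    exact h1.hasDerivWithinAt
  have h3 := (convex_Ioi (0 : ℝ)).norm_image_sub_le_of_norm_hasDerivWithin_le
    (f := fun t => g t * h' t - g' t * h t) (f' := fun _ => 0) (C := 0) hd
    (fun t _ => by simp) hy hx
  rw [zero_mul] at h3
  exact sub_eq_zero.1 (norm_le_zero_iff.1 h3)

/-- solutions with zero Wronskian are proportional -/
theorem Sol.proportional {q g g' h h' : ℝ → ℂ} (hq : ContinuousOn q (Ioi 0)) (hg : Sol q g g')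
    (hh : Sol q h h') {y₁ : ℝ} (h1 : 0 < y₁) (hne : h y₁ ≠ 0)
    (hw : g y₁ * h' y₁ - g' y₁ * h y₁ = 0) : ∃ c : ℂ, ∀ y, 0 < y → g y = c * h y := by
  refine ⟨g y₁ / h y₁, fun y hy => ?_⟩
  have hs : Sol q (fun y => g y₁ / h y₁ * h y) (fun y => g y₁ / h y₁ * h' y) :=
    ⟨fun y hy => (hh.d1 y hy).const_mul _, fun y hy => by
      have := (hh.d2 y hy).const_mul (g y₁ / h y₁)
      refine this.congr_deriv ?_
      ring⟩
  refine (hg.unique hq hs h1 ?_ ?_ y hy).1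
  · field_simp
  · field_simp
    linear_combination -hw

/-- the derivative of a solution grows no faster than the solution -/
theorem Sol.growth {q g g' : ℝ → ℂ} (hg : Sol q g g') {M : ℝ} (hM : ∀ y, 1 ≤ y → ‖q y‖ ≤ M)
    {C a : ℝ} (ha : 0 ≤ a) (hC : ∀ y, 1 ≤ y → ‖g y‖ ≤ C * Real.exp (a * y)) :
    ∀ y, 1 ≤ y → ‖g' y‖ ≤ ((2 + M) * C * Real.exp a) * Real.exp (a * y) := by
  intro y hy
  have hC0 : 0 ≤ C := by
    have := (norm_nonneg _).trans (hC 1 le_rfl)
    by_contra hneg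
    push Not at hneg
    have h2 := mul_neg_of_neg_of_pos hneg (Real.exp_pos (a * 1))
    linarith
  have hM0 : 0 ≤ M := (norm_nonneg _).trans (hM 1 le_rfl)
  have hbd : ∀ t ∈ Icc y (y + 1), ‖q t * g t‖ ≤ M * (C * Real.exp (a * (y + 1))) := by
    intro t ht
    have ht1 : 1 ≤ t := hy.trans ht.1
    rw [norm_mul]
    apply mul_le_mul (hM t ht1) _ (norm_nonneg _) hM0
    apply (hC t ht1).trans
    apply mul_le_mul_of_nonneg_left _ hC0
    apply Real.exp_le_exp.2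
    apply mul_le_mul_of_nonneg_left ht.2 ha
  have h1 : ∀ t ∈ Icc y (y + 1), ‖g' t - g' y‖ ≤ M * (C * Real.exp (a * (y + 1))) := by
    intro t ht
    have := (convex_Icc y (y + 1)).norm_image_sub_le_of_norm_hasDerivWithin_le
      (f := g') (f' := fun t => q t * g t) (C := M * (C * Real.exp (a * (y + 1))))
      (fun t ht => (hg.d2 t (by linarith [ht.1])).hasDerivWithinAt) hbd
      (left_mem_Icc.2 (by linarith)) ht
    refine this.trans ?_
    have hn : ‖t - y‖ ≤ 1 := by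
      rw [Real.norm_eq_abs, abs_of_nonneg (by linarith [ht.1])]
      linarith [ht.2]
    have hnn : 0 ≤ M * (C * Real.exp (a * (y + 1))) := by positivity
    nlinarith
  have h2 := (convex_Icc y (y + 1)).norm_image_sub_le_of_norm_hasDerivWithin_le
    (f := fun t => g t - g' y * (t : ℂ)) (f' := fun t => g' t - g' y)
    (C := M * (C * Real.exp (a * (y + 1))))
    (fun t ht => by
      have hd1 := hg.d1 t (by linarith [ht.1])
      have hd2 : HasDerivAt (fun t : ℝ => g' y * (t : ℂ)) (g' y) t := by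
        simpa using (Complex.ofRealCLM.hasDerivAt (x := t)).const_mul (g' y)
      exact (hd1.sub hd2).hasDerivWithinAt) h1
    (left_mem_Icc.2 (by linarith)) (right_mem_Icc.2 (by linarith))
  have h3 : ‖(y + 1) - y‖ = 1 := by norm_num
  rw [h3, mul_one] at h2
  have h4 : (g (y + 1) - g' y * ((y + 1 : ℝ) : ℂ)) - (g y - g' y * (y : ℂ)) =
      g (y + 1) - g y - g' y := by
    push_cast; ring
  rw [h4] at h2
  have h5 : ‖g' y‖ ≤ ‖g (y + 1)‖ + ‖g y‖ + ‖g (y + 1) - g y - g' y‖ := by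
    have : g' y = g (y + 1) - g y - (g (y + 1) - g y - g' y) := by ring
    calc ‖g' y‖ = ‖g (y + 1) - g y - (g (y + 1) - g y - g' y)‖ := by rw [← this]
      _ ≤ ‖g (y + 1) - g y‖ + ‖g (y + 1) - g y - g' y‖ := norm_sub_le _ _
      _ ≤ _ := by gcongr; exact norm_sub_le _ _
  have h6 := hC (y + 1) (by linarith)
  have h7 := hC y hy
  have h8 : Real.exp (a * y) ≤ Real.exp (a * (y + 1)) := Real.exp_le_exp.2 (by nlinarith)
  have h9 : Real.exp (a * (y + 1)) = Real.exp a * Real.exp (a * y) := by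
    rw [← Real.exp_add]; congr 1; ring
  have h10 : C * Real.exp (a * y) ≤ C * Real.exp (a * (y + 1)) :=
    mul_le_mul_of_nonneg_left h8 hC0
  calc ‖g' y‖ ≤ C * Real.exp (a * (y + 1)) + C * Real.exp (a * (y + 1)) +
        M * (C * Real.exp (a * (y + 1))) := by linarith
    _ = _ := by rw [h9]; ring

/-! ### The Whittaker form -/

/-- `W ν κ y = √y K ν (κ y)` -/
noncomputable def W (ν : ℂ) (κ y : ℝ) : ℂ := (Real.sqrt y : ℂ) * K ν (κ * y)

/-- the derivative of `W` -/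
noncomputable def W' (ν : ℂ) (κ y : ℝ) : ℂ :=
  (1 / (2 * Real.sqrt y) : ℂ) * K ν (κ * y) - (Real.sqrt y : ℂ) * (κ * KD 1 ν (κ * y))

/-- the potential -/
noncomputable def pot (ν : ℂ) (κ y : ℝ) : ℂ := (κ : ℂ) ^ 2 - (1 / 4 - ν ^ 2) / (y : ℂ) ^ 2

theorem hasDerivAt_sqrt_c {y : ℝ} (hy : 0 < y) :
    HasDerivAt (fun y : ℝ => (Real.sqrt y : ℂ)) (1 / (2 * Real.sqrt y) : ℂ) y := by
  have := (Real.hasDerivAt_sqrt hy.ne').ofReal_comp
  refine this.congr_deriv ?_
  push_cast; ring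

theorem W_sol (ν : ℂ) {κ : ℝ} (hκ : 0 < κ) : Sol (pot ν κ) (W ν κ) (W' ν κ) := by
  have hK : ∀ y, 0 < y → HasDerivAt (fun y : ℝ => K ν (κ * y)) (-(κ * KD 1 ν (κ * y))) y := by
    intro y hy
    have h1 : HasDerivAt (fun y : ℝ => κ * y) κ y := by
      simpa using (hasDerivAt_id y).const_mul κ
    have h2 := (hasDerivAt_K ν (mul_pos hκ hy)).scomp y h1
    refine h2.congr_deriv ?_
    rw [Complex.real_smul]; ring
  have hK1 : ∀ y, 0 < y → HasDerivAt (fun y : ℝ => (κ : ℂ) * KD 1 ν (κ * y))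
      (-(κ ^ 2 * KD 2 ν (κ * y))) y := by
    intro y hy
    have h1 : HasDerivAt (fun y : ℝ => κ * y) κ y := by
      simpa using (hasDerivAt_id y).const_mul κ
    have h2 := ((hasDerivAt_KD 1 ν (mul_pos hκ hy)).scomp y h1).const_mul (κ : ℂ)
    refine h2.congr_deriv ?_
    rw [Complex.real_smul]; ring
  refine ⟨?_, ?_⟩
  · intro y hy
    have h := (hasDerivAt_sqrt_c hy).mul (hK y hy)
    refine h.congr_deriv ?_
    unfold W'
    ring
  · intro y hy
    have hs : (0 : ℝ) < Real.sqrt y := Real.sqrt_pos.2 hy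
    have hsc : (Real.sqrt y : ℂ) ≠ 0 := by exact_mod_cast hs.ne'
    have hyc : (y : ℂ) = (Real.sqrt y : ℂ) ^ 2 := by
      rw [← Complex.ofReal_pow, Real.sq_sqrt hy.le]
    have hinv : HasDerivAt (fun y : ℝ => (1 / (2 * Real.sqrt y) : ℂ))
        (-(1 / (4 * (Real.sqrt y : ℂ) ^ 3))) y := by
      have h1 := ((hasDerivAt_sqrt_c hy).const_mul (2 : ℂ)).inv (by
        simpa using hsc)
      have h2 : (fun y : ℝ => (1 / (2 * Real.sqrt y) : ℂ)) =
          (fun y : ℝ => 2 * (Real.sqrt y : ℂ))⁻¹ := by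
        ext y; simp
      rw [h2]
      refine h1.congr_deriv ?_
      field_simp
      ring
    have h := (hinv.mul (hK y hy)).sub ((hasDerivAt_sqrt_c hy).mul (hK1 y hy))
    refine h.congr_deriv ?_
    have ode := K_ode ν (mul_pos hκ hy)
    unfold pot W
    push_cast at ode
    rw [hyc] at ode ⊢
    field_simp
    field_simp at ode
    linear_combination 8 * ode

theorem exists_K_ne_zero (ν : ℂ) : ∃ y, 0 < y ∧ K ν y ≠ 0 := by
  by_contra h
  push Not at h
  have h1 : 0 < (((|ν.re| + 1 : ℝ) : ℂ) + ν).re := by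
    rw [Complex.add_re, Complex.ofReal_re]
    linarith [neg_abs_le ν.re]
  have h2 : 0 < (((|ν.re| + 1 : ℝ) : ℂ) - ν).re := by
    rw [Complex.sub_re, Complex.ofReal_re]
    linarith [le_abs_self ν.re]
  have h3 := K_mellin ν ((|ν.re| + 1 : ℝ) : ℂ) h1 h2
  rw [setIntegral_congr_fun measurableSet_Ioi (g := fun _ => (0 : ℂ)) (fun y hy => by
    simp only []; rw [h y hy, mul_zero])] at h3
  rw [integral_zero] at h3
  have h4 : Complex.Gamma ((((|ν.re| + 1 : ℝ) : ℂ) + ν) / 2) ≠ 0 :=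
    Complex.Gamma_ne_zero_of_re_pos (by rw [Complex.div_ofNat_re]; positivity)
  have h5 : Complex.Gamma ((((|ν.re| + 1 : ℝ) : ℂ) - ν) / 2) ≠ 0 :=
    Complex.Gamma_ne_zero_of_re_pos (by rw [Complex.div_ofNat_re]; positivity)
  have h6 : (2 : ℂ) ^ (((|ν.re| + 1 : ℝ) : ℂ) - 2) ≠ 0 := by
    rw [Ne, Complex.cpow_eq_zero_iff]
    simp
  exact (mul_ne_zero (mul_ne_zero h6 h4) h5) h3.symm

theorem W_bound (ν : ℂ) {κ : ℝ} (hκ : 0 < κ) : ∃ C : ℝ, 0 ≤ C ∧ ∀ y, 1 ≤ y →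
    ‖W ν κ y‖ ≤ C * (y * Real.exp (-(κ * y))) ∧ ‖W' ν κ y‖ ≤ C * (y * Real.exp (-(κ * y))) := by
  obtain ⟨C0, h0, hC0⟩ := norm_K_le ν hκ
  obtain ⟨C1, h1, hC1⟩ := norm_KD_le 1 ν hκ
  refine ⟨C0 + κ * C1, by positivity, fun y hy => ?_⟩
  have hy0 : 0 < y := by linarith
  have hky : κ ≤ κ * y := by nlinarith
  have b0 := hC0 (κ * y) hky
  have b1 := hC1 (κ * y) hky
  have hs1 : (1 : ℝ) ≤ Real.sqrt y := Real.one_le_sqrt.2 hy
  have hs2 : Real.sqrt y ≤ y := by
    have := Real.sq_sqrt hy0.le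
    nlinarith
  have he := Real.exp_pos (-(κ * y))
  have hsn : ‖(Real.sqrt y : ℂ)‖ = Real.sqrt y := by
    rw [Complex.norm_real, Real.norm_eq_abs, abs_of_pos (by linarith)]
  have c1 : Real.sqrt y * ‖K ν (κ * y)‖ ≤ y * (C0 * Real.exp (-(κ * y))) :=
    mul_le_mul hs2 b0 (norm_nonneg _) hy0.le
  have c2 : 0 ≤ κ * C1 * (y * Real.exp (-(κ * y))) := by positivity
  constructor
  · unfold W
    rw [norm_mul, hsn]
    linarith
  · unfold W'
    have n1 : ‖(1 / (2 * Real.sqrt y) : ℂ)‖ ≤ 1 := by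
      rw [norm_div, norm_mul, hsn]
      simp only [norm_one, Complex.norm_ofNat]
      rw [div_le_one (by positivity)]
      linarith
    have n2 : ‖(κ : ℂ)‖ = κ := by
      rw [Complex.norm_real, Real.norm_eq_abs, abs_of_pos hκ]
    calc _ ≤ ‖(1 / (2 * Real.sqrt y) : ℂ) * K ν (κ * y)‖ +
          ‖(Real.sqrt y : ℂ) * (κ * KD 1 ν (κ * y))‖ := norm_sub_le _ _
      _ = ‖(1 / (2 * Real.sqrt y) : ℂ)‖ * ‖K ν (κ * y)‖ +
          Real.sqrt y * (κ * ‖KD 1 ν (κ * y)‖) := by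
          rw [norm_mul, norm_mul, norm_mul, hsn, n2]
      _ ≤ 1 * (C0 * Real.exp (-(κ * y))) + y * (κ * (C1 * Real.exp (-(κ * y)))) := by
          apply add_le_add
          · exact mul_le_mul n1 b0 (norm_nonneg _) zero_le_one
          · apply mul_le_mul hs2 _ (by positivity) hy0.le
            exact mul_le_mul_of_nonneg_left b1 hκ.le
      _ ≤ _ := by
          have : C0 * Real.exp (-(κ * y)) ≤ y * (C0 * Real.exp (-(κ * y))) :=
            le_mul_of_one_le_left (by positivity) hy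
          linarith

/-- multiplicity one: a solution of the Whittaker equation on `(0, ∞)` which grows more slowly
than `exp (κ y)` is a multiple of `√y K ν (κ y)` -/
theorem W_unique (ν : ℂ) {κ : ℝ} (hκ : 0 < κ) {g g' : ℝ → ℂ} (hg : Sol (pot ν κ) g g')
    {C a : ℝ} (ha : a < κ) (hC : ∀ y, 1 ≤ y → ‖g y‖ ≤ C * Real.exp (a * y)) :
    ∃ c : ℂ, ∀ y, 0 < y → g y = c * W ν κ y := by
  have hC0 : 0 ≤ C := by
    have := (norm_nonneg _).trans (hC 1 le_rfl)
    by_contra hneg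
    push Not at hneg
    have h2 := mul_neg_of_neg_of_pos hneg (Real.exp_pos (a * 1))
    linarith
  -- enlarge `a` to make it nonnegative
  obtain ⟨b, hb0, hbκ, hab⟩ : ∃ b, 0 ≤ b ∧ b < κ ∧ a ≤ b :=
    ⟨max a 0, le_max_right _ _, max_lt ha hκ, le_max_left _ _⟩
  have hCb : ∀ y, 1 ≤ y → ‖g y‖ ≤ C * Real.exp (b * y) := by
    intro y hy
    refine (hC y hy).trans (mul_le_mul_of_nonneg_left ?_ hC0)
    exact Real.exp_le_exp.2 (mul_le_mul_of_nonneg_right hab (by linarith))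
  have hq : ContinuousOn (pot ν κ) (Ioi 0) := by
    intro y hy
    have hy' : (y : ℂ) ^ 2 ≠ 0 := by
      have : (y : ℂ) ≠ 0 := by exact_mod_cast (ne_of_gt hy)
      exact pow_ne_zero 2 this
    apply ContinuousAt.continuousWithinAt
    unfold pot
    apply ContinuousAt.sub continuousAt_const
    exact ContinuousAt.div (f := fun _ : ℝ => (1 / 4 - ν ^ 2 : ℂ)) (g := fun y : ℝ => (y : ℂ) ^ 2)
      continuousAt_const (by fun_prop) hy'
  have hM : ∀ y, 1 ≤ y → ‖pot ν κ y‖ ≤ κ ^ 2 + ‖(1 / 4 - ν ^ 2 : ℂ)‖ := by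
    intro y hy
    unfold pot
    refine (norm_sub_le _ _).trans ?_
    apply add_le_add
    · rw [norm_pow, Complex.norm_real, Real.norm_eq_abs, sq_abs]
    · rw [norm_div, norm_pow, Complex.norm_real, Real.norm_eq_abs, sq_abs]
      apply div_le_self (norm_nonneg _)
      nlinarith
  have hg' := hg.growth hM hb0 hCb
  have hWs := W_sol ν hκ
  obtain ⟨C2, hC2, hWb⟩ := W_bound ν hκ
  obtain ⟨y₁, hy₁, hne⟩ : ∃ y, 0 < y ∧ W ν κ y ≠ 0 := by
    obtain ⟨z, hz, hKz⟩ := exists_K_ne_zero ν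
    refine ⟨z / κ, by positivity, ?_⟩
    unfold W
    rw [mul_div_cancel₀ _ hκ.ne']
    apply mul_ne_zero _ hKz
    exact_mod_cast (Real.sqrt_pos.2 (by positivity : 0 < z / κ)).ne'
  refine hg.proportional hq hWs hy₁ hne ?_
  -- the Wronskian tends to zero
  set D := C + (2 + (κ ^ 2 + ‖(1 / 4 - ν ^ 2 : ℂ)‖)) * C * Real.exp b with hD
  have hbound : ∀ y, 1 ≤ y → ‖g y₁ * W' ν κ y₁ - g' y₁ * W ν κ y₁‖ ≤
      D * C2 * (y * Real.exp (-((κ - b) * y))) := by
    intro y hy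
    have hy0 : 0 < y := by linarith
    rw [hg.wronskian hWs hy₁ hy0]
    obtain ⟨w1, w2⟩ := hWb y hy
    have e1 := hCb y hy
    have e2 := hg' y hy
    have he : Real.exp (b * y) * Real.exp (-(κ * y)) = Real.exp (-((κ - b) * y)) := by
      rw [← Real.exp_add]; congr 1; ring
    calc ‖g y * W' ν κ y - g' y * W ν κ y‖ ≤ ‖g y * W' ν κ y‖ + ‖g' y * W ν κ y‖ :=
          norm_sub_le _ _
      _ = ‖g y‖ * ‖W' ν κ y‖ + ‖g' y‖ * ‖W ν κ y‖ := by rw [norm_mul, norm_mul]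
      _ ≤ (C * Real.exp (b * y)) * (C2 * (y * Real.exp (-(κ * y)))) +
          (((2 + (κ ^ 2 + ‖(1 / 4 - ν ^ 2 : ℂ)‖)) * C * Real.exp b) * Real.exp (b * y)) *
            (C2 * (y * Real.exp (-(κ * y)))) := by
          apply add_le_add
          · exact mul_le_mul e1 w2 (norm_nonneg _) (by positivity)
          · exact mul_le_mul e2 w1 (norm_nonneg _) (by positivity)
      _ = D * C2 * (y * (Real.exp (b * y) * Real.exp (-(κ * y)))) := by rw [hD]; ring
      _ = _ := by rw [he]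
  have hlim : Tendsto (fun y : ℝ => D * C2 * (y * Real.exp (-((κ - b) * y)))) atTop (𝓝 0) := by
    have h1 := Real.tendsto_pow_mul_exp_neg_atTop_nhds_zero 1
    have hkb : 0 < κ - b := by linarith
    have h2 : Tendsto (fun y : ℝ => (κ - b) * y) atTop atTop :=
      tendsto_id.const_mul_atTop hkb
    have h3 := (h1.comp h2).const_mul (D * C2 / (κ - b))
    rw [mul_zero] at h3
    refine h3.congr (fun y => ?_)
    simp only [Function.comp, pow_one]
    field_simp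
  have h0 : ‖g y₁ * W' ν κ y₁ - g' y₁ * W ν κ y₁‖ ≤ 0 := by
    apply ge_of_tendsto hlim
    filter_upwards [eventually_ge_atTop 1] with y hy
    exact hbound y hy
  exact norm_le_zero_iff.1 h0

/-- the same for polynomial growth -/
theorem W_unique_poly (ν : ℂ) {κ : ℝ} (hκ : 0 < κ) {g g' : ℝ → ℂ} (hg : Sol (pot ν κ) g g')
    {C : ℝ} (N : ℕ) (hC : ∀ y, 1 ≤ y → ‖g y‖ ≤ C * y ^ N) :
    ∃ c : ℂ, ∀ y, 0 < y → g y = c * W ν κ y := by
  have hC0 : 0 ≤ C := by
    have := (norm_nonneg _).trans (hC 1 le_rfl)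
    simpa using this
  refine W_unique ν hκ hg (C := C * (N.factorial / (κ / 2) ^ N)) (a := κ / 2) (by linarith)
    (fun y hy => ?_)
  refine (hC y hy).trans ?_
  rw [mul_assoc]
  apply mul_le_mul_of_nonneg_left _ hC0
  have h := Real.pow_div_factorial_le_exp (κ / 2 * y) (by positivity) N
  have h3 : (0 : ℝ) < N.factorial := by exact_mod_cast Nat.factorial_pos N
  rw [div_le_iff₀ h3, mul_pow] at h
  rw [div_mul_eq_mul_div, le_div_iff₀ (by positivity)]
  linarith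

/-! ### Mellin transforms of `W` -/

theorem K_mellinConvergent_mul (ν w : ℂ) {κ : ℝ} (hκ : 0 < κ) (h1 : 0 < (w + ν).re)
    (h2 : 0 < (w - ν).re) : MellinConvergent (fun y => K ν (κ * y)) w :=
  (MellinConvergent.comp_mul_left hκ).2 (K_mellinConvergent ν w h1 h2)

theorem mellin_K_mul (ν w : ℂ) {κ : ℝ} (hκ : 0 < κ) (h1 : 0 < (w + ν).re)
    (h2 : 0 < (w - ν).re) : mellin (fun y => K ν (κ * y)) w =
      (κ : ℂ) ^ (-w) * (2 ^ (w - 2) * Complex.Gamma ((w + ν) / 2) *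
        Complex.Gamma ((w - ν) / 2)) := by
  rw [mellin_comp_mul_left _ _ hκ, smul_eq_mul, mellin_K ν w h1 h2]

theorem W_eq_cpow (ν : ℂ) (κ : ℝ) {y : ℝ} (hy : 0 < y) :
    W ν κ y = (y : ℂ) ^ (1 / 2 : ℂ) • K ν (κ * y) := by
  unfold W
  rw [smul_eq_mul]
  congr 1
  rw [Real.sqrt_eq_rpow, Complex.ofReal_cpow hy.le]
  push_cast
  rfl

theorem mellinConvergent_W (ν s : ℂ) {κ : ℝ} (hκ : 0 < κ) (h1 : 0 < (s + 1 / 2 + ν).re)
    (h2 : 0 < (s + 1 / 2 - ν).re) : MellinConvergent (W ν κ) s := by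
  have h := K_mellinConvergent_mul ν (s + 1 / 2) hκ h1 h2
  rw [← MellinConvergent.cpow_smul] at h
  unfold MellinConvergent at h ⊢
  refine h.congr_fun (fun y hy => ?_) measurableSet_Ioi
  simp only []
  rw [W_eq_cpow ν κ hy]

theorem mellin_W (ν s : ℂ) {κ : ℝ} (hκ : 0 < κ) (h1 : 0 < (s + 1 / 2 + ν).re)
    (h2 : 0 < (s + 1 / 2 - ν).re) : mellin (W ν κ) s =
      (κ : ℂ) ^ (-(s + 1 / 2)) * (2 ^ (s + 1 / 2 - 2) * Complex.Gamma ((s + 1 / 2 + ν) / 2) *
        Complex.Gamma ((s + 1 / 2 - ν) / 2)) := by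
  rw [← mellin_K_mul ν (s + 1 / 2) hκ h1 h2, ← mellin_cpow_smul]
  unfold mellin
  refine setIntegral_congr_fun measurableSet_Ioi (fun y hy => ?_)
  simp only []
  rw [W_eq_cpow ν κ hy]

end Pool.Agent.K4H93.KB
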